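import Pool.Agent.Aks1.Defs

set_option autoImplicit false

/-! # Module Cnt: three small counting lemmas -/

namespace Aks1

private theorem cnt_tri_sum (α X : ℝ) (I : ℕ) :
    ∑ i ∈ Finset.range (I + 1), (X - (i : ℝ) * α) = ((I : ℝ) + 1) * X - α * ((I : ℝ) * ((I : ℝ) + 1) / 2) := by
  induction I with
  | zero => simp
  | succ I ih =>
    rw [Finset.sum_range_succ, ih]
    push_cast
    ring

/-- MODULE tri. Lattice points in a triangle. Proof: `I = ⌊X/α⌋`, `T` = pairs `(i,j)` with `i ≤ I`, `j ≤ (X - iα)/β`; the number is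
`∑_{i ≤ I} (⌊(X - iα)/β⌋ + 1) ≥ ∑_{i ≤ I} (X - iα)/β = (I+1)(X - α I/2)/β ≥ X²/(2αβ)`, the last since with `x = X/α`, `I ≤ x ≤ I+1`:
`x² - 2(I+1)x + I(I+1) ≤ 0`. -/
theorem tri (α β X : ℝ) (hα : 0 < α) (hβ : 0 < β) (hX : 0 ≤ X) :
    ∃ T : Finset (ℕ × ℕ), (∀ q ∈ T, (q.1 : ℝ) * α + (q.2 : ℝ) * β ≤ X) ∧ X ^ 2 / (2 * α * β) ≤ (T.card : ℝ) := by
  have hx : 0 ≤ X / α := div_nonneg hX hα.le
  have hI1 : ((⌊X / α⌋₊ : ℕ) : ℝ) ≤ X / α := Nat.floor_le hx
  have hI2 : X / α < ((⌊X / α⌋₊ : ℕ) : ℝ) + 1 := Nat.lt_floor_add_one _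
  generalize hIdef : ⌊X / α⌋₊ = I at hI1 hI2
  have hpos : ∀ i : ℕ, i ≤ I → 0 ≤ (X - (i : ℝ) * α) / β := by
    intro i hi
    apply div_nonneg _ hβ.le
    have h1 : (i : ℝ) ≤ X / α := le_trans (by exact_mod_cast hi) hI1
    rw [le_div_iff₀ hα] at h1
    linarith
  refine ⟨((Finset.range (I + 1)).sigma fun i => Finset.range (⌊(X - (i : ℝ) * α) / β⌋₊ + 1)).map
    ⟨fun s => (s.1, s.2), fun s s' h => ?_⟩, ?_, ?_⟩
  · obtain ⟨a, b⟩ := s
    obtain ⟨a', b'⟩ := s'
    simp only [Prod.mk.injEq] at h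
    obtain ⟨h1, h2⟩ := h
    subst h1
    subst h2
    rfl
  · intro q hq
    rw [Finset.mem_map] at hq
    obtain ⟨s, hs, rfl⟩ := hq
    rw [Finset.mem_sigma, Finset.mem_range, Finset.mem_range] at hs
    have h1 := hpos s.1 (by omega)
    have h2 : (s.2 : ℝ) ≤ (X - (s.1 : ℝ) * α) / β := by
      refine le_trans ?_ (Nat.floor_le h1)
      exact_mod_cast Nat.lt_succ_iff.mp hs.2
    rw [le_div_iff₀ hβ] at h2
    show (s.1 : ℝ) * α + (s.2 : ℝ) * β ≤ X
    linarith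
  · rw [Finset.card_map, Finset.card_sigma]
    push_cast
    have h1 : ∑ i ∈ Finset.range (I + 1), (X - (i : ℝ) * α) / β ≤
        ∑ i ∈ Finset.range (I + 1), (((Finset.range (⌊(X - (i : ℝ) * α) / β⌋₊ + 1)).card : ℕ) : ℝ) := by
      refine Finset.sum_le_sum fun i hi => ?_
      rw [Finset.card_range]
      push_cast
      exact (Nat.lt_floor_add_one _).le
    refine le_trans ?_ h1
    rw [← Finset.sum_div, cnt_tri_sum, div_le_div_iff₀ (by positivity) hβ]
    have hXa : X = X / α * α := by field_simp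
    have h3 : 0 ≤ (X / α - (I : ℝ)) * ((I : ℝ) + 1 - X / α) :=
      mul_nonneg (by linarith) (by linarith)
    generalize X / α = x at hx hI1 hI2 hXa h3
    subst hXa
    have h5 : 0 ≤ 2 * ((I : ℝ) + 1) * x - (I : ℝ) * ((I : ℝ) + 1) - x ^ 2 := by nlinarith
    have h4 : 0 ≤ α ^ 2 * β * (2 * ((I : ℝ) + 1) * x - (I : ℝ) * ((I : ℝ) + 1) - x ^ 2) := by positivity
    nlinarith

private theorem bin_rec (k : ℕ) :
    (3 * (k + 1)).choose (k + 1) * ((k + 1) * (2 * k + 2) * (2 * k + 1)) =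
      (3 * k).choose k * ((3 * k + 3) * (3 * k + 2) * (3 * k + 1)) := by
  have h1 := Nat.choose_mul_succ_eq (3 * k) k
  have h2 := Nat.choose_mul_succ_eq (3 * k + 1) k
  have h3 := Nat.add_one_mul_choose_eq (3 * k + 2) k
  have e1 : 3 * k + 1 - k = 2 * k + 1 := by omega
  have e2 : 3 * k + 1 + 1 - k = 2 * k + 2 := by omega
  rw [e1] at h1
  rw [e2] at h2
  have e3 : 3 * (k + 1) = 3 * k + 2 + 1 := by ring
  rw [e3]
  calc (3 * k + 2 + 1).choose (k + 1) * ((k + 1) * (2 * k + 2) * (2 * k + 1))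
      = (3 * k + 2 + 1).choose (k + 1) * (k + 1) * ((2 * k + 2) * (2 * k + 1)) := by ring
    _ = (3 * k + 2 + 1) * (3 * k + 2).choose k * ((2 * k + 2) * (2 * k + 1)) := by rw [h3]
    _ = (3 * k + 3) * ((3 * k + 1 + 1).choose k * (2 * k + 2)) * (2 * k + 1) := by ring
    _ = (3 * k + 3) * ((3 * k + 1).choose k * (3 * k + 1 + 1)) * (2 * k + 1) := by rw [h2]
    _ = (3 * k + 3) * (3 * k + 2) * ((3 * k + 1).choose k * (2 * k + 1)) := by ring
    _ = (3 * k + 3) * (3 * k + 2) * ((3 * k).choose k * (3 * k + 1)) := by rw [h1]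
    _ = (3 * k).choose k * ((3 * k + 3) * (3 * k + 2) * (3 * k + 1)) := by ring

/-- MODULE bin. Proof: the numbers `t j = C(3k,j) 2^{3k-j}` (`j = 0..3k`) have sum `3^{3k}` and the largest is `t k`
(ratio `t (j+1) / t j = (3k-j)/(2(j+1)) ≥ 1` iff `j ≤ k - 2/3`), so `3^{3k} ≤ (3k+1) C(3k,k) 4^k`. Or induction on `k`. -/
theorem bin (k : ℕ) : (27 / 4 : ℝ) ^ k ≤ (3 * (k : ℝ) + 1) * ((3 * k).choose k : ℝ) := by
  induction k with
  | zero => norm_num
  | succ k ih =>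
    have h := bin_rec k
    have h' : ((3 * (k + 1)).choose (k + 1) : ℝ) * (((k : ℝ) + 1) * (2 * k + 2) * (2 * k + 1)) =
        ((3 * k).choose k : ℝ) * ((3 * k + 3) * (3 * k + 2) * (3 * k + 1)) := by exact_mod_cast h
    generalize ((3 * (k + 1)).choose (k + 1) : ℝ) = A at h' ⊢
    have hB : (0 : ℝ) ≤ ((3 * k).choose k : ℝ) := by positivity
    generalize ((3 * k).choose k : ℝ) = B at h' ih hB
    have hk : (0 : ℝ) ≤ k := by positivity
    have hA : A = B * ((3 * k + 3) * (3 * k + 2) * (3 * k + 1)) / (((k : ℝ) + 1) * (2 * k + 2) * (2 * k + 1)) := by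
      rw [eq_div_iff (by positivity)]
      exact h'
    rw [pow_succ, hA]
    push_cast
    have h1 : (27 / 4 : ℝ) ^ k * (27 / 4) ≤ (3 * (k : ℝ) + 1) * B * (27 / 4) := by
      exact mul_le_mul_of_nonneg_right ih (by norm_num)
    refine h1.trans ?_
    have e5 : (3 * ((k : ℝ) + 1) + 1) *
        (B * ((3 * k + 3) * (3 * k + 2) * (3 * k + 1)) / (((k : ℝ) + 1) * (2 * k + 2) * (2 * k + 1))) =
        ((3 * ((k : ℝ) + 1) + 1) * (B * ((3 * k + 3) * (3 * k + 2) * (3 * k + 1)))) /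
          (((k : ℝ) + 1) * (2 * k + 2) * (2 * k + 1)) := by ring
    rw [e5, le_div_iff₀ (by positivity)]
    have h2 : (3 * (k : ℝ) + 1) * B * (27 / 4) * (((k : ℝ) + 1) * (2 * k + 2) * (2 * k + 1)) =
        (3 * (k : ℝ) + 1) * B * ((k : ℝ) + 1) * (27 / 4 * ((2 * k + 2) * (2 * k + 1))) := by ring
    have h3 : (3 * ((k : ℝ) + 1) + 1) * (B * ((3 * k + 3) * (3 * k + 2) * (3 * k + 1))) =
        (3 * (k : ℝ) + 1) * B * ((k : ℝ) + 1) * (3 * ((3 * k + 4) * (3 * k + 2))) := by ring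
    rw [h2, h3]
    refine mul_le_mul_of_nonneg_left ?_ (by positivity)
    nlinarith

private theorem signs_sum {ι : Type*} [DecidableEq ι] (U : Finset ι) (v : ι → ℝ) :
    ∀ c : ℝ, ∑ S ∈ U.powerset, (c + ∑ a ∈ U, (if a ∈ S then (1 : ℝ) else -1) * v a) ^ 2 =
      2 ^ U.card * (c ^ 2 + ∑ a ∈ U, v a ^ 2) := by
  induction U using Finset.induction_on with
  | empty =>
    intro c
    simp
  | insert a U ha ih =>
    intro c
    rw [Finset.sum_powerset_insert ha, Finset.card_insert_of_notMem ha, Finset.sum_insert ha]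
    have h1 : ∀ S ∈ U.powerset, (c + ∑ x ∈ insert a U, (if x ∈ S then (1 : ℝ) else -1) * v x) ^ 2 =
        ((c - v a) + ∑ x ∈ U, (if x ∈ S then (1 : ℝ) else -1) * v x) ^ 2 := by
      intro S hS
      have haS : a ∉ S := fun h => ha (Finset.mem_powerset.mp hS h)
      rw [Finset.sum_insert ha, if_neg haS]
      ring
    have h2 : ∀ S ∈ U.powerset, (c + ∑ x ∈ insert a U, (if x ∈ insert a S then (1 : ℝ) else -1) * v x) ^ 2 =
        ((c + v a) + ∑ x ∈ U, (if x ∈ S then (1 : ℝ) else -1) * v x) ^ 2 := by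
      intro S hS
      rw [Finset.sum_insert ha, if_pos (Finset.mem_insert_self a S)]
      have h3 : ∑ x ∈ U, (if x ∈ insert a S then (1 : ℝ) else -1) * v x =
          ∑ x ∈ U, (if x ∈ S then (1 : ℝ) else -1) * v x := by
        refine Finset.sum_congr rfl fun x hx => ?_
        have hxa : x ≠ a := fun h => ha (h ▸ hx)
        simp [Finset.mem_insert, hxa]
      rw [h3]
      ring
    rw [Finset.sum_congr rfl h1, Finset.sum_congr rfl h2, ih, ih, pow_succ]
    ring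

/-- MODULE signs (Markov over random signs). Proof: `∑_{S ⊆ U} (∑_{a ∈ U} ε_S(a) v a b)^2 = 2^{|U|} ∑_{a ∈ U} (v a b)^2` (orthogonality), so
the sum over `S` of `∑_b (...)^2` is `≤ 2^{|U|} |U| W`; if more than `2^{|U|}/(1+δ)` subsets had a value `> (1+δ) |U| W`
the sum would be too large (if `|U| W = 0` all values are 0). -/
theorem signs {ι B : Type*} [DecidableEq ι] [Fintype B] (U : Finset ι) (v : ι → B → ℝ) (W : ℝ)
    (hW : ∀ a ∈ U, ∑ b, v a b ^ 2 ≤ W) (δ : ℝ) (hδ : 0 < δ) :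
    δ / (1 + δ) * 2 ^ U.card ≤
      (((U.powerset.filter (fun S => ∑ b, (∑ a ∈ U, (if a ∈ S then (1 : ℝ) else -1) * v a b) ^ 2 ≤
        (1 + δ) * (U.card * W))).card : ℕ) : ℝ) := by
  set f : Finset ι → ℝ := fun S => ∑ b, (∑ a ∈ U, (if a ∈ S then (1 : ℝ) else -1) * v a b) ^ 2 with hf
  have hf0 : ∀ S, 0 ≤ f S := fun S => Finset.sum_nonneg fun b _ => sq_nonneg _
  have hsum : ∑ S ∈ U.powerset, f S = 2 ^ U.card * ∑ a ∈ U, ∑ b, v a b ^ 2 := by
    rw [hf]
    simp only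
    rw [Finset.sum_comm]
    have h1 : ∀ b, ∑ S ∈ U.powerset, (∑ a ∈ U, (if a ∈ S then (1 : ℝ) else -1) * v a b) ^ 2 =
        2 ^ U.card * ∑ a ∈ U, v a b ^ 2 := by
      intro b
      have h := signs_sum U (fun a => v a b) 0
      simpa using h
    rw [Finset.sum_congr rfl fun b _ => h1 b, ← Finset.mul_sum, Finset.sum_comm]
  have hTsum : ∑ a ∈ U, ∑ b, v a b ^ 2 ≤ (U.card : ℝ) * W := by
    have h := Finset.sum_le_card_nsmul U (fun a => ∑ b, v a b ^ 2) W hW
    rwa [nsmul_eq_mul] at h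
  have hT0 : 0 ≤ (U.card : ℝ) * W := le_trans (Finset.sum_nonneg fun a _ => Finset.sum_nonneg fun b _ => sq_nonneg _) hTsum
  set T : ℝ := (U.card : ℝ) * W with hT
  have hle : ∑ S ∈ U.powerset, f S ≤ 2 ^ U.card * T := by
    rw [hsum]
    exact mul_le_mul_of_nonneg_left hTsum (by positivity)
  have hcard : (((U.powerset.filter (fun S => f S ≤ (1 + δ) * T)).card : ℕ) : ℝ) +
      (((U.powerset.filter (fun S => ¬ f S ≤ (1 + δ) * T)).card : ℕ) : ℝ) = 2 ^ U.card := by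
    have h := Finset.card_filter_add_card_filter_not (s := U.powerset) (fun S => f S ≤ (1 + δ) * T)
    rw [Finset.card_powerset] at h
    exact_mod_cast h
  rcases hT0.lt_or_eq with hTp | hTz
  · have h1 : (((U.powerset.filter (fun S => ¬ f S ≤ (1 + δ) * T)).card : ℕ) : ℝ) * ((1 + δ) * T) ≤ 2 ^ U.card * T := by
      have h2 := Finset.card_nsmul_le_sum (U.powerset.filter (fun S => ¬ f S ≤ (1 + δ) * T)) f ((1 + δ) * T)
        (fun S hS => (not_le.mp (Finset.mem_filter.mp hS).2).le)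
      rw [nsmul_eq_mul] at h2
      refine h2.trans (le_trans ?_ hle)
      exact Finset.sum_le_sum_of_subset_of_nonneg (Finset.filter_subset _ _) fun S _ _ => hf0 S
    have h3 : (((U.powerset.filter (fun S => ¬ f S ≤ (1 + δ) * T)).card : ℕ) : ℝ) * (1 + δ) ≤ 2 ^ U.card := by
      have h4 : (((U.powerset.filter (fun S => ¬ f S ≤ (1 + δ) * T)).card : ℕ) : ℝ) * (1 + δ) * T ≤ 2 ^ U.card * T := by
        rw [mul_assoc]
        exact h1
      exact le_of_mul_le_mul_right h4 hTp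
    rw [div_mul_eq_mul_div, div_le_iff₀ (by linarith)]
    generalize (((U.powerset.filter (fun S => ¬ f S ≤ (1 + δ) * T)).card : ℕ) : ℝ) = N at h3 hcard
    generalize (((U.powerset.filter (fun S => f S ≤ (1 + δ) * T)).card : ℕ) : ℝ) = M at hcard ⊢
    nlinarith
  · have hall : U.powerset.filter (fun S => f S ≤ (1 + δ) * T) = U.powerset := by
      refine Finset.filter_true_of_mem fun S hS => ?_
      have h5 : f S ≤ ∑ S ∈ U.powerset, f S := Finset.single_le_sum (fun S _ => hf0 S) hS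
      have h6 : f S ≤ 0 := by
        refine h5.trans (hle.trans ?_)
        rw [← hTz, mul_zero]
      rw [← hTz, mul_zero]
      exact h6
    rw [hall, Finset.card_powerset]
    push_cast
    have h7 : δ / (1 + δ) ≤ 1 := by
      rw [div_le_one (by linarith)]
      linarith
    have h8 : (0 : ℝ) ≤ 2 ^ U.card := by positivity
    nlinarith

end Aks1
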