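import Pool.Agent.Aks1.Defs

set_option autoImplicit false

/-! # Module Gini: two of M vectors are close in the ℓ¹ norm -/

namespace Aks1

private theorem gini1_sum (c : ℝ) (N : ℕ) :
    ∑ i ∈ Finset.range N, (2 * (i : ℝ) + 1 - c) ^ 2 =
      (N : ℝ) * (4 * (N : ℝ) ^ 2 - 1) / 3 - 2 * c * (N : ℝ) ^ 2 + c ^ 2 * N := by
  induction N with
  | zero => simp
  | succ n ih =>
    rw [Finset.sum_range_succ, ih]
    push_cast
    ring

private theorem gini1_sign {M : ℕ} (i : Fin M) :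
    ∑ j : Fin M, ((if j < i then (1 : ℝ) else 0) - if i < j then 1 else 0) = 2 * (i : ℝ) + 1 - M := by
  rw [Finset.sum_sub_distrib, Finset.sum_boole, Finset.sum_boole]
  have h1 : (Finset.univ.filter fun j : Fin M => j < i) = Finset.Iio i := by
    ext j
    simp
  have h2 : (Finset.univ.filter fun j : Fin M => i < j) = Finset.Ioi i := by
    ext j
    simp
  rw [h1, h2, Fin.card_Iio, Fin.card_Ioi]
  have h3 := i.2
  have h4 : ((M - 1 - (i : ℕ) : ℕ) : ℝ) = (M : ℝ) - 1 - (i : ℝ) := by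
    rw [Nat.cast_sub (by omega), Nat.cast_sub (by omega)]
    simp
  rw [h4]
  ring

private theorem gini1_mono {M : ℕ} (z : Fin M → ℝ) (hz : Monotone z) :
    ∑ i, ∑ j, |z i - z j| = 2 * ∑ i : Fin M, (2 * (i : ℝ) + 1 - M) * z i := by
  have h1 : ∀ i j : Fin M, |z i - z j| =
      ((if j < i then (1 : ℝ) else 0) - if i < j then 1 else 0) * z i +
        ((if i < j then (1 : ℝ) else 0) - if j < i then 1 else 0) * z j := by
    intro i j
    rcases lt_trichotomy i j with h | h | h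
    · have h2 := hz h.le
      rw [if_neg (not_lt.mpr h.le), if_pos h, abs_of_nonpos (by linarith)]
      ring
    · subst h
      simp
    · have h2 := hz h.le
      rw [if_pos h, if_neg (not_lt.mpr h.le), abs_of_nonneg (by linarith)]
      ring
  have h2 : ∑ i, ∑ j, |z i - z j| =
      (∑ i, ∑ j, ((if j < i then (1 : ℝ) else 0) - if i < j then 1 else 0) * z i) +
        ∑ i, ∑ j, ((if i < j then (1 : ℝ) else 0) - if j < i then 1 else 0) * z j := by
    rw [← Finset.sum_add_distrib]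
    refine Finset.sum_congr rfl fun i _ => ?_
    rw [← Finset.sum_add_distrib]
    exact Finset.sum_congr rfl fun j _ => h1 i j
  rw [h2, Finset.sum_comm (f := fun i j : Fin M => ((if i < j then (1 : ℝ) else 0) - if j < i then 1 else 0) * z j),
    ← two_mul]
  congr 1
  refine Finset.sum_congr rfl fun i _ => ?_
  rw [← Finset.sum_mul, gini1_sign]

/-- MODULE gini1. Gini's mean difference. Proof: sort `y` (`Tuple.sort`); for monotone `y : Fin M → ℝ` one has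
`∑ i, ∑ j, |y i - y j| = 2 ∑ i, (2 i + 1 - M) y i` (`i = 0..M-1`), Cauchy-Schwarz and `∑ i, (2 i + 1 - M)^2 = M (M^2 - 1) / 3`. -/
theorem gini {M : ℕ} (y : Fin M → ℝ) :
    ∑ i, ∑ j, |y i - y j| ≤ 2 * (√((M : ℝ) * ((M : ℝ) ^ 2 - 1) / 3) * √(∑ i, y i ^ 2)) := by
  have h1 : ∑ i, ∑ j, |y i - y j| = ∑ i, ∑ j, |(y ∘ Tuple.sort y) i - (y ∘ Tuple.sort y) j| := by
    rw [← Equiv.sum_comp (Tuple.sort y)]
    refine Finset.sum_congr rfl fun i _ => ?_
    rw [← Equiv.sum_comp (Tuple.sort y)]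
    rfl
  have h2 : ∑ i, y i ^ 2 = ∑ i, (y ∘ Tuple.sort y) i ^ 2 := by
    rw [← Equiv.sum_comp (Tuple.sort y)]
    rfl
  rw [h1, h2, gini1_mono _ (Tuple.monotone_sort y)]
  have h3 := Real.sum_mul_le_sqrt_mul_sqrt Finset.univ (fun i : Fin M => 2 * (i : ℝ) + 1 - M) (y ∘ Tuple.sort y)
  have h4 : ∑ i : Fin M, (2 * (i : ℝ) + 1 - M) ^ 2 = (M : ℝ) * ((M : ℝ) ^ 2 - 1) / 3 := by
    rw [Fin.sum_univ_eq_sum_range (fun i : ℕ => (2 * (i : ℝ) + 1 - M) ^ 2) M, gini1_sum]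
    ring
  rw [h4] at h3
  linarith

/-- MODULE gini2. Proof: choose `M` different elements `z_i` of `Z`. `∑_{i,j} ∑_b |x (z_i) b - x (z_j) b| ≤
2 √(M(M²-1)/3) ∑_b √(∑_i x (z_i) b ^2) ≤ 2 √(M(M²-1)/3) √(|B| M Q)` (`gini`, Cauchy-Schwarz); there are `M(M-1)` ordered pairs `i ≠ j`,
and `2 √(M(M²-1)/3) √(|B| M Q) / (M(M-1)) = 2 √((M+1)/(3(M-1))) √(|B| Q)`. -/
theorem close_pair {κ B : Type*} [Fintype B] (Z : Finset κ) (M : ℕ) (hM : 2 ≤ M) (hZ : M ≤ Z.card)
    (x : κ → B → ℝ) (Q : ℝ) (hQ : ∀ z ∈ Z, ∑ b, x z b ^ 2 ≤ Q) :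
    ∃ z ∈ Z, ∃ z' ∈ Z, z ≠ z' ∧
      ∑ b, |x z b - x z' b| ≤ 2 * (√(((M : ℝ) + 1) / (3 * ((M : ℝ) - 1))) * √((Fintype.card B : ℝ) * Q)) := by
  obtain ⟨Z', hZ', hc⟩ := Finset.exists_subset_card_eq hZ
  obtain ⟨e⟩ : Nonempty (Fin M ≃ Z') := ⟨(Z'.equivFinOfCardEq hc).symm⟩
  by_contra hcon
  push Not at hcon
  have hMr : (2 : ℝ) ≤ M := by exact_mod_cast hM
  set c : ℝ := 2 * (√(((M : ℝ) + 1) / (3 * ((M : ℝ) - 1))) * √((Fintype.card B : ℝ) * Q)) with hcdef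
  have hlow : ∀ i j : Fin M, i ≠ j → c < ∑ b, |x (e i) b - x (e j) b| := by
    intro i j hij
    exact hcon _ (hZ' (e i).2) _ (hZ' (e j).2) fun h => hij (e.injective (Subtype.ext h))
  -- lower bound
  have hsum : (M : ℝ) * ((M : ℝ) - 1) * c < ∑ i : Fin M, ∑ j : Fin M, ∑ b, |x (e i) b - x (e j) b| := by
    have h1 : ∀ i : Fin M, ((M : ℝ) - 1) * c < ∑ j : Fin M, ∑ b, |x (e i) b - x (e j) b| := by
      intro i
      have h2 : ∑ j : Fin M, ∑ b, |x (e i) b - x (e j) b| =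
          ∑ j ∈ Finset.univ.erase i, ∑ b, |x (e i) b - x (e j) b| := by
        rw [← Finset.add_sum_erase _ _ (Finset.mem_univ i)]
        simp
      rw [h2]
      have h3 : ((M : ℝ) - 1) * c = ∑ j ∈ (Finset.univ.erase i : Finset (Fin M)), c := by
        rw [Finset.sum_const, Finset.card_erase_of_mem (Finset.mem_univ i), Finset.card_univ, Fintype.card_fin,
          nsmul_eq_mul, Nat.cast_sub (by omega), Nat.cast_one]
      rw [h3]
      refine Finset.sum_lt_sum_of_nonempty ?_ fun j hj => hlow i j (Finset.ne_of_mem_erase hj).symm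
      rw [← Finset.card_pos, Finset.card_erase_of_mem (Finset.mem_univ i), Finset.card_univ, Fintype.card_fin]
      omega
    have h4 : (M : ℝ) * ((M : ℝ) - 1) * c = ∑ _i : Fin M, ((M : ℝ) - 1) * c := by
      rw [Finset.sum_const, Finset.card_univ, Fintype.card_fin, nsmul_eq_mul]
      ring
    rw [h4]
    haveI : Nonempty (Fin M) := ⟨⟨0, by omega⟩⟩
    exact Finset.sum_lt_sum_of_nonempty Finset.univ_nonempty fun i _ => h1 i
  -- upper bound
  have hup : ∑ i : Fin M, ∑ j : Fin M, ∑ b, |x (e i) b - x (e j) b| ≤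
      2 * (√((M : ℝ) * ((M : ℝ) ^ 2 - 1) / 3) * √((Fintype.card B : ℝ) * ((M : ℝ) * Q))) := by
    have h1 : ∑ i : Fin M, ∑ j : Fin M, ∑ b, |x (e i) b - x (e j) b| =
        ∑ b, ∑ i : Fin M, ∑ j : Fin M, |x (e i) b - x (e j) b| := by
      rw [Finset.sum_comm' (t' := Finset.univ) (s' := fun _ => Finset.univ) (by simp)]
      rw [Finset.sum_congr rfl fun j _ => Finset.sum_comm, Finset.sum_comm]
      exact Finset.sum_congr rfl fun b _ => Finset.sum_comm
    rw [h1]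
    have h2 : ∀ b, ∑ i : Fin M, ∑ j : Fin M, |x (e i) b - x (e j) b| ≤
        2 * (√((M : ℝ) * ((M : ℝ) ^ 2 - 1) / 3) * √(∑ i : Fin M, x (e i) b ^ 2)) :=
      fun b => gini fun i => x (e i) b
    refine (Finset.sum_le_sum fun b _ => h2 b).trans ?_
    rw [← Finset.mul_sum, ← Finset.mul_sum]
    refine mul_le_mul_of_nonneg_left ?_ (by norm_num)
    refine mul_le_mul_of_nonneg_left ?_ (Real.sqrt_nonneg _)
    refine Real.le_sqrt_of_sq_le ?_
    have h3 := Finset.sum_mul_sq_le_sq_mul_sq (Finset.univ : Finset B) (fun _ => (1 : ℝ))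
      (fun b => √(∑ i : Fin M, x (e i) b ^ 2))
    have h4 : ∑ b, (1 : ℝ) * √(∑ i : Fin M, x (e i) b ^ 2) = ∑ b, √(∑ i : Fin M, x (e i) b ^ 2) :=
      Finset.sum_congr rfl fun b _ => one_mul _
    rw [h4] at h3
    refine h3.trans ?_
    have h5 : ∑ b : B, (1 : ℝ) ^ 2 = (Fintype.card B : ℝ) := by simp
    rw [h5]
    refine mul_le_mul_of_nonneg_left ?_ (by positivity)
    have h6 : ∀ b : B, √(∑ i : Fin M, x (e i) b ^ 2) ^ 2 = ∑ i : Fin M, x (e i) b ^ 2 :=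
      fun b => Real.sq_sqrt (Finset.sum_nonneg fun i _ => sq_nonneg _)
    rw [Finset.sum_congr rfl fun b _ => h6 b, Finset.sum_comm]
    have h7 : ∑ i : Fin M, ∑ b, x (e i) b ^ 2 ≤ ∑ _i : Fin M, Q :=
      Finset.sum_le_sum fun i _ => hQ _ (hZ' (e i).2)
    rw [Finset.sum_const, Finset.card_univ, Fintype.card_fin, nsmul_eq_mul] at h7
    exact h7
  have hkey : (M : ℝ) * ((M : ℝ) - 1) * c =
      2 * (√((M : ℝ) * ((M : ℝ) ^ 2 - 1) / 3) * √((Fintype.card B : ℝ) * ((M : ℝ) * Q))) := by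
    have hM1 : (0 : ℝ) < (M : ℝ) - 1 := by linarith
    have e1 : √((M : ℝ) * ((M : ℝ) ^ 2 - 1) / 3) * √(M : ℝ) =
        (M : ℝ) * ((M : ℝ) - 1) * √(((M : ℝ) + 1) / (3 * ((M : ℝ) - 1))) := by
      rw [← Real.sqrt_mul (by
        apply div_nonneg _ (by norm_num)
        apply mul_nonneg (by linarith)
        nlinarith)]
      have e2 : (M : ℝ) * ((M : ℝ) ^ 2 - 1) / 3 * M =
          ((M : ℝ) * ((M : ℝ) - 1)) ^ 2 * (((M : ℝ) + 1) / (3 * ((M : ℝ) - 1))) := by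
        field_simp
        ring
      rw [e2, Real.sqrt_mul (sq_nonneg _), Real.sqrt_sq (mul_nonneg (by linarith) hM1.le)]
    have e3 : √((Fintype.card B : ℝ) * ((M : ℝ) * Q)) = √(M : ℝ) * √((Fintype.card B : ℝ) * Q) := by
      rw [← Real.sqrt_mul (by linarith)]
      congr 1
      ring
    rw [hcdef, e3, ← mul_assoc (√((M : ℝ) * ((M : ℝ) ^ 2 - 1) / 3)), e1]
    ring
  linarith

end Aks1
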