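import Pool.Agent.Aks1.Hgt
import Pool.Agent.Aks1.Gini
import Pool.Agent.Aks1.Cnt

set_option autoImplicit false

/-! # Module Core: pigeonhole, close pair, height -/

namespace Aks1

/-- The exponent pattern of a pair `(U, S)`: `2` on `U ∩ S`, `0` on `U \ S`, `1` outside `U`. -/
def pat {D : ℕ} (q : Finset (Fin D) × Finset (Fin D)) (a : Fin D) : ℕ :=
  if a ∈ q.1 then (if a ∈ q.2 then 2 else 0) else 1

theorem pat_inj {D : ℕ} (q q' : Finset (Fin D) × Finset (Fin D)) (hq : q.2 ⊆ q.1) (hq' : q'.2 ⊆ q'.1)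
    (h : pat q = pat q') : q = q' := by
  have h1 : ∀ a, (a ∈ q.1 ↔ a ∈ q'.1) ∧ (a ∈ q.2 ↔ a ∈ q'.2) := by
    intro a
    have := congrFun h a
    unfold pat at this
    have e1 := @hq a
    have e2 := @hq' a
    by_cases h1 : a ∈ q.1 <;> by_cases h2 : a ∈ q.2 <;> by_cases h3 : a ∈ q'.1 <;> by_cases h4 : a ∈ q'.2 <;>
      simp_all
  refine Prod.ext ?_ ?_
  · ext a; exact (h1 a).1
  · ext a; exact (h1 a).2

theorem pat_le {D : ℕ} (q : Finset (Fin D) × Finset (Fin D)) (a : Fin D) : pat q a ≤ 2 := by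
  unfold pat; split_ifs <;> omega

theorem sum_pat_le {D : ℕ} (q : Finset (Fin D) × Finset (Fin D)) :
    (∑ a, (pat q a : ℝ)) ≤ (D : ℝ) + q.1.card := by
  have : ∀ a, (pat q a : ℝ) ≤ 1 + (if a ∈ q.1 then (1 : ℝ) else 0) := by
    intro a
    unfold pat
    split_ifs <;> norm_num
  calc (∑ a, (pat q a : ℝ)) ≤ ∑ a : Fin D, (1 + (if a ∈ q.1 then (1 : ℝ) else 0)) := Finset.sum_le_sum fun a _ => this a
    _ = (D : ℝ) + q.1.card := by
      rw [Finset.sum_add_distrib]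
      simp

/-- signed sum -/
noncomputable def xx {D : ℕ} {B : Type*} (v : Fin D → B → ℝ) (q : Finset (Fin D) × Finset (Fin D)) (b : B) : ℝ :=
  ∑ a ∈ q.1, (if a ∈ q.2 then (1 : ℝ) else -1) * v a b

theorem sum_pat_mul {D : ℕ} {B : Type*} (v : Fin D → B → ℝ) (q : Finset (Fin D) × Finset (Fin D)) (b : B) :
    ∑ a, (pat q a : ℝ) * v a b = (∑ a, v a b) + xx v q b := by
  have : ∀ a, (pat q a : ℝ) * v a b = v a b + (if a ∈ q.1 then (if a ∈ q.2 then (1 : ℝ) else -1) * v a b else 0) := by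
    intro a
    unfold pat
    split_ifs <;> norm_num
    ring
  rw [Finset.sum_congr rfl fun a _ => this a, Finset.sum_add_distrib]
  congr 1
  unfold xx
  rw [Finset.sum_ite_mem]
  simp

theorem core_aux (p r k M G D : ℕ) (hD : D = 3 * k) [Fact p.Prime] [Fact r.Prime] (hpr : p ≠ r) (hM : 2 ≤ M)
    (h : Fin D → (ZMod r)ˣ) (hh : ∀ a b, a ≠ b → h a ≠ h b ∧ h a ≠ -h b)
    (e : Fin D → ℕ) (he : ∀ a, e a ≤ G)
    (hE : ∀ a, ∀ w : AlgebraicClosure (ZMod p), w ^ r = 1 → w ≠ 1 →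
      (w - 1) ^ e a = w ^ (h a : ZMod r).val - 1)
    (δ : ℝ) (hδ : 0 < δ)
    (hcount : ((M : ℝ) - 1) * (6 * k * G + 1) < δ / (1 + δ) * (((3 * k).choose k : ℝ) * 2 ^ k)) :
    ((r : ℝ) - 1) * Real.log p ≤ ((r : ℝ) - 1) * Real.log 2 + 4 * k * Real.log r +
      √(((M : ℝ) + 1) / (3 * ((M : ℝ) - 1))) *
        √(((r : ℝ) - 1) * ((1 + δ) * (k * ∑ b : (ZMod r)ˣ, ell r (b : ZMod r) ^ 2))) := by
  classical
  set W := ∑ b : (ZMod r)ˣ, ell r (b : ZMod r) ^ 2 with hW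
  set v : Fin D → (ZMod r)ˣ → ℝ := fun a b => ell r ((h a * b : (ZMod r)ˣ) : ZMod r) with hv
  have hvW : ∀ a, ∑ b, v a b ^ 2 = W := by
    intro a
    rw [hW, hv]
    exact Fintype.sum_equiv (Equiv.mulLeft (h a)) _ _ fun b => rfl
  -- the good patterns
  set Good : Finset (Finset (Fin D) × Finset (Fin D)) :=
    ((Finset.powersetCard k (Finset.univ : Finset (Fin D))).sigma (fun U => U.powerset.filter (fun S =>
      ∑ b, (∑ a ∈ U, (if a ∈ S then (1 : ℝ) else -1) * v a b) ^ 2 ≤ (1 + δ) * (U.card * W)))).image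
      (fun s => (s.1, s.2)) with hGood
  have hmem : ∀ q ∈ Good, q.1.card = k ∧ q.2 ⊆ q.1 ∧ ∑ b, xx v q b ^ 2 ≤ (1 + δ) * (k * W) := by
    intro q hq
    rw [hGood, Finset.mem_image] at hq
    obtain ⟨⟨U, S⟩, hs, rfl⟩ := hq
    rw [Finset.mem_sigma, Finset.mem_powersetCard, Finset.mem_filter, Finset.mem_powerset] at hs
    obtain ⟨⟨-, hU⟩, hS, hb⟩ := hs
    refine ⟨hU, hS, ?_⟩
    rw [hU] at hb
    exact hb
  have hcard : δ / (1 + δ) * (((3 * k).choose k : ℝ) * 2 ^ k) ≤ (Good.card : ℝ) := by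
    rw [hGood, Finset.card_image_of_injective, Finset.card_sigma, Nat.cast_sum]
    · have : ∀ U ∈ Finset.powersetCard k (Finset.univ : Finset (Fin D)), δ / (1 + δ) * 2 ^ k ≤
          (((U.powerset.filter (fun S => ∑ b, (∑ a ∈ U, (if a ∈ S then (1 : ℝ) else -1) * v a b) ^ 2 ≤
            (1 + δ) * (U.card * W))).card : ℕ) : ℝ) := by
        intro U hU
        rw [Finset.mem_powersetCard] at hU
        have := signs U v W (fun a _ => (hvW a).le) δ hδ
        rwa [hU.2] at this ⊢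
      calc δ / (1 + δ) * (((3 * k).choose k : ℝ) * 2 ^ k)
          = ∑ U ∈ Finset.powersetCard k (Finset.univ : Finset (Fin D)), δ / (1 + δ) * 2 ^ k := by
            rw [Finset.sum_const, Finset.card_powersetCard, Finset.card_univ, Fintype.card_fin, nsmul_eq_mul, hD]
            ring
        _ ≤ _ := Finset.sum_le_sum this
    · rintro ⟨a, b⟩ ⟨c, d⟩ hab
      simpa using hab
  -- the exponent of a pattern
  set En : Finset (Fin D) × Finset (Fin D) → ℕ := fun q => ∑ a, pat q a * e a with hEn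
  have hEn_le : ∀ q, En q ∈ Finset.range (6 * k * G + 1) := by
    intro q
    rw [Finset.mem_range, hEn]
    have : ∑ a, pat q a * e a ≤ ∑ _a : Fin D, 2 * G :=
      Finset.sum_le_sum fun a _ => Nat.mul_le_mul (pat_le q a) (he a)
    rw [Finset.sum_const, Finset.card_univ, Fintype.card_fin, smul_eq_mul] at this
    have h6 : D * (2 * G) = 6 * k * G := by rw [hD]; ring
    show ∑ a, pat q a * e a < 6 * k * G + 1
    omega
  obtain ⟨y, -, hy⟩ : ∃ y ∈ Finset.range (6 * k * G + 1), M - 1 < (Good.filter (fun q => En q = y)).card := by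
    refine Finset.exists_lt_card_fiber_of_mul_lt_card_of_maps_to (fun q _ => hEn_le q) ?_
    rw [Finset.card_range]
    have h1 : (((6 * k * G + 1) * (M - 1) : ℕ) : ℝ) < (Good.card : ℝ) := by
      refine lt_of_eq_of_lt ?_ (lt_of_lt_of_le hcount hcard)
      push_cast [Nat.cast_sub (show 1 ≤ M by omega)]
      ring
    exact_mod_cast h1
  set Z := Good.filter (fun q => En q = y) with hZ
  have hZM : M ≤ Z.card := by omega
  obtain ⟨q, hq, q', hq', hne, hsum⟩ := close_pair Z M hM hZM (fun q => xx v q) ((1 + δ) * (k * W))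
    (fun q hq => (hmem q (Finset.mem_filter.1 hq).1).2.2)
  rw [hZ, Finset.mem_filter] at hq hq'
  obtain ⟨hqG, hqy⟩ := hq
  obtain ⟨hqG', hqy'⟩ := hq'
  obtain ⟨hc, hs, -⟩ := hmem q hqG
  obtain ⟨hc', hs', -⟩ := hmem q' hqG'
  have hpat : pat q ≠ pat q' := fun h => hne (pat_inj q q' hs hs' h)
  have hwprod : ∀ q : Finset (Fin D) × Finset (Fin D), ∀ w : AlgebraicClosure (ZMod p), w ^ r = 1 → w ≠ 1 →
      ∏ a, (w ^ (h a : ZMod r).val - 1) ^ pat q a = (w - 1) ^ En q := by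
    intro q w hw hw1
    rw [hEn]
    simp only
    rw [← Finset.prod_pow_eq_pow_sum]
    refine Finset.prod_congr rfl fun a _ => ?_
    rw [← hE a w hw hw1, ← pow_mul, mul_comm (e a)]
  have hheight := height p r D hpr h hh (pat q) (pat q') hpat (fun w hw hw1 => by
    rw [hwprod q w hw hw1, hwprod q' w hw hw1, hqy, hqy'])
  -- rewrite the last sum
  have hlast : ∑ b : (ZMod r)ˣ, |∑ a, (pat q a : ℝ) * ell r ((h a * b : (ZMod r)ˣ) : ZMod r) -
        ∑ a, (pat q' a : ℝ) * ell r ((h a * b : (ZMod r)ˣ) : ZMod r)| = ∑ b, |xx v q b - xx v q' b| := by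
    refine Finset.sum_congr rfl fun b _ => ?_
    have e1 := sum_pat_mul v q b
    have e2 := sum_pat_mul v q' b
    simp only [hv] at e1 e2 ⊢
    rw [e1, e2]
    congr 1
    ring
  rw [hlast] at hheight
  have hr2 : (1 : ℝ) ≤ r := by exact_mod_cast (Fact.out : r.Prime).one_lt.le
  have hlogr : 0 ≤ Real.log r := Real.log_nonneg hr2
  have hsq : (Fintype.card (ZMod r)ˣ : ℝ) = (r : ℝ) - 1 := by
    rw [ZMod.card_units_eq_totient, Nat.totient_prime Fact.out, Nat.cast_sub (Fact.out : r.Prime).one_lt.le]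
    simp
  rw [hsq] at hsum
  have hs1 := sum_pat_le q
  have hs2 := sum_pat_le q'
  rw [hc] at hs1
  rw [hc'] at hs2
  have hD3 : (D : ℝ) = 3 * k := by rw [hD]; push_cast; ring
  rw [hD3] at hs1 hs2
  have h4 : ((∑ a, (pat q a : ℝ)) + ∑ a, (pat q' a : ℝ)) / 2 * Real.log r ≤ 4 * k * Real.log r := by
    refine mul_le_mul_of_nonneg_right ?_ hlogr
    linarith
  linarith
theorem core (p r k M G : ℕ) [Fact p.Prime] [Fact r.Prime] (hpr : p ≠ r) (hM : 2 ≤ M)
    (h : Fin (3 * k) → (ZMod r)ˣ) (hh : ∀ a b, a ≠ b → h a ≠ h b ∧ h a ≠ -h b)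
    (e : Fin (3 * k) → ℕ) (he : ∀ a, e a ≤ G)
    (hE : ∀ a, ∀ w : AlgebraicClosure (ZMod p), w ^ r = 1 → w ≠ 1 →
      (w - 1) ^ e a = w ^ (h a : ZMod r).val - 1)
    (δ : ℝ) (hδ : 0 < δ)
    (hcount : ((M : ℝ) - 1) * (6 * k * G + 1) < δ / (1 + δ) * (((3 * k).choose k : ℝ) * 2 ^ k)) :
    ((r : ℝ) - 1) * Real.log p ≤ ((r : ℝ) - 1) * Real.log 2 + 4 * k * Real.log r +
      √(((M : ℝ) + 1) / (3 * ((M : ℝ) - 1))) *
        √(((r : ℝ) - 1) * ((1 + δ) * (k * ∑ b : (ZMod r)ˣ, ell r (b : ZMod r) ^ 2))) :=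
  core_aux p r k M G (3 * k) rfl hpr hM h hh e he hE δ hδ hcount

end Aks1
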