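import Pool.Agent.Aks1.Defs

set_option autoImplicit false

/-! # Module Cz: the value of the even exponential zeta function at 1 -/

namespace Aks1

open Complex

private theorem cz_norm (a : ℝ) : ‖exp (2 * Real.pi * I * a)‖ = 1 := by
  have h : (2 * Real.pi * I * a : ℂ) = ((2 * Real.pi * a : ℝ) : ℂ) * I := by
    push_cast
    ring
  rw [h, Complex.norm_exp_ofReal_mul_I]

private theorem cz_ne_one (a : ℝ) (ha : (a : UnitAddCircle) ≠ 0) : exp (2 * Real.pi * I * a) ≠ 1 := by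
  intro h
  rw [Complex.exp_eq_one_iff] at h
  obtain ⟨n, hn⟩ := h
  apply ha
  have h2 : (2 * Real.pi * I : ℂ) ≠ 0 := Complex.two_pi_I_ne_zero
  have h3 : (a : ℂ) = (n : ℂ) := by
    have h4 : (2 * Real.pi * I : ℂ) * a = (2 * Real.pi * I : ℂ) * n := by
      rw [hn]
      ring
    exact mul_left_cancel₀ h2 h4
  have h5 : a = (n : ℝ) := by exact_mod_cast h3
  rw [AddCircle.coe_eq_zero_iff]
  exact ⟨n, by rw [h5]; simp⟩

private theorem cz_re_lt {z : ℂ} (hz : ‖z‖ = 1) (h1 : z ≠ 1) : z.re < 1 := by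
  have h2 : z.re ≤ 1 := hz ▸ Complex.re_le_norm z
  rcases lt_or_eq_of_le h2 with h | h
  · exact h
  · exfalso
    apply h1
    have h3 : z.re * z.re + z.im * z.im = 1 := by
      have h4 := Complex.normSq_eq_norm_sq z
      rw [hz, Complex.normSq_apply] at h4
      linarith
    rw [h] at h3
    have h5 : z.im = 0 := by
      have : z.im * z.im = 0 := by linarith
      exact mul_self_eq_zero.mp this
    apply Complex.ext
    · simpa using h
    · simpa using h5

private theorem cz_bound {z : ℂ} (hz : ‖z‖ = 1) (h1 : z ≠ 1) :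
    ∃ c : ℝ, 0 < c ∧ ∀ t : ℝ, 0 ≤ t → c ≤ (1 - z * Real.exp (-t)).re := by
  refine ⟨1 - max z.re 0, ?_, ?_⟩
  · have h := cz_re_lt hz h1
    have : max z.re 0 < 1 := max_lt h one_pos
    linarith
  · intro t ht
    have h2 : Real.exp (-t) ≤ 1 := Real.exp_le_one_iff.mpr (by linarith)
    have h3 : 0 < Real.exp (-t) := Real.exp_pos _
    have h4 : (1 - z * Real.exp (-t)).re = 1 - z.re * Real.exp (-t) := by
      rw [Complex.sub_re, Complex.one_re, Complex.re_mul_ofReal]
    rw [h4]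
    have h5 : z.re * Real.exp (-t) ≤ max z.re 0 * Real.exp (-t) :=
      mul_le_mul_of_nonneg_right (le_max_left _ _) h3.le
    have h6 : max z.re 0 * Real.exp (-t) ≤ max z.re 0 * 1 :=
      mul_le_mul_of_nonneg_left h2 (le_max_right _ _)
    linarith

/-- The function `z e^{-t} / (1 - z e^{-t})`. -/
private noncomputable def czF (z : ℂ) (t : ℝ) : ℂ := (z * Real.exp (-t)) / (1 - z * Real.exp (-t))

private theorem czF_norm {z : ℂ} (hz : ‖z‖ = 1) {c : ℝ} (hc : 0 < c)
    (h : ∀ t : ℝ, 0 ≤ t → c ≤ (1 - z * Real.exp (-t)).re) {t : ℝ} (ht : 0 ≤ t) :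
    ‖czF z t‖ ≤ c⁻¹ * Real.exp (-t) := by
  rw [czF, norm_div, norm_mul, hz, one_mul, Complex.norm_real, Real.norm_eq_abs, abs_of_pos (Real.exp_pos _),
    div_eq_mul_inv, mul_comm]
  apply mul_le_mul_of_nonneg_right _ (Real.exp_pos _).le
  apply inv_anti₀ hc
  exact (h t ht).trans (Complex.re_le_norm _)

private theorem cz_deriv0 (z : ℂ) (t : ℝ) :
    HasDerivAt (fun t : ℝ => (1 : ℂ) - z * Real.exp (-t)) (z * Real.exp (-t)) t := by
  have h1 : HasDerivAt (fun t : ℝ => Real.exp (-t)) (Real.exp (-t) * (-1)) t :=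
    (Real.hasDerivAt_exp (-t)).comp t (hasDerivAt_neg t)
  have h2 := ((h1.ofReal_comp).const_mul z).const_sub 1
  have h3 : -(z * ((Real.exp (-t) * (-1) : ℝ) : ℂ)) = z * Real.exp (-t) := by
    push_cast
    ring
  rw [h3] at h2
  exact h2

private theorem czF_cont {z : ℂ} {c : ℝ} (hc : 0 < c)
    (h : ∀ t : ℝ, 0 ≤ t → c ≤ (1 - z * Real.exp (-t)).re) : ContinuousOn (czF z) (Set.Ici 0) := by
  intro t ht
  have h1 : ContinuousAt (fun t : ℝ => (1 : ℂ) - z * Real.exp (-t)) t := (cz_deriv0 z t).continuousAt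
  have h2 : ContinuousAt (fun t : ℝ => z * Real.exp (-t)) t := by
    have h3 := (continuousAt_const (y := (1 : ℂ))).sub h1
    have h4 : (fun t : ℝ => (1 : ℂ) - ((1 : ℂ) - z * Real.exp (-t))) = fun t : ℝ => z * Real.exp (-t) := by
      funext s
      ring
    exact h4 ▸ h3
  have h5 : (1 : ℂ) - z * Real.exp (-t) ≠ 0 := by
    intro h6
    have h7 := h t ht
    rw [h6] at h7
    simp at h7
    linarith
  exact (h2.div h1 h5).continuousWithinAt

private theorem czF_int {z : ℂ} (hz : ‖z‖ = 1) {c : ℝ} (hc : 0 < c)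
    (h : ∀ t : ℝ, 0 ≤ t → c ≤ (1 - z * Real.exp (-t)).re) :
    MeasureTheory.IntegrableOn (czF z) (Set.Ioi 0) := by
  refine MeasureTheory.Integrable.mono' (g := fun t => c⁻¹ * Real.exp (-t)) ?_ ?_ ?_
  · exact (integrableOn_exp_neg_Ioi 0).const_mul c⁻¹
  · exact ((czF_cont hc h).mono Set.Ioi_subset_Ici_self).aestronglyMeasurable measurableSet_Ioi
  · refine (MeasureTheory.ae_restrict_iff' measurableSet_Ioi).mpr (Filter.Eventually.of_forall ?_)
    intro t ht
    exact czF_norm hz hc h (le_of_lt ht)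

private theorem czF_integral {z : ℂ} (hz : ‖z‖ = 1) (h1 : z ≠ 1) :
    ∫ t in Set.Ioi (0 : ℝ), czF z t = -log (1 - z) := by
  obtain ⟨c, hc, h⟩ := cz_bound hz h1
  have hsl : ∀ t : ℝ, 0 ≤ t → (1 : ℂ) - z * Real.exp (-t) ∈ slitPlane := fun t ht =>
    Or.inl (lt_of_lt_of_le hc (h t ht))
  have hd : ∀ t ∈ Set.Ici (0 : ℝ), HasDerivAt (fun t : ℝ => log ((1 : ℂ) - z * Real.exp (-t))) (czF z t) t :=
    fun t ht => (cz_deriv0 z t).clog_real (hsl t ht)
  have hlim : Filter.Tendsto (fun t : ℝ => log ((1 : ℂ) - z * Real.exp (-t))) Filter.atTop (nhds 0) := by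
    have h2 : Filter.Tendsto (fun t : ℝ => (1 : ℂ) - z * Real.exp (-t)) Filter.atTop (nhds (1 - z * ((0 : ℝ) : ℂ))) := by
      refine Filter.Tendsto.const_sub _ (Filter.Tendsto.const_mul _ ?_)
      exact (Complex.continuous_ofReal.tendsto 0).comp Real.tendsto_exp_neg_atTop_nhds_zero
    have h3 : (1 : ℂ) - z * ((0 : ℝ) : ℂ) = 1 := by simp
    rw [h3] at h2
    have h4 : Filter.Tendsto log (nhds (1 : ℂ)) (nhds (log 1)) :=
      (continuousAt_clog (by simp [slitPlane])).tendsto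
    rw [Complex.log_one] at h4
    exact h4.comp h2
  have h5 := MeasureTheory.integral_Ioi_of_hasDerivAt_of_tendsto' hd (czF_int hz hc h) hlim
  rw [h5]
  simp

/-- MODULE cz1. Proof: `z = exp (2 π i a)`, `|z| = 1`, `z ≠ 1` (as `a ≠ 0` in the circle), so `0 < re (1 - z e^{-t})` for
`t ≥ 0`. `F t = z e^{-t} / (1 - z e^{-t})` is the derivative of `log (1 - z e^{-t})`, `log (1 - z e^{-t}) → 0` for
`t → ∞` : `MeasureTheory.integral_Ioi_of_hasDerivAt_of_tendsto`; integrability from `|F t| ≤ C e^{-t}` (`|1 - z e^{-t}| ≥ c > 0` on `[0,∞)`: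
it is continuous, nonzero, tends to 1). -/
theorem integral_F (a : ℝ) (ha : (a : UnitAddCircle) ≠ 0) :
    (∫ t in Set.Ioi (0 : ℝ), (exp (2 * Real.pi * I * a) * Real.exp (-t)) /
      (1 - exp (2 * Real.pi * I * a) * Real.exp (-t)) : ℂ) =
      -log (1 - exp (2 * Real.pi * I * a)) :=
  czF_integral (cz_norm a) (cz_ne_one a ha)

private theorem czF_hasSum {z : ℂ} (hz : ‖z‖ = 1) {t : ℝ} (ht : 0 < t) :
    HasSum (fun n : ℕ => (if n = 0 then (0 : ℂ) else z ^ n) * ((Real.exp (-(n : ℝ) * t) : ℝ) : ℂ)) (czF z t) := by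
  have hn : ‖z * ((Real.exp (-t) : ℝ) : ℂ)‖ < 1 := by
    rw [norm_mul, hz, one_mul, Complex.norm_real, Real.norm_eq_abs, abs_of_pos (Real.exp_pos _)]
    exact Real.exp_lt_one_iff.mpr (by linarith)
  rw [← hasSum_nat_add_iff' 1]
  have h1 := (hasSum_geometric_of_norm_lt_one hn).mul_left (z * ((Real.exp (-t) : ℝ) : ℂ))
  have h2 : czF z t - ∑ i ∈ Finset.range 1, (if i = 0 then (0 : ℂ) else z ^ i) * ((Real.exp (-(i : ℝ) * t) : ℝ) : ℂ) =
      z * ((Real.exp (-t) : ℝ) : ℂ) * (1 - z * ((Real.exp (-t) : ℝ) : ℂ))⁻¹ := by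
    simp [czF, div_eq_mul_inv]
  rw [h2]
  refine h1.congr_fun ?_
  intro n
  rw [if_neg (Nat.succ_ne_zero n)]
  have h3 : Real.exp (-((n + 1 : ℕ) : ℝ) * t) = Real.exp (-t) ^ (n + 1) := by
    rw [← Real.exp_nat_mul]
    congr 1
    push_cast
    ring
  rw [h3]
  push_cast
  ring

private theorem cz_mellin (a : ℝ) {s : ℂ} (hs : 1 < s.re) :
    mellin (czF (exp (2 * Real.pi * I * a))) s = Gamma s * HurwitzZeta.expZeta (a : UnitAddCircle) s := by
  have hz := cz_norm a
  have hs0 : 0 < s.re := by linarith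
  have hpow : ∀ n : ℕ, exp (2 * Real.pi * I * a) ^ n = exp (2 * Real.pi * I * a * n) := by
    intro n
    rw [← Complex.exp_nat_mul]
    congr 1
    ring
  have h1 := hasSum_mellin (a := fun n : ℕ => if n = 0 then (0 : ℂ) else exp (2 * Real.pi * I * a) ^ n)
    (p := fun n : ℕ => (n : ℝ)) (F := czF (exp (2 * Real.pi * I * a))) (s := s) ?_ hs0 ?_ ?_
  · have h2 := (HurwitzZeta.hasSum_expZeta_of_one_lt_re a hs).mul_left (Gamma s)
    refine h1.unique (h2.congr_fun ?_)
    intro n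
    rcases Nat.eq_zero_or_pos n with rfl | hn
    · have h3 : ((0 : ℕ) : ℂ) ^ s = 0 := by
        rw [Nat.cast_zero, Complex.zero_cpow]
        intro h
        rw [h] at hs0
        simp at hs0
      rw [h3]
      simp
    · rw [if_neg hn.ne', hpow, mul_div_assoc, Complex.ofReal_natCast]
  · intro n
    rcases Nat.eq_zero_or_pos n with rfl | hn
    · left
      simp
    · right
      exact_mod_cast hn
  · intro t ht
    exact czF_hasSum hz ht
  · refine Summable.of_nonneg_of_le (fun n => by positivity) (fun n => ?_)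
      (Real.summable_one_div_nat_rpow.mpr hs)
    apply div_le_div_of_nonneg_right _ (by positivity)
    split_ifs
    · simp
    · rw [norm_pow, hz, one_pow]

private theorem cz_mellin_one (z : ℂ) : mellin (czF z) 1 = ∫ t in Set.Ioi (0 : ℝ), czF z t := by
  simp [mellin]

private theorem cz_mellin_cont {z : ℂ} (hz : ‖z‖ = 1) (h1 : z ≠ 1) : ContinuousAt (mellin (czF z)) 1 := by
  obtain ⟨c, hc, h⟩ := cz_bound hz h1
  refine (mellin_differentiableAt_of_isBigO_rpow_exp (a := 1) (b := 0) one_pos ?_ ?_ ?_ ?_).continuousAt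
  · exact ((czF_cont hc h).mono Set.Ioi_subset_Ici_self).locallyIntegrableOn measurableSet_Ioi
  · refine Asymptotics.IsBigO.of_bound c⁻¹ ?_
    filter_upwards [Filter.eventually_ge_atTop (0 : ℝ)] with t ht
    rw [Real.norm_eq_abs, abs_of_pos (Real.exp_pos _)]
    have h2 := czF_norm hz hc h ht
    rw [show -1 * t = -t by ring]
    exact h2
  · refine Asymptotics.IsBigO.of_bound c⁻¹ ?_
    filter_upwards [self_mem_nhdsWithin] with t ht
    have h2 := czF_norm hz hc h (le_of_lt ht)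
    have h3 : Real.exp (-t) ≤ 1 := Real.exp_le_one_iff.mpr (by have : 0 < t := ht; linarith)
    have h4 : ‖t ^ (-(0 : ℝ))‖ = 1 := by simp
    rw [h4]
    exact h2.trans (mul_le_mul_of_nonneg_left h3 (inv_pos.mpr hc).le)
  · simp

/-- MODULE cz2. Proof: for real `s > 1`: `Γ(s) expZeta a s = ∫_0^∞ t^{s-1} F t dt` (`hasSum_mellin` with `ι = ℕ`, coefficients
`exp (2 π i a n)` for `n ≥ 1`, `0` for `n = 0`, `p n = n`; `hasSum_expZeta_of_one_lt_re`; geometric series). Let `s → 1+`: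
the left side tends to `expZeta a 1` (`differentiableAt_expZeta`, continuity), the right side to `∫ F` by dominated
convergence (`|t^{s-1} F t| ≤ (1 + t) C e^{-t}` for `1 ≤ s ≤ 2`). Then `integral_F`. -/
theorem expZeta_one (a : ℝ) (ha : (a : UnitAddCircle) ≠ 0) :
    HurwitzZeta.expZeta (a : UnitAddCircle) 1 = -log (1 - exp (2 * Real.pi * I * a)) := by
  have hz := cz_norm a
  have h1 := cz_ne_one a ha
  have hcast : Filter.Tendsto (fun s : ℝ => (s : ℂ)) (nhdsWithin 1 (Set.Ioi 1)) (nhds 1) := by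
    have h2 : Filter.Tendsto (fun s : ℝ => (s : ℂ)) (nhds 1) (nhds ((1 : ℝ) : ℂ)) :=
      Complex.continuous_ofReal.tendsto 1
    rw [Complex.ofReal_one] at h2
    exact h2.mono_left nhdsWithin_le_nhds
  have hL : Filter.Tendsto (fun s : ℝ => mellin (czF (exp (2 * Real.pi * I * a))) (s : ℂ))
      (nhdsWithin 1 (Set.Ioi 1)) (nhds (mellin (czF (exp (2 * Real.pi * I * a))) 1)) :=
    (cz_mellin_cont hz h1).tendsto.comp hcast
  have hR : Filter.Tendsto (fun s : ℝ => Gamma (s : ℂ) * HurwitzZeta.expZeta (a : UnitAddCircle) (s : ℂ))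
      (nhdsWithin 1 (Set.Ioi 1)) (nhds (Gamma 1 * HurwitzZeta.expZeta (a : UnitAddCircle) 1)) := by
    have h3 : ContinuousAt Gamma 1 := by
      refine (Complex.differentiableAt_Gamma 1 ?_).continuousAt
      intro m hm
      have h4 := congrArg Complex.re hm
      simp at h4
      have h5 : (0 : ℝ) ≤ m := Nat.cast_nonneg m
      linarith
    have h4 : ContinuousAt (HurwitzZeta.expZeta (a : UnitAddCircle)) 1 :=
      (HurwitzZeta.differentiableAt_expZeta _ _ (Or.inr ha)).continuousAt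
    exact ((h3.mul h4).tendsto.comp hcast)
  have hEq : Filter.Tendsto (fun s : ℝ => mellin (czF (exp (2 * Real.pi * I * a))) (s : ℂ))
      (nhdsWithin 1 (Set.Ioi 1)) (nhds (Gamma 1 * HurwitzZeta.expZeta (a : UnitAddCircle) 1)) := by
    refine hR.congr' ?_
    filter_upwards [self_mem_nhdsWithin] with s hs
    rw [cz_mellin a (s := (s : ℂ)) (by rw [Complex.ofReal_re]; exact hs)]
  have h5 := tendsto_nhds_unique hL hEq
  rw [Complex.Gamma_one, one_mul] at h5
  rw [← h5, cz_mellin_one, czF_integral hz h1]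

/-- MODULE cz3. Proof: `cosZeta_eq`: `cosZeta a s = (expZeta a s + expZeta (-a) s) / 2`, `expZeta_one` for `a` and `-a`;
`log (1 - z) + log (1 - conj z) = log w + log (conj w) = 2 log |w|` for `w = 1 - z`, `0 < re w`. -/
theorem cosZeta_one (a : ℝ) (ha : (a : UnitAddCircle) ≠ 0) :
    HurwitzZeta.cosZeta (a : UnitAddCircle) 1 =
      ((-Real.log ‖exp (2 * Real.pi * I * a) - 1‖ : ℝ) : ℂ) := by
  have hz := cz_norm a
  have h1 := cz_ne_one a ha
  have hneg : -((a : ℝ) : UnitAddCircle) = ((-a : ℝ) : UnitAddCircle) := (AddCircle.coe_neg 1).symm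
  have ha' : ((-a : ℝ) : UnitAddCircle) ≠ 0 := by
    rw [← hneg]
    exact neg_ne_zero.mpr ha
  rw [HurwitzZeta.cosZeta_eq, hneg, expZeta_one a ha, expZeta_one (-a) ha']
  have h2 : exp (2 * Real.pi * I * ((-a : ℝ) : ℂ)) = (starRingEnd ℂ) (exp (2 * Real.pi * I * a)) := by
    rw [← Complex.exp_conj]
    congr 1
    rw [map_mul, map_mul, map_mul, Complex.conj_ofReal, Complex.conj_ofReal, Complex.conj_I, map_ofNat]
    push_cast
    ring
  have h3 : (1 : ℂ) - exp (2 * Real.pi * I * ((-a : ℝ) : ℂ)) = (starRingEnd ℂ) (1 - exp (2 * Real.pi * I * a)) := by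
    rw [h2, map_sub, map_one]
  have h4 : 0 < (1 - exp (2 * Real.pi * I * a)).re := by
    rw [Complex.sub_re, Complex.one_re]
    have := cz_re_lt hz h1
    linarith
  have h5 : (1 - exp (2 * Real.pi * I * a)).arg ≠ Real.pi :=
    (Complex.mem_slitPlane_iff_arg.mp (Or.inl h4)).1
  rw [h3, Complex.log_conj _ h5]
  have h6 := Complex.add_conj (log (1 - exp (2 * Real.pi * I * a)))
  rw [Complex.log_re] at h6
  rw [norm_sub_rev]
  have h7 : -log (1 - exp (2 * Real.pi * I * a)) + -(starRingEnd ℂ) (log (1 - exp (2 * Real.pi * I * a))) =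
      -(log (1 - exp (2 * Real.pi * I * a)) + (starRingEnd ℂ) (log (1 - exp (2 * Real.pi * I * a)))) := by ring
  rw [h7, h6]
  push_cast
  ring

end Aks1
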