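import Mathlib

set_option autoImplicit false

/-! # MP_4003b2_nt, the AKS congruence with the single base `x - 1` (helper61): definitions -/

namespace Aks1

/-- `ell r b = log |ζ^b - 1|`, `ζ = exp (2 π i / r)`, `b` modulo `r`. -/
noncomputable def ell (r : ℕ) [NeZero r] (b : ZMod r) : ℝ :=
  Real.log ‖(ZMod.stdAddChar b : ℂ) - 1‖

/-- `e` is a good exponent for the field `F` and `r`: `(w - 1) ^ e = w ^ e - 1` for every `r`-th root of unity
`w` in `F`. -/
def Good (F : Type*) [Field F] (r e : ℕ) : Prop :=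
  ∀ w : F, w ^ r = 1 → (w - 1) ^ e = w ^ e - 1

end Aks1
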