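import Pool.Agent.Aks1.Defs

set_option autoImplicit false

/-! # Module Dig: random digits -/

namespace Aks1

/-- centred digit -/
noncomputable def cd (B : ℕ) (t : Fin B) : ℝ := (t : ℝ) - ((B : ℝ) - 1) / 2

theorem cd_rev {B : ℕ} (t : Fin B) : cd B (Fin.rev t) = -cd B t := by
  unfold cd
  have h : ((Fin.rev t : Fin B) : ℕ) = B - (t + 1) := Fin.val_rev t
  have h2 : (t : ℕ) + 1 ≤ B := t.2
  rw [h, Nat.cast_sub h2]
  push_cast
  ring

theorem cd_sq_le {B : ℕ} (t : Fin B) : cd B t ^ 2 ≤ (B : ℝ) ^ 2 / 4 := by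
  unfold cd
  have h1 : (0 : ℝ) ≤ (t : ℝ) := Nat.cast_nonneg _
  have h2 : (t : ℝ) + 1 ≤ B := by exact_mod_cast t.2
  have h3 : |(t : ℝ) - ((B : ℝ) - 1) / 2| ≤ (B : ℝ) / 2 := by
    rw [abs_le]; constructor <;> linarith
  calc ((t : ℝ) - ((B : ℝ) - 1) / 2) ^ 2 = |(t : ℝ) - ((B : ℝ) - 1) / 2| ^ 2 := (sq_abs _).symm
    _ ≤ ((B : ℝ) / 2) ^ 2 := pow_le_pow_left₀ (abs_nonneg _) h3 2
    _ = (B : ℝ) ^ 2 / 4 := by ring

theorem sum_cd_mul {D B : ℕ} {a a' : Fin D} (h : a ≠ a') :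
    ∑ z : Fin D → Fin B, cd B (z a) * cd B (z a') = 0 := by
  classical
  set e : (Fin D → Fin B) ≃ (Fin D → Fin B) :=
    { toFun := fun z => Function.update z a (Fin.rev (z a))
      invFun := fun z => Function.update z a (Fin.rev (z a))
      left_inv := fun z => by
        funext x
        by_cases hx : x = a
        · subst hx; simp
        · simp [hx]
      right_inv := fun z => by
        funext x
        by_cases hx : x = a
        · subst hx; simp
        · simp [hx] } with he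
  have h1 : ∑ z : Fin D → Fin B, cd B (z a) * cd B (z a') =
      ∑ z : Fin D → Fin B, -(cd B (z a) * cd B (z a')) := by
    refine Fintype.sum_equiv e _ _ fun z => ?_
    have e1 : (e z) a = Fin.rev (z a) := by simp [he]
    have e2 : (e z) a' = z a' := by simp [he, Function.update_of_ne h.symm]
    rw [e1, e2, cd_rev]
    ring
  rw [Finset.sum_neg_distrib] at h1
  linarith

theorem digits {D B : ℕ} {β : Type*} [Fintype β] (v : Fin D → β → ℝ) (W : ℝ)
    (hW : ∀ a, ∑ b, v a b ^ 2 ≤ W) :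
    (B : ℝ) ^ D / 2 ≤ (((Finset.univ.filter (fun z : Fin D → Fin B =>
      ∑ b, (∑ a, cd B (z a) * v a b) ^ 2 ≤ 2 * (D * ((B : ℝ) ^ 2 / 4 * W)))).card : ℕ) : ℝ) := by
  classical
  have hcard : (Fintype.card (Fin D → Fin B) : ℝ) = (B : ℝ) ^ D := by
    simp
  set f : (Fin D → Fin B) → ℝ := fun z => ∑ b, (∑ a, cd B (z a) * v a b) ^ 2 with hf
  have hf0 : ∀ z, 0 ≤ f z := fun z => Finset.sum_nonneg fun b _ => sq_nonneg _
  set K : ℝ := D * ((B : ℝ) ^ 2 / 4 * W) with hK
  have htot : ∑ z, f z ≤ (B : ℝ) ^ D * K := by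
    have h1 : ∑ z, f z = ∑ b, ∑ a, ∑ a', (v a b * v a' b) * ∑ z : Fin D → Fin B, cd B (z a) * cd B (z a') := by
      rw [hf]
      simp only
      rw [Finset.sum_comm]
      refine Finset.sum_congr rfl fun b _ => ?_
      have : ∀ z : Fin D → Fin B, (∑ a, cd B (z a) * v a b) ^ 2 =
          ∑ a, ∑ a', (v a b * v a' b) * (cd B (z a) * cd B (z a')) := by
        intro z
        rw [sq, Finset.sum_mul_sum]
        refine Finset.sum_congr rfl fun a _ => Finset.sum_congr rfl fun a' _ => ?_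
        ring
      rw [Finset.sum_congr rfl fun z _ => this z, Finset.sum_comm]
      refine Finset.sum_congr rfl fun a _ => ?_
      rw [Finset.sum_comm]
      refine Finset.sum_congr rfl fun a' _ => ?_
      rw [Finset.mul_sum]
    rw [h1]
    have h2 : ∀ b : β, ∑ a, ∑ a', (v a b * v a' b) * ∑ z : Fin D → Fin B, cd B (z a) * cd B (z a') =
        ∑ a, v a b ^ 2 * ∑ z : Fin D → Fin B, cd B (z a) ^ 2 := by
      intro b
      refine Finset.sum_congr rfl fun a _ => ?_
      rw [Finset.sum_eq_single a]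
      · simp only [← sq]
      · intro a' _ ha'
        rw [sum_cd_mul ha'.symm, mul_zero]
      · intro hx; exact absurd (Finset.mem_univ _) hx
    rw [Finset.sum_congr rfl fun b _ => h2 b, Finset.sum_comm]
    have h3 : ∀ a, ∑ b, v a b ^ 2 * ∑ z : Fin D → Fin B, cd B (z a) ^ 2 ≤ (B : ℝ) ^ D * ((B : ℝ) ^ 2 / 4 * W) := by
      intro a
      rw [← Finset.sum_mul]
      have h4 : ∑ z : Fin D → Fin B, cd B (z a) ^ 2 ≤ (B : ℝ) ^ D * ((B : ℝ) ^ 2 / 4) := by
        calc ∑ z : Fin D → Fin B, cd B (z a) ^ 2 ≤ ∑ _z : Fin D → Fin B, (B : ℝ) ^ 2 / 4 :=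
              Finset.sum_le_sum fun z _ => cd_sq_le _
          _ = _ := by rw [Finset.sum_const, Finset.card_univ, nsmul_eq_mul, hcard]
      have h5 : 0 ≤ ∑ b, v a b ^ 2 := Finset.sum_nonneg fun b _ => sq_nonneg _
      have h6 : 0 ≤ ∑ z : Fin D → Fin B, cd B (z a) ^ 2 := Finset.sum_nonneg fun b _ => sq_nonneg _
      calc (∑ b, v a b ^ 2) * ∑ z : Fin D → Fin B, cd B (z a) ^ 2 ≤ W * ((B : ℝ) ^ D * ((B : ℝ) ^ 2 / 4)) :=
            mul_le_mul (hW a) h4 h6 (h5.trans (hW a))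
        _ = _ := by ring
    calc ∑ a, ∑ b, v a b ^ 2 * ∑ z : Fin D → Fin B, cd B (z a) ^ 2 ≤ ∑ _a : Fin D, (B : ℝ) ^ D * ((B : ℝ) ^ 2 / 4 * W) :=
          Finset.sum_le_sum fun a _ => h3 a
      _ = (B : ℝ) ^ D * K := by
        rw [Finset.sum_const, Finset.card_univ, Fintype.card_fin, nsmul_eq_mul, hK]; ring
  -- Markov
  set Gd := Finset.univ.filter (fun z : Fin D → Fin B => f z ≤ 2 * K) with hGd
  show (B : ℝ) ^ D / 2 ≤ (Gd.card : ℝ)
  have hsplit : (Gd.card : ℝ) + ((Finset.univ.filter (fun z : Fin D → Fin B => ¬ f z ≤ 2 * K)).card : ℝ) = (B : ℝ) ^ D := by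
    rw [← hcard, ← Finset.card_univ, ← Finset.card_filter_add_card_filter_not (s := Finset.univ) (fun z : Fin D → Fin B => f z ≤ 2 * K)]
    push_cast
    rfl
  set Bd := Finset.univ.filter (fun z : Fin D → Fin B => ¬ f z ≤ 2 * K) with hBd
  have hbad : (Bd.card : ℝ) * (2 * K) ≤ ∑ z, f z := by
    calc (Bd.card : ℝ) * (2 * K) = ∑ _z ∈ Bd, 2 * K := by rw [Finset.sum_const, nsmul_eq_mul]
      _ ≤ ∑ z ∈ Bd, f z := Finset.sum_le_sum fun z hz => by
          rw [hBd, Finset.mem_filter] at hz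
          exact (not_le.1 hz.2).le
      _ ≤ ∑ z, f z := Finset.sum_le_sum_of_subset_of_nonneg (Finset.subset_univ _) fun z _ _ => hf0 z
  rcases lt_or_ge 0 K with hKpos | hKneg
  · have h1 : (Bd.card : ℝ) * (2 * K) ≤ (B : ℝ) ^ D * K := hbad.trans htot
    have h2 : (Bd.card : ℝ) * 2 ≤ (B : ℝ) ^ D := by
      have : ((Bd.card : ℝ) * 2) * K ≤ (B : ℝ) ^ D * K := by linarith
      exact le_of_mul_le_mul_right this hKpos
    linarith
  · -- all f z = 0
    have hBD : 0 ≤ (B : ℝ) ^ D := by positivity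
    have h1 : ∑ z, f z ≤ 0 := htot.trans (mul_nonpos_of_nonneg_of_nonpos hBD hKneg)
    have h2 : ∑ z, f z = 0 := le_antisymm h1 (Finset.sum_nonneg fun z _ => hf0 z)
    have h3 : ∀ z, f z = 0 := fun z => (Finset.sum_eq_zero_iff_of_nonneg (fun z _ => hf0 z)).1 h2 z (Finset.mem_univ _)
    have hK0 : K = 0 ∨ Bd.card = 0 := by
      by_cases hD : D = 0
      · left; rw [hK, hD]; simp
      · have hW0 : 0 ≤ W := by
          have a0 : Fin D := ⟨0, Nat.pos_of_ne_zero hD⟩
          exact (Finset.sum_nonneg fun b _ => sq_nonneg _).trans (hW a0)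
        left
        apply le_antisymm hKneg
        rw [hK]; positivity
    rcases hK0 with hK0 | hK0
    · have : Bd = ∅ := by
        rw [hBd, Finset.filter_eq_empty_iff]
        intro z _
        rw [not_not, h3 z, hK0]; simp
      rw [this] at hsplit
      simp at hsplit
      linarith
    · rw [hK0] at hsplit
      push_cast at hsplit
      linarith

end Aks1
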