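import Pool.Agent.Aks1.Intro

set_option autoImplicit false

/-! # Module Exp: small exponents for many residues -/

namespace Aks1

theorem exists_family {r : ℕ} (S : Finset (ZMod r)ˣ) (D : ℕ) (hS : 2 * D ≤ S.card) :
    ∃ h : Fin D → (ZMod r)ˣ, (∀ a, h a ∈ S) ∧ ∀ a b, a ≠ b → h a ≠ h b ∧ h a ≠ -h b := by
  classical
  set φ : (ZMod r)ˣ → Finset (ZMod r)ˣ := fun u => {u, -u} with hφ
  have hcard : S.card ≤ 2 * (S.image φ).card := by
    refine (Finset.card_le_mul_card_image (f := φ) S 2 ?_)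
    intro y hy
    obtain ⟨u, hu, rfl⟩ := Finset.mem_image.1 hy
    have : S.filter (fun x => φ x = φ u) ⊆ {u, -u} := by
      intro x hx
      have h1 : x ∈ φ x := by simp [hφ]
      rw [(Finset.mem_filter.1 hx).2] at h1
      exact h1
    exact (Finset.card_le_card this).trans Finset.card_le_two
  obtain ⟨Y, hYs, hYc⟩ := Finset.exists_subset_card_eq (show D ≤ (S.image φ).card by omega)
  have hch : ∀ y : Y, ∃ u ∈ S, φ u = y := by
    rintro ⟨y, hy⟩
    obtain ⟨u, hu, h⟩ := Finset.mem_image.1 (hYs hy)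
    exact ⟨u, hu, h⟩
  choose g hg hgφ using hch
  set eq := (Finset.equivFinOfCardEq hYc).symm with heq
  refine ⟨fun a => g (eq a), fun a => hg _, ?_⟩
  intro a b hab
  have hne : (eq a) ≠ (eq b) := fun h => hab (eq.injective h)
  have hφne : φ (g (eq a)) ≠ φ (g (eq b)) := by
    rw [hgφ, hgφ]
    intro h
    exact hne (Subtype.ext h)
  constructor
  · intro h
    change g (eq a) = g (eq b) at h
    exact hφne (by rw [h])
  · intro h
    change g (eq a) = -g (eq b) at h
    apply hφne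
    rw [h]
    simp only [hφ, neg_neg]
    exact Finset.pair_comm _ _

theorem mem_closure_pow {r m p : ℕ} [NeZero r] (hm : m.Coprime r) (hp : p.Coprime r) (u : (ZMod r)ˣ)
    (hu : u ∈ Subgroup.closure ({ZMod.unitOfCoprime m hm, ZMod.unitOfCoprime p hp} : Set (ZMod r)ˣ)) :
    ∃ i j : ℕ, ((m ^ i * p ^ j : ℕ) : ZMod r) = u := by
  have hu' : u ∈ Submonoid.closure ({ZMod.unitOfCoprime m hm, ZMod.unitOfCoprime p hp} : Set (ZMod r)ˣ) := by
    have := (Subgroup.mem_toSubmonoid _ _).2 hu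
    rwa [Subgroup.closure_toSubmonoid_of_finite] at this
  rw [Submonoid.mem_closure_pair] at hu'
  obtain ⟨i, j, h⟩ := hu'
  refine ⟨i, j, ?_⟩
  rw [← h]
  push_cast
  simp

theorem pow_mul_pow_inj {m p : ℕ} (hp : p.Prime) (hm : 2 ≤ m) (hpow : ∀ j, m ≠ p ^ j) {i j i' j' : ℕ}
    (h : m ^ i * p ^ j = m ^ i' * p ^ j') : i = i' ∧ j = j' := by
  have key : ∀ {i j i' j' : ℕ}, m ^ i * p ^ j = m ^ i' * p ^ j' → ¬ i < i' := by
    intro i j i' j' h hlt
    obtain ⟨d, rfl⟩ := Nat.exists_eq_add_of_lt hlt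
    have h1 : p ^ j = m ^ (d + 1) * p ^ j' := by
      have : m ^ i * p ^ j = m ^ i * (m ^ (d + 1) * p ^ j') := by
        rw [h]; ring
      exact Nat.eq_of_mul_eq_mul_left (by positivity) this
    have h2 : m ∣ p ^ j := by
      rw [h1]
      exact (dvd_pow_self m (by omega)).mul_right _
    obtain ⟨a, -, ha⟩ := (Nat.dvd_prime_pow hp).1 h2
    exact hpow a ha
  have hii : i = i' := le_antisymm (not_lt.1 (key h.symm)) (not_lt.1 (key h))
  subst hii
  refine ⟨rfl, ?_⟩
  have h3 : p ^ j = p ^ j' := Nat.eq_of_mul_eq_mul_left (by positivity) h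
  exact Nat.pow_right_injective hp.two_le h3

theorem period {F : Type*} [Field F] {r : ℕ} [Fact r.Prime] {a b : ℕ} (hab : b < a) (ha : Good F r a) (hb : Good F r b)
    (hcop : b.Coprime r) (h : (a : ZMod r) = b ∨ (a : ZMod r) = -b) (w : F) (hw : w ^ r = 1) (hw1 : w ≠ 1) :
    (w - 1) ^ (2 * r * (a - b)) = 1 := by
  have hr : r.Prime := Fact.out
  have hw0 : w ≠ 0 := by
    rintro rfl
    rw [zero_pow hr.ne_zero] at hw
    exact zero_ne_one hw
  have hs : w - 1 ≠ 0 := sub_ne_zero.2 hw1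
  have hord : orderOf w = r := orderOf_eq_prime hw hw1
  obtain ⟨c, rfl⟩ := Nat.exists_eq_add_of_lt hab
  have e1 := ha w hw
  have e2 := hb w hw
  have hwb : w ^ b - 1 ≠ 0 := by
    rw [← e2]; exact pow_ne_zero _ hs
  rw [show b + c + 1 - b = c + 1 by omega]
  rcases h with h | h
  · have h1 : w ^ (b + c + 1) = w ^ b := by
      rw [pow_eq_pow_mod (b + c + 1) hw, pow_eq_pow_mod b hw]
      congr 1
      exact (ZMod.natCast_eq_natCast_iff _ _ _).1 h
    rw [h1, ← e2] at e1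
    have h2 : (w - 1) ^ (c + 1) = 1 := by
      have : (w - 1) ^ b * (w - 1) ^ (c + 1) = (w - 1) ^ b * 1 := by
        rw [← pow_add, mul_one, ← e1]; congr 1
      exact mul_left_cancel₀ (pow_ne_zero _ hs) this
    rw [mul_comm, pow_mul, h2, one_pow]
  · have h0 : ((b + c + 1 + b : ℕ) : ZMod r) = 0 := by
      push_cast at h ⊢
      rw [h]; ring
    have h1 : w ^ (b + c + 1) * w ^ b = 1 := by
      rw [← pow_add]
      rw [ZMod.natCast_eq_zero_iff] at h0
      obtain ⟨d, hd⟩ := h0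
      rw [hd, pow_mul, hw, one_pow]
    have h2 : (w - 1) ^ (c + 1) * w ^ b = -1 := by
      have : (w - 1) ^ b * ((w - 1) ^ (c + 1) * w ^ b) = (w - 1) ^ b * (-1) := by
        rw [← mul_assoc, ← pow_add, show b + (c + 1) = b + c + 1 by ring, e1, e2]
        rw [sub_mul, h1]; ring
      exact mul_left_cancel₀ (pow_ne_zero _ hs) this
    have h3 : ((w - 1) ^ (c + 1)) ^ (2 * r) * (w ^ b) ^ (2 * r) = 1 := by
      rw [← mul_pow, h2, mul_comm 2 r, mul_comm, pow_mul]
      simp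
    have h4 : (w ^ b) ^ (2 * r) = 1 := by
      rw [← pow_mul, show b * (2 * r) = r * (2 * b) by ring, pow_mul, hw, one_pow]
    rw [h4, mul_one, ← pow_mul] at h3
    rw [mul_comm]; exact h3

theorem exps (p r m : ℕ) [Fact p.Prime] [Fact r.Prime] (F : Type*) [Field F] [CharP F p]
    (hm2 : 2 ≤ m) (hmr : m.Coprime r) (hpr : p.Coprime r) (hm : Good F r m) (hpow : ∀ j, m ≠ p ^ j)
    (D : ℕ) (X : ℝ) (T : Finset (ℕ × ℕ))
    (hT : ∀ q ∈ T, (q.1 : ℝ) * Real.log m + (q.2 : ℝ) * Real.log p ≤ X) (hTD : D ≤ T.card)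
    (hH : 2 * D ≤ Nat.card (Subgroup.closure
      ({ZMod.unitOfCoprime m hmr, ZMod.unitOfCoprime p hpr} : Set (ZMod r)ˣ))) :
    ∃ (h : Fin D → (ZMod r)ˣ) (e : Fin D → ℕ), (∀ a b, a ≠ b → h a ≠ h b ∧ h a ≠ -h b) ∧
      (∀ a, (e a : ℝ) ≤ 2 * r * Real.exp X) ∧
      ∀ a, ∀ w : F, w ^ r = 1 → w ≠ 1 → (w - 1) ^ e a = w ^ (h a : ZMod r).val - 1 := by
  classical
  have hp : p.Prime := Fact.out
  have hr : r.Prime := Fact.out
  have hr1 : (1 : ℝ) ≤ r := by exact_mod_cast hr.one_lt.le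
  set f : ℕ × ℕ → ℕ := fun q => m ^ q.1 * p ^ q.2 with hf
  have hfgood : ∀ q, Good F r (f q) := fun q => good_mul (good_pow hm _) (good_pow (good_char p) _)
  have hmpos : (0 : ℝ) < m := by exact_mod_cast (by omega : 0 < m)
  have hppos : (0 : ℝ) < p := by exact_mod_cast hp.pos
  have hfle : ∀ q ∈ T, (f q : ℝ) ≤ Real.exp X := by
    intro q hq
    have h1 : (f q : ℝ) = Real.exp ((q.1 : ℝ) * Real.log m + (q.2 : ℝ) * Real.log p) := by
      rw [hf, Real.exp_add, Real.exp_nat_mul, Real.exp_nat_mul, Real.exp_log hmpos, Real.exp_log hppos]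
      push_cast; rfl
    rw [h1]
    exact Real.exp_le_exp.2 (hT q hq)
  have hfcop : ∀ q, (f q).Coprime r := fun q =>
    Nat.Coprime.mul_left (Nat.Coprime.pow_left _ hmr) (Nat.Coprime.pow_left _ hpr)
  set U : ℕ × ℕ → (ZMod r)ˣ := fun q => ZMod.unitOfCoprime (f q) (hfcop q) with hU
  have hUval : ∀ q, ((U q : (ZMod r)ˣ) : ZMod r) = (f q : ZMod r) := fun q => by
    rw [hU]; exact ZMod.coe_unitOfCoprime _ _
  have hwmod : ∀ w : F, w ^ r = 1 → ∀ (n : ℕ) (u : ZMod r), (n : ZMod r) = u → w ^ u.val = w ^ n := by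
    intro w hw n u hu
    rw [← hu, ZMod.val_natCast, ← pow_eq_pow_mod n hw]
  by_cases hinj : ∀ q ∈ T, ∀ q' ∈ T, q ≠ q' → U q ≠ U q' ∧ U q ≠ -U q'
  · obtain ⟨Y, hYT, hYc⟩ := Finset.exists_subset_card_eq hTD
    set eq := (Finset.equivFinOfCardEq hYc).symm with heq
    refine ⟨fun a => U (eq a), fun a => f (eq a), ?_, ?_, ?_⟩
    · intro a b hab
      exact hinj _ (hYT (eq a).2) _ (hYT (eq b).2) (fun h => hab (eq.injective (Subtype.ext h)))
    · intro a
      calc (f (eq a) : ℝ) ≤ Real.exp X := hfle _ (hYT (eq a).2)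
        _ = 1 * Real.exp X := (one_mul _).symm
        _ ≤ 2 * r * Real.exp X := by
          refine mul_le_mul_of_nonneg_right ?_ (Real.exp_pos X).le
          linarith
    · intro a w hw hw1
      show (w - 1) ^ f (eq a) = w ^ ((U (eq a) : (ZMod r)ˣ) : ZMod r).val - 1
      rw [hwmod w hw (f (eq a)) _ (hUval _).symm]
      exact hfgood _ w hw
  · push Not at hinj
    obtain ⟨q, hq, q', hq', hne, hrel⟩ := hinj
    have hrel' : (f q : ZMod r) = f q' ∨ (f q : ZMod r) = -(f q' : ZMod r) := by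
      by_cases h1 : U q = U q'
      · left; rw [← hUval, ← hUval, h1]
      · right
        have := hrel h1
        rw [← hUval, ← hUval, this]
        simp
    have hfne : f q ≠ f q' := by
      intro h
      have := pow_mul_pow_inj hp hm2 hpow h
      exact hne (Prod.ext this.1 this.2)
    obtain ⟨G0, hG1, hG2, hG3⟩ : ∃ G0 : ℕ, 0 < G0 ∧ (G0 : ℝ) ≤ 2 * r * Real.exp X ∧
        ∀ w : F, w ^ r = 1 → w ≠ 1 → (w - 1) ^ G0 = 1 := by
      have main : ∀ q q' : ℕ × ℕ, q ∈ T → q' ∈ T → f q' < f q →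
          ((f q : ZMod r) = f q' ∨ (f q : ZMod r) = -(f q' : ZMod r)) → ∃ G0 : ℕ, 0 < G0 ∧
          (G0 : ℝ) ≤ 2 * r * Real.exp X ∧ ∀ w : F, w ^ r = 1 → w ≠ 1 → (w - 1) ^ G0 = 1 := by
        intro q q' hq hq' hlt hrel
        refine ⟨2 * r * (f q - f q'), ?_, ?_, ?_⟩
        · have := hr.pos
          have h2 : 0 < f q - f q' := by omega
          positivity
        · push_cast [Nat.cast_sub hlt.le]
          have h1 := hfle q hq
          have h2 : (0 : ℝ) ≤ f q' := Nat.cast_nonneg _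
          refine mul_le_mul_of_nonneg_left ?_ (by positivity)
          linarith
        · intro w hw hw1
          exact period hlt (hfgood q) (hfgood q') (hfcop q') hrel w hw hw1
      rcases lt_or_gt_of_ne hfne with hlt | hlt
      · refine main q' q hq' hq hlt ?_
        rcases hrel' with h | h
        · left; exact h.symm
        · right; rw [h, neg_neg]
      · exact main q q' hq hq' hlt hrel'
    set H := Subgroup.closure ({ZMod.unitOfCoprime m hmr, ZMod.unitOfCoprime p hpr} : Set (ZMod r)ˣ) with hHdef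
    set S : Finset (ZMod r)ˣ := (Set.toFinite (H : Set (ZMod r)ˣ)).toFinset with hS
    have hScard : 2 * D ≤ S.card := by
      have : S.card = Nat.card H := by
        rw [hS, ← Set.ncard_eq_toFinset_card]
        rfl
      rw [this]; exact hH
    obtain ⟨h, hhS, hh⟩ := exists_family S D hScard
    have hch : ∀ a, ∃ n : ℕ, Good F r n ∧ (n : ZMod r) = (h a : ZMod r) := by
      intro a
      have h1 : h a ∈ H := by
        have := hhS a
        rw [hS, Set.Finite.mem_toFinset] at this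
        exact this
      obtain ⟨i, j, hij⟩ := mem_closure_pow hmr hpr (h a) h1
      exact ⟨_, hfgood (i, j), hij⟩
    choose n hn hnh using hch
    refine ⟨h, fun a => n a % G0, hh, ?_, ?_⟩
    · intro a
      have h1 : n a % G0 ≤ G0 := (Nat.mod_lt _ hG1).le
      calc ((n a % G0 : ℕ) : ℝ) ≤ G0 := by exact_mod_cast h1
        _ ≤ _ := hG2
    · intro a w hw hw1
      show (w - 1) ^ (n a % G0) = _
      rw [← pow_eq_pow_mod (n a) (hG3 w hw hw1), hwmod w hw (n a) _ (hnh a)]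
      exact hn a w hw

end Aks1
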