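import Pool.Agent.Aks1.Cnt

set_option autoImplicit false

/-! # Module Num: the two numerical conditions for large `β = log p` -/

namespace Aks1

private theorem aks_num_log (c y : ℝ) (hc : 0 < c) (hy : 0 < y) : Real.log y ≤ y / c + Real.log c - 1 := by
  have h := Real.log_le_sub_one_of_pos (div_pos hy hc)
  rw [Real.log_div hy.ne' hc.ne'] at h
  linarith

private theorem aks_num_log135 : 2.6026 ≤ Real.log (27 / 2) := by
  have h1 : Real.log ((27 / 2 : ℝ) ^ 4) = 4 * Real.log (27 / 2) := by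
    rw [Real.log_pow]
    norm_num
  have h2 : (27 / 2 : ℝ) ^ 4 = 2 ^ 15 * (531441 / 524288) := by norm_num
  have h3 : Real.log ((2 : ℝ) ^ 15 * (531441 / 524288)) = 15 * Real.log 2 + Real.log (531441 / 524288) := by
    rw [Real.log_mul (by norm_num) (by norm_num), Real.log_pow]
    norm_num
  have h4 := Real.one_sub_inv_le_log_of_pos (show (0 : ℝ) < 531441 / 524288 by norm_num)
  have h5 := Real.log_two_gt_d9
  rw [h2, h3] at h1
  norm_num at h4
  norm_num at h5 ⊢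
  linarith

private theorem aks_num_k (x : ℝ) (hx : 10 ^ 4 ≤ x) : 0.89 * x ≤ (⌈0.89 * x⌉₊ : ℝ) ∧ (⌈0.89 * x⌉₊ : ℝ) ≤ 0.89 * x + 1 :=
  ⟨Nat.le_ceil _, (Nat.ceil_lt_add_one (by
    norm_num
    linarith)).le⟩

/-- MODULE num1. Proof: `α ≥ log r ≥ log (6αβ)`, so `α ≥ 1` and `log k ≤ α` for `β` large; `bin`: `C(3k,k) 2^k ≥ (27/2)^k / (3k+1)`. Take logs:
`k log 13.5 - log (3k+1) > log (1001 * 1000 * 13 k r) + √(6 k α β)`; `αβ ≤ k/0.89`, so `√(6kαβ) ≤ 2.59647 k` and `log 13.5 ≥ 2.60268`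
(`13.5 = 27/2`: bounds for `log 2`, `log 3`), so the margin is `0.0062 k ≥ 0.0055 αβ ≥ 3 α + 30` for `β` large. -/
theorem num_count : ∃ B : ℝ, ∀ α β : ℝ, B ≤ β → 0 < α → ∀ r : ℕ, 2 ≤ r → Real.log r ≤ α → 6 * α * β ≤ (r : ℝ) →
    ∀ G : ℕ, (G : ℝ) ≤ 2 * r * Real.exp (√(2 * α * β * (3 * (⌈0.89 * α * β⌉₊ : ℝ)))) →
    (((1001 : ℕ) : ℝ) - 1) * (6 * (⌈0.89 * α * β⌉₊ : ℝ) * G + 1) <
      (1 / 1000) / (1 + 1 / 1000) * (((3 * ⌈0.89 * α * β⌉₊).choose ⌈0.89 * α * β⌉₊ : ℝ) * 2 ^ ⌈0.89 * α * β⌉₊) := by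
  refine ⟨10 ^ 5, fun α β hβ hα r hr hrα _ G hG => ?_⟩
  obtain ⟨k, hk⟩ : ∃ k, k = ⌈0.89 * α * β⌉₊ := ⟨_, rfl⟩
  rw [← hk] at hG ⊢
  have hr2 : (2 : ℝ) ≤ r := by exact_mod_cast hr
  have hα1 : 0.69 ≤ α := by
    have h2 := Real.log_two_gt_d9
    have h3 : Real.log 2 ≤ Real.log r := Real.log_le_log (by norm_num) hr2
    norm_num at h2 ⊢
    linarith
  obtain ⟨x, hx⟩ : ∃ x, x = α * β := ⟨_, rfl⟩
  have hx0 : 69000 ≤ x := by
    rw [hx]
    norm_num at hα1 hβ ⊢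
    nlinarith
  have hxα : 10 ^ 5 * α ≤ x := by
    rw [hx]
    nlinarith
  rw [show 0.89 * α * β = 0.89 * x by rw [hx]; ring] at hk
  have hkx := aks_num_k x (by linarith)
  rw [← hk] at hkx
  obtain ⟨hk1, hk2⟩ := hkx
  have hkk : (61000 : ℝ) ≤ k := by
    norm_num at hk1
    linarith
  have hk0 : (0 : ℝ) < k := by linarith
  have hr0 : (0 : ℝ) < r := by linarith
  have hs : √(2 * α * β * (3 * (k : ℝ))) ≤ 2.5965 * k := by
    rw [Real.sqrt_le_iff]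
    refine ⟨by positivity, ?_⟩
    have e : 2 * α * β * (3 * (k : ℝ)) = 6 * (x * k) := by rw [hx]; ring
    rw [e]
    norm_num at hk1 ⊢
    nlinarith [mul_le_mul_of_nonneg_right hk1 hk0.le]
  obtain ⟨s, hs'⟩ : ∃ s, s = √(2 * α * β * (3 * (k : ℝ))) := ⟨_, rfl⟩
  rw [← hs'] at hs hG
  have hs0 : 0 ≤ s := hs' ▸ Real.sqrt_nonneg _
  have hA : 0 < 13013000 * (k : ℝ) * (3 * k + 1) * r := by positivity
  have hlogA : Real.log (13013000 * (k : ℝ) * (3 * k + 1) * r) =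
      Real.log 13013000 + Real.log k + Real.log (3 * k + 1) + Real.log r := by
    rw [Real.log_mul (by positivity) (by positivity), Real.log_mul (by positivity) (by positivity),
      Real.log_mul (by norm_num) (by positivity)]
  have l1 : Real.log 13013000 ≤ 24 * 0.6931471808 := by
    have h1 : Real.log 13013000 ≤ Real.log ((2 : ℝ) ^ 24) := Real.log_le_log (by norm_num) (by norm_num)
    rw [Real.log_pow] at h1
    have h2 := Real.log_two_lt_d9
    norm_num at h1 h2 ⊢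
    linarith
  have l2 : Real.log k ≤ k / 1024 + 10 * 0.6931471808 := by
    have h1 := aks_num_log (2 ^ 10) k (by norm_num) hk0
    rw [Real.log_pow] at h1
    have h2 := Real.log_two_lt_d9
    norm_num at h1 h2 ⊢
    linarith
  have l3 : Real.log (3 * k + 1) ≤ (3 * k + 1) / 4096 + 12 * 0.6931471808 := by
    have h1 := aks_num_log (2 ^ 12) (3 * k + 1) (by norm_num) (by positivity)
    rw [Real.log_pow] at h1
    have h2 := Real.log_two_lt_d9
    norm_num at h1 h2 ⊢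
    linarith
  have key : Real.log (13013000 * (k : ℝ) * (3 * k + 1) * r) + s < k * Real.log (27 / 2) := by
    have h4 : (k : ℝ) * 2.6026 ≤ k * Real.log (27 / 2) := mul_le_mul_of_nonneg_left aks_num_log135 hk0.le
    rw [hlogA]
    norm_num at l1 l2 l3 h4 hs hk1 hk2 hxα
    linarith
  have key2 : 13013000 * (k : ℝ) * (3 * k + 1) * r * Real.exp s < (27 / 2) ^ k := by
    have h1 := Real.exp_lt_exp.mpr key
    rw [Real.exp_add, Real.exp_log hA, mul_comm (k : ℝ), Real.exp_mul, Real.exp_log (by norm_num),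
      Real.rpow_natCast] at h1
    exact h1
  have hb := bin k
  have hC : (27 / 2 : ℝ) ^ k ≤ (3 * (k : ℝ) + 1) * (((3 * k).choose k : ℝ) * 2 ^ k) := by
    have e : (27 / 2 : ℝ) ^ k = (27 / 4) ^ k * 2 ^ k := by
      rw [← mul_pow]
      norm_num
    rw [e, ← mul_assoc]
    exact mul_le_mul_of_nonneg_right hb (by positivity)
  have h31 : (0 : ℝ) < 3 * k + 1 := by positivity
  have hfin : 13013000 * (k : ℝ) * r * Real.exp s < ((3 * k).choose k : ℝ) * 2 ^ k := by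
    refine lt_of_mul_lt_mul_left ?_ h31.le
    calc (3 * (k : ℝ) + 1) * (13013000 * (k : ℝ) * r * Real.exp s)
        = 13013000 * (k : ℝ) * (3 * k + 1) * r * Real.exp s := by ring
      _ < (27 / 2) ^ k := key2
      _ ≤ _ := hC
  have he : 1 ≤ Real.exp s := Real.one_le_exp hs0
  have hG2 : 6 * (k : ℝ) * G + 1 ≤ 13 * k * r * Real.exp s := by
    have h1 : 6 * (k : ℝ) * G ≤ 6 * k * (2 * r * Real.exp s) := mul_le_mul_of_nonneg_left hG (by positivity)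
    have h2 : (1 : ℝ) ≤ k * r * Real.exp s := by
      have h3 : (1 : ℝ) ≤ k * r := by nlinarith
      nlinarith
    linarith
  have e1 : (1 / 1000 : ℝ) / (1 + 1 / 1000) = 1 / 1001 := by norm_num
  have e2 : (((1001 : ℕ) : ℝ) - 1) = 1000 := by norm_num
  rw [e1, e2]
  linarith

/-- MODULE num2. Proof: divide by `r - 1 ≥ 6αβ`; `k ≤ 0.89αβ + 1 ≤ 3.56 β² + 1`; `W/(r-1) ≤ 0.834 + 2/(r-1)`; the root is
`≤ √(0.3344 * 1.001 * 3.56 * 0.834 β² + ...) ≤ 0.9970 β` for `β` large (`1002/3000 = 0.334`); `4k log r/(r-1) ≤ 0.6 log (24β²+1) + 1` (`log x/(x-1)` decreasing, or `log r ≤ 4 r^{1/4}`...).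
(Note `log r ≤ α ≤ 4β` is also available, and `0 < α`; if `αβ` is small then `r ≥ 2` and `α ≥ log 2`.) -/
theorem num_height : ∃ B : ℝ, ∀ α β : ℝ, B ≤ β → 0 < α → α ≤ 4 * β → ∀ r : ℕ, 2 ≤ r → Real.log r ≤ α →
    6 * α * β ≤ (r : ℝ) - 1 → ∀ W : ℝ, 0 ≤ W → W ≤ 0.834 * r + 1 →
    ((r : ℝ) - 1) * Real.log 2 + 4 * (⌈0.89 * α * β⌉₊ : ℝ) * Real.log r +
      √((((1001 : ℕ) : ℝ) + 1) / (3 * (((1001 : ℕ) : ℝ) - 1))) *
        √(((r : ℝ) - 1) * ((1 + 1 / 1000) * ((⌈0.89 * α * β⌉₊ : ℝ) * W))) < ((r : ℝ) - 1) * β := by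
  refine ⟨10 ^ 12, fun α β hβ hα hαβ r hr hrα hR W hW0 hW => ?_⟩
  obtain ⟨k, hk⟩ : ∃ k, k = ⌈0.89 * α * β⌉₊ := ⟨_, rfl⟩
  rw [← hk]
  have hr2 : (2 : ℝ) ≤ r := by exact_mod_cast hr
  have hα1 : 0.69 ≤ α := by
    have h2 := Real.log_two_gt_d9
    have h3 : Real.log 2 ≤ Real.log r := Real.log_le_log (by norm_num) hr2
    norm_num at h2 ⊢
    linarith
  have hβ0 : 0 < β := by linarith
  obtain ⟨x, hx⟩ : ∃ x, x = α * β := ⟨_, rfl⟩
  have hx0 : 6 * 10 ^ 11 ≤ x := by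
    rw [hx]
    norm_num at hα1 hβ ⊢
    nlinarith
  have hx1 : x ≤ 4 * β ^ 2 := by
    rw [hx]
    nlinarith
  rw [show 0.89 * α * β = 0.89 * x by rw [hx]; ring] at hk
  have hkx := aks_num_k x (by linarith)
  rw [← hk] at hkx
  obtain ⟨hk1, hk2⟩ := hkx
  have hk3 : (k : ℝ) ≤ 0.8901 * x := by
    norm_num at hk2 ⊢
    linarith
  have hk0 : (0 : ℝ) < k := by
    norm_num at hk1
    linarith
  obtain ⟨R, hRr⟩ : ∃ R : ℝ, R = (r : ℝ) - 1 := ⟨_, rfl⟩
  have hRx : 6 * x ≤ R := by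
    rw [hRr, hx]
    linarith
  rw [← hRr]
  have hrR : (r : ℝ) = R + 1 := by linarith
  have hR0 : 36 * 10 ^ 11 ≤ R := by linarith
  have hRp : 0 < R := by linarith
  -- the logarithm
  obtain ⟨q, hq⟩ : ∃ q, q = √R := ⟨_, rfl⟩
  have hqR : q ^ 2 = R := by
    rw [hq]
    exact Real.sq_sqrt hRp.le
  have hq0 : 0 ≤ q := hq ▸ Real.sqrt_nonneg _
  have hq1 : 10 ^ 6 ≤ q := by
    by_contra hc
    nlinarith
  have hL : Real.log r ≤ 0.0003 * q := by
    have h1 : Real.log r ≤ Real.log ((2 * q) ^ 2) := Real.log_le_log (by linarith) (by nlinarith)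
    rw [Real.log_pow] at h1
    have h2 := aks_num_log (2 ^ 14) (2 * q) (by norm_num) (by linarith)
    rw [Real.log_pow] at h2
    have h3 := Real.log_two_lt_d9
    norm_num at h1 h2 h3 ⊢
    linarith
  have hL0 : 0 ≤ Real.log r := Real.log_nonneg (by linarith)
  have hkq : (k : ℝ) ≤ 0.73 * (q * β) := by
    have h1 : (k : ℝ) ^ 2 ≤ 0.5329 * (R * β ^ 2) := by
      have h2 : (k : ℝ) ^ 2 ≤ (0.8901 * x) ^ 2 := pow_le_pow_left₀ hk0.le hk3 2
      have h3 : x * x ≤ (R / 6) * (4 * β ^ 2) := mul_le_mul (by linarith) hx1 (by linarith) (by positivity)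
      norm_num at h2 h3 ⊢
      nlinarith
    rw [← pow_le_pow_iff_left₀ hk0.le (by positivity) two_ne_zero]
    calc (k : ℝ) ^ 2 ≤ 0.5329 * (R * β ^ 2) := h1
      _ = (0.73 * (q * β)) ^ 2 := by
        rw [← hqR]
        ring
  have t2 : 4 * (k : ℝ) * Real.log r ≤ 0.001 * (R * β) := by
    have h1 : (k : ℝ) * Real.log r ≤ 0.73 * (q * β) * (0.0003 * q) := mul_le_mul hkq hL hL0 (by positivity)
    have h2 : 0.73 * (q * β) * (0.0003 * q) = 0.000219 * (R * β) := by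
      rw [← hqR]
      ring
    have h3 : 0 ≤ R * β := by positivity
    rw [h2] at h1
    norm_num at h1 ⊢
    linarith
  have t3 : √((((1001 : ℕ) : ℝ) + 1) / (3 * (((1001 : ℕ) : ℝ) - 1))) * √(R * ((1 + 1 / 1000) * ((k : ℝ) * W))) ≤
      0.9965 * (R * β) := by
    rw [← Real.sqrt_mul (by norm_num), Real.sqrt_le_iff]
    refine ⟨by positivity, ?_⟩
    have hW' : W ≤ 0.8341 * R := by
      rw [hrR] at hW
      norm_num at hW ⊢
      linarith
    have hk4 : (k : ℝ) ≤ 3.5604 * β ^ 2 := by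
      norm_num at hk3 ⊢
      linarith
    have h1 : (k : ℝ) * W ≤ 3.5604 * β ^ 2 * (0.8341 * R) := mul_le_mul hk4 hW' hW0 (by positivity)
    have e : (((1001 : ℕ) : ℝ) + 1) / (3 * (((1001 : ℕ) : ℝ) - 1)) * (R * ((1 + 1 / 1000) * ((k : ℝ) * W))) =
        0.334334 * R * ((k : ℝ) * W) := by
      norm_num
      ring
    rw [e]
    calc 0.334334 * R * ((k : ℝ) * W) ≤ 0.334334 * R * (3.5604 * β ^ 2 * (0.8341 * R)) :=
          mul_le_mul_of_nonneg_left h1 (by positivity)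
      _ ≤ (0.9965 * (R * β)) ^ 2 := by
        have h2 : 0 ≤ R ^ 2 * β ^ 2 := by positivity
        norm_num
        nlinarith
  have t1 : R * Real.log 2 ≤ 0.7 * R := by
    have h3 := Real.log_two_lt_d9
    norm_num at h3 ⊢
    nlinarith
  have t4 : 0.7 * R < 0.0025 * (R * β) := by
    norm_num
    nlinarith
  norm_num at t1 t2 t4
  norm_num at t3 ⊢
  linarith

/-- MODULE num3. `2 * (3 k) ≤ 6αβ` for `αβ` large, `k = ⌈0.89αβ⌉`. -/
theorem num_card : ∃ B : ℝ, ∀ α β : ℝ, B ≤ β → Real.log 2 ≤ α →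
    2 * (3 * (⌈0.89 * α * β⌉₊ : ℝ)) ≤ 6 * α * β := by
  refine ⟨20, fun α β hβ hα => ?_⟩
  have h2 := Real.log_two_gt_d9
  have hα' : 0.69 ≤ α := by
    norm_num at h2 ⊢
    linarith
  have hab : 13 ≤ α * β := by
    norm_num at hα'
    nlinarith
  have hk := Nat.ceil_lt_add_one (show (0 : ℝ) ≤ 0.89 * α * β by
    norm_num
    nlinarith)
  norm_num at hk ⊢
  nlinarith

end Aks1
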