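import Pool.Agent.Aks1.Defs

set_option autoImplicit false

/-! # Module Var: the mean square of `log |1 - ζ^b|` (limit π²/12 = 0.8225) -/

namespace Aks1

private theorem var23_ell (r : ℕ) [Fact r.Prime] (b : ℕ) (hb : b < r) :
    ell r ((b : ℕ) : ZMod r) = Real.log (2 * Real.sin (Real.pi * b / r)) := by
  have hr : 0 < r := (Fact.out : r.Prime).pos
  have hr' : (0 : ℝ) < r := by exact_mod_cast hr
  unfold ell
  have h1 : (ZMod.stdAddChar ((b : ℕ) : ZMod r) : ℂ) = Complex.exp (Complex.I * ((2 * Real.pi * b / r : ℝ) : ℂ)) := by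
    have h2 := ZMod.stdAddChar_coe (N := r) (b : ℤ)
    rw [Int.cast_natCast] at h2
    rw [h2]
    push_cast
    ring_nf
  rw [h1, Complex.norm_exp_I_mul_ofReal_sub_one]
  have h3 : 2 * Real.pi * b / r / 2 = Real.pi * b / r := by ring
  rw [h3]
  have h4 : 0 ≤ Real.sin (Real.pi * b / r) := by
    refine Real.sin_nonneg_of_nonneg_of_le_pi (by positivity) ?_
    rw [div_le_iff₀ hr']
    have h5 : (b : ℝ) ≤ r := by exact_mod_cast hb.le
    exact mul_le_mul_of_nonneg_left h5 Real.pi_pos.le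
  rw [Real.norm_of_nonneg (by positivity)]

/-- MODULE var1. `ell r b = log (2 sin (π b / r))`, and the sum over the units is symmetric. -/
theorem sum_ell_sq_eq (r : ℕ) [Fact r.Prime] :
    ∑ b : (ZMod r)ˣ, ell r (b : ZMod r) ^ 2 =
      ∑ b ∈ Finset.Ico 1 r, Real.log (2 * Real.sin (Real.pi * b / r)) ^ 2 := by
  have hr : 0 < r := (Fact.out : r.Prime).pos
  have h0 : ell r (0 : ZMod r) = 0 := by
    unfold ell
    rw [AddChar.map_zero_eq_one, sub_self, norm_zero, Real.log_zero]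
  have h1 : ∑ b : (ZMod r)ˣ, ell r (b : ZMod r) ^ 2 = ∑ b : ZMod r, ell r b ^ 2 := by
    refine Fintype.sum_of_injective (fun b : (ZMod r)ˣ => (b : ZMod r)) Units.val_injective _ _ (fun b hb => ?_)
      (fun b => rfl)
    have h1 : b = 0 := by
      by_contra hc
      exact hb ⟨Units.mk0 b hc, rfl⟩
    rw [h1, h0]
    ring
  have h2 : ∑ b : ZMod r, ell r b ^ 2 = ∑ k ∈ Finset.range r, ell r ((k : ℕ) : ZMod r) ^ 2 := by
    refine Finset.sum_nbij' (fun b : ZMod r => b.val) (fun k : ℕ => (k : ZMod r)) ?_ ?_ ?_ ?_ ?_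
    · intro b _
      exact Finset.mem_range.2 (ZMod.val_lt b)
    · intro k _
      exact Finset.mem_univ _
    · intro b _
      exact ZMod.natCast_zmod_val b
    · intro k hk
      exact ZMod.val_natCast_of_lt (Finset.mem_range.1 hk)
    · intro b _
      rw [ZMod.natCast_zmod_val]
  rw [h1, h2]
  have h3 : Finset.range r = insert 0 (Finset.Ico 1 r) := by
    ext k
    rw [Finset.mem_range, Finset.mem_insert, Finset.mem_Ico]
    omega
  rw [h3, Finset.sum_insert (by rw [Finset.mem_Ico]; omega), Nat.cast_zero, h0]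
  have h4 : ∑ x ∈ Finset.Ico 1 r, ell r ((x : ℕ) : ZMod r) ^ 2 =
      ∑ b ∈ Finset.Ico 1 r, Real.log (2 * Real.sin (Real.pi * b / r)) ^ 2 := by
    refine Finset.sum_congr rfl (fun b hb => ?_)
    rw [var23_ell r b (Finset.mem_Ico.1 hb).2]
  rw [h4]
  ring

/-- the upper bound for `- log (2 sin π x)` -/
private noncomputable def var23_u (x : ℝ) : ℝ := -Real.log (2 * Real.pi * x) + 7 / 4 * x ^ 2

/-- a primitive of `var23_u ^ 2` -/
private noncomputable def var23_G (x : ℝ) : ℝ :=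
  x * (Real.log (2 * Real.pi * x) ^ 2 - 2 * Real.log (2 * Real.pi * x) + 2) -
    7 / 2 * (x ^ 3 * Real.log (2 * Real.pi * x) / 3 - x ^ 3 / 9) + 49 / 80 * x ^ 5

private theorem var23_bounds {x : ℝ} (h0 : 0 < x) (hx : x ≤ 1 / 6) :
    0 ≤ -Real.log (2 * Real.sin (Real.pi * x)) ∧ -Real.log (2 * Real.sin (Real.pi * x)) ≤ var23_u x := by
  have hpi := Real.pi_gt_d6
  have hpi' := Real.pi_lt_d6
  have hpi0 := Real.pi_pos
  have hpx : 0 < Real.pi * x := by positivity
  have hsin := Real.sin_gt_sub_cube hpx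
  have hpi2 : Real.pi ^ 2 < 9.8697 := by nlinarith
  have hx2 : x ^ 2 ≤ 1 / 36 := by nlinarith
  have hx20 : 0 < x ^ 2 := by positivity
  obtain ⟨y, hy⟩ : ∃ y, y = Real.pi ^ 2 * x ^ 2 / 6 := ⟨_, rfl⟩
  have hy0 : 0 < y := by rw [hy]; positivity
  have hpx2 : Real.pi ^ 2 * x ^ 2 ≤ 9.8697 * (1 / 36) := by
    exact mul_le_mul hpi2.le hx2 hx20.le (by norm_num)
  have hy1 : y ≤ 0.0457 := by
    rw [hy]
    linarith
  have h1y : 0 < 1 - y := by linarith
  have hfac : 2 * Real.pi * x * (1 - y) ≤ 2 * Real.sin (Real.pi * x) := by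
    have h1 : 2 * Real.pi * x * (1 - y) = 2 * (Real.pi * x - (Real.pi * x) ^ 3 / 6) := by
      rw [hy]
      ring
    rw [h1]
    linarith
  have hpos : 0 < 2 * Real.pi * x * (1 - y) := by positivity
  constructor
  · have h1 : Real.sin (Real.pi * x) ≤ Real.sin (Real.pi / 6) := by
      refine Real.sin_le_sin_of_le_of_le_pi_div_two (by linarith) (by linarith) ?_
      nlinarith
    rw [Real.sin_pi_div_six] at h1
    have h2 : Real.log (2 * Real.sin (Real.pi * x)) ≤ 0 :=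
      Real.log_nonpos (by linarith) (by linarith)
    linarith
  · unfold var23_u
    have h1 : Real.log (2 * Real.pi * x * (1 - y)) ≤ Real.log (2 * Real.sin (Real.pi * x)) :=
      Real.log_le_log hpos hfac
    rw [Real.log_mul (by positivity) h1y.ne'] at h1
    have h2 : 1 - (1 - y)⁻¹ ≤ Real.log (1 - y) := Real.one_sub_inv_le_log_of_pos h1y
    have h3 : (1 - y)⁻¹ - 1 ≤ 7 / 4 * x ^ 2 := by
      have h4 : (1 - y)⁻¹ - 1 = y / (1 - y) := by
        field_simp
        ring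
      rw [h4, div_le_iff₀ h1y]
      have h5 : y ≤ 1.6450 * x ^ 2 := by
        rw [hy]
        nlinarith
      nlinarith
    linarith

private theorem var23_u_anti {z x : ℝ} (h0 : 0 < z) (hzx : z ≤ x) (hx : x ≤ 1 / 6) : var23_u x ≤ var23_u z := by
  have hx0 : 0 < x := lt_of_lt_of_le h0 hzx
  unfold var23_u
  rw [Real.log_mul (by positivity) hx0.ne', Real.log_mul (by positivity) h0.ne']
  have h1 : 1 - (x / z)⁻¹ ≤ Real.log (x / z) := Real.one_sub_inv_le_log_of_pos (by positivity)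
  rw [Real.log_div hx0.ne' h0.ne', inv_div] at h1
  have h2 : 7 / 4 * (x ^ 2 - z ^ 2) ≤ 1 - z / x := by
    have h3 : 1 - z / x = (x - z) / x := by
      field_simp
    rw [h3, le_div_iff₀ hx0]
    have h4 : 7 / 4 * (x + z) * x ≤ 1 := by nlinarith
    nlinarith [mul_le_mul_of_nonneg_left h4 (sub_nonneg.2 hzx)]
  linarith

private theorem var23_G_deriv {x : ℝ} (h0 : 0 < x) : HasDerivAt var23_G (var23_u x ^ 2) x := by
  have hL : HasDerivAt (fun x : ℝ => Real.log (2 * Real.pi * x)) (1 / x) x := by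
    have h1 : HasDerivAt (fun x : ℝ => 2 * Real.pi * x) (2 * Real.pi) x := by
      simpa using (hasDerivAt_id x).const_mul (2 * Real.pi)
    have h2 := h1.log (by positivity)
    refine h2.congr_deriv ?_
    field_simp
  have hid : HasDerivAt (fun x : ℝ => x) 1 x := hasDerivAt_id x
  have h1 : HasDerivAt (fun x : ℝ => x * (Real.log (2 * Real.pi * x) ^ 2 - 2 * Real.log (2 * Real.pi * x) + 2))
      (1 * (Real.log (2 * Real.pi * x) ^ 2 - 2 * Real.log (2 * Real.pi * x) + 2) +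
        x * (2 * Real.log (2 * Real.pi * x) * (1 / x) - 2 * (1 / x))) x := by
    refine (hid.mul (((hL.pow 2).sub (hL.const_mul 2)).add_const 2)).congr_deriv ?_
    simp
  have h2 : HasDerivAt (fun x : ℝ => 7 / 2 * (x ^ 3 * Real.log (2 * Real.pi * x) / 3 - x ^ 3 / 9))
      (7 / 2 * ((3 * x ^ 2 * Real.log (2 * Real.pi * x) + x ^ 3 * (1 / x)) / 3 - 3 * x ^ 2 / 9)) x := by
    have h3 : HasDerivAt (fun x : ℝ => x ^ 3) (3 * x ^ 2) x := by
      simpa using hasDerivAt_pow 3 x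
    exact (((h3.mul hL).div_const 3).sub (h3.div_const 9)).const_mul (7 / 2)
  have h4 : HasDerivAt (fun x : ℝ => 49 / 80 * x ^ 5) (49 / 80 * (5 * x ^ 4)) x := by
    have h3 : HasDerivAt (fun x : ℝ => x ^ 5) (5 * x ^ 4) x := by
      simpa using hasDerivAt_pow 5 x
    exact h3.const_mul (49 / 80)
  refine ((h1.sub h2).add h4).congr_deriv ?_
  unfold var23_u
  field_simp
  ring

private theorem var23_step {y x : ℝ} (h0 : 0 < y) (hyx : y ≤ x) (hx : x ≤ 1 / 6) :
    var23_u x ^ 2 * (x - y) ≤ var23_G x - var23_G y := by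
  have hpos : ∀ z ∈ Set.Icc y x, 0 < z := fun z hz => lt_of_lt_of_le h0 hz.1
  refine (convex_Icc y x).mul_sub_le_image_sub_of_le_deriv
    (fun z hz => (var23_G_deriv (hpos z hz)).continuousAt.continuousWithinAt)
    (fun z hz => (var23_G_deriv (hpos z (interior_subset hz))).differentiableAt.differentiableWithinAt)
    (fun z hz => ?_) y (Set.left_mem_Icc.2 hyx) x (Set.right_mem_Icc.2 hyx) hyx
  have hz' := interior_subset hz
  have hz0 := hpos z hz'
  rw [(var23_G_deriv hz0).deriv]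
  have h1 := var23_u_anti hz0 hz'.2 hx
  have h2 : 0 ≤ var23_u x :=
    (var23_bounds (lt_of_lt_of_le hz0 hz'.2) hx).1.trans (var23_bounds (lt_of_lt_of_le hz0 hz'.2) hx).2
  exact pow_le_pow_left₀ h2 h1 2

private theorem var23_log_le {x : ℝ} (h0 : 0 < x) (hx : x ≤ 1 / 6) : Real.log (2 * Real.pi * x) ≤ 0.05 := by
  have hpi' := Real.pi_lt_d6
  have h1 := Real.log_le_sub_one_of_pos (show 0 < 2 * Real.pi * x by positivity)
  have h2 : 2 * Real.pi * x ≤ 1.05 := by nlinarith [Real.pi_pos]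
  linarith

private theorem var23_first {x : ℝ} (h0 : 0 < x) (hx : x ≤ 1 / 6) : var23_u x ^ 2 * x ≤ var23_G x := by
  have hl := var23_log_le h0 hx
  unfold var23_u var23_G
  obtain ⟨L, hL⟩ : ∃ L, L = Real.log (2 * Real.pi * x) := ⟨_, rfl⟩
  rw [← hL] at hl ⊢
  have hx2 : x ^ 2 ≤ 1 / 36 := by nlinarith
  have hx20 : 0 ≤ x ^ 2 := by positivity
  have h1 : x * (L ^ 2 - 2 * L + 2) - 7 / 2 * (x ^ 3 * L / 3 - x ^ 3 / 9) + 49 / 80 * x ^ 5 -
      (-L + 7 / 4 * x ^ 2) ^ 2 * x =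
      x * (2 - 2 * L * (1 - 7 / 6 * x ^ 2) + 7 / 18 * x ^ 2 - 49 / 20 * (x ^ 2 * x ^ 2)) := by ring
  have h2 : L * (1 - 7 / 6 * x ^ 2) ≤ 0.05 := by
    have h3 : 0 ≤ 1 - 7 / 6 * x ^ 2 := by linarith
    calc L * (1 - 7 / 6 * x ^ 2) ≤ 0.05 * (1 - 7 / 6 * x ^ 2) := mul_le_mul_of_nonneg_right hl h3
      _ ≤ 0.05 := by linarith
  have h4 : x ^ 2 * x ^ 2 ≤ 1 / 36 * (1 / 36) := mul_le_mul hx2 hx2 hx20 (by norm_num)
  have h5 : 0 ≤ 2 - 2 * L * (1 - 7 / 6 * x ^ 2) + 7 / 18 * x ^ 2 - 49 / 20 * (x ^ 2 * x ^ 2) := by nlinarith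
  have h6 := mul_nonneg h0.le h5
  linarith

private theorem var23_G_six : var23_G (1 / 6) ≤ 0.3211 := by
  have hpi := Real.pi_gt_d6
  have hl := var23_log_le (show (0 : ℝ) < 1 / 6 by norm_num) le_rfl
  have h1 : 1 - (2 * Real.pi * (1 / 6))⁻¹ ≤ Real.log (2 * Real.pi * (1 / 6)) :=
    Real.one_sub_inv_le_log_of_pos (by positivity)
  have h2 : (2 * Real.pi * (1 / 6))⁻¹ ≤ 0.955 := by
    rw [inv_le_comm₀ (by positivity) (by norm_num)]
    have : (0.955 : ℝ)⁻¹ ≤ 1.0472 := by norm_num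
    nlinarith
  unfold var23_G
  obtain ⟨L, hL⟩ : ∃ L, L = Real.log (2 * Real.pi * (1 / 6)) := ⟨_, rfl⟩
  rw [← hL] at hl h1 ⊢
  have h3 : 0.045 ≤ L := by linarith
  nlinarith [mul_nonneg (sub_nonneg.2 h3) (sub_nonneg.2 hl)]

private theorem var23_G_mono {y x : ℝ} (h0 : 0 < y) (hyx : y ≤ x) (hx : x ≤ 1 / 6) : var23_G y ≤ var23_G x := by
  have h1 := var23_step h0 hyx hx
  have h2 : 0 ≤ var23_u x ^ 2 * (x - y) := mul_nonneg (sq_nonneg _) (sub_nonneg.2 hyx)
  linarith

private theorem var23_sum (r : ℕ) (hr : 1 ≤ r) : ∀ m : ℕ, 6 * m ≤ r →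
    ∑ i ∈ Finset.range m, Real.log (2 * Real.sin (Real.pi * ((i + 1 : ℕ) : ℝ) / r)) ^ 2 ≤ r * var23_G (m / r) := by
  have hr0 : (0 : ℝ) < r := by exact_mod_cast hr
  intro m
  induction m with
  | zero =>
    intro _
    simp [var23_G]
  | succ m ih =>
    intro hm
    have ih' := ih (by omega)
    rw [Finset.sum_range_succ]
    obtain ⟨x, hx⟩ : ∃ x : ℝ, x = ((m + 1 : ℕ) : ℝ) / r := ⟨_, rfl⟩
    have hx0 : 0 < x := by
      rw [hx]
      positivity
    have hx6 : x ≤ 1 / 6 := by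
      rw [hx, div_le_iff₀ hr0]
      have h1 : ((6 * (m + 1) : ℕ) : ℝ) ≤ r := by exact_mod_cast hm
      push_cast at h1 ⊢
      linarith
    have hterm : Real.log (2 * Real.sin (Real.pi * ((m + 1 : ℕ) : ℝ) / r)) ^ 2 ≤ var23_u x ^ 2 := by
      rw [mul_div_assoc, ← hx]
      obtain ⟨h1, h2⟩ := var23_bounds hx0 hx6
      have h3 : Real.log (2 * Real.sin (Real.pi * x)) ^ 2 = (-Real.log (2 * Real.sin (Real.pi * x))) ^ 2 := by ring
      rw [h3]
      exact pow_le_pow_left₀ h1 h2 2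
    have hinc : var23_u x ^ 2 ≤ r * (var23_G x - var23_G (m / r)) := by
      rcases Nat.eq_zero_or_pos m with h | h
      · subst h
        have h1 := var23_first hx0 hx6
        have h2 : var23_G (((0 : ℕ) : ℝ) / r) = 0 := by simp [var23_G]
        rw [h2, sub_zero]
        have h3 : x = 1 / r := by
          rw [hx]
          simp
        have h4 : (r : ℝ) * (var23_u x ^ 2 * x) = var23_u x ^ 2 := by
          rw [h3]
          field_simp
        rw [← h4]
        exact mul_le_mul_of_nonneg_left h1 hr0.le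
      · have hy0 : (0 : ℝ) < (m : ℝ) / r := by
          have : (0 : ℝ) < m := by exact_mod_cast h
          positivity
        have hxy : x - (m : ℝ) / r = 1 / r := by
          rw [hx]
          push_cast
          ring
        have hyx : (m : ℝ) / r ≤ x := by
          have : (0 : ℝ) ≤ 1 / r := by positivity
          linarith
        have h1 := var23_step hy0 hyx hx6
        rw [hxy] at h1
        have h4 : (r : ℝ) * (var23_u x ^ 2 * (1 / r)) = var23_u x ^ 2 := by
          field_simp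
        rw [← h4]
        exact mul_le_mul_of_nonneg_left h1 hr0.le
    rw [← hx]
    have h5 : (r : ℝ) * (var23_G x - var23_G (m / r)) = r * var23_G x - r * var23_G (m / r) := by ring
    linarith

/-- MODULE var2 (the part near 0). Proof: for `0 < x ≤ 1/6`: `sin t ≥ t - t^3/4` (`Real.sin_gt_sub_cube`), so `0 ≤ - log (2 sin π x) ≤
- log (2 π x) + 2.65 x^2 =: u(x)` (`-log (1-y) ≤ y/(1-y)`, `y = (π x)^2/4 ≤ 0.0686`), `u` decreasing. Comparison of the sum with
the integral: `∑_{b ≤ m} (1/r) u(b/r)^2 ≤ ∫_0^{m/r} u^2 = G(m/r)`, `G(x) = x (L^2 - 2 L + 2) + 5.3 (- L x^3/3 + x^3/9) + 7.03 x^5/5`,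
`L = log (2 π x)`, (increments: `G(b/r) - G((b-1)/r) ≥ u(b/r)^2 / r`, mean value theorem for `b ≥ 2`, directly for `b = 1`), `G(1/6) ≤ 0.3210`
and `G` increasing. (Any other proof of the bound is welcome; the true value of the integral is 0.3196, and 1/3 is not enough.) -/
theorem sum_near (r : ℕ) (hr : 1 ≤ r) :
    ∑ b ∈ (Finset.Ico 1 r).filter (fun b => 6 * b ≤ r), Real.log (2 * Real.sin (Real.pi * b / r)) ^ 2 ≤
      0.3211 * r := by
  have hr0 : (0 : ℝ) < r := by exact_mod_cast hr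
  have h1 : (Finset.Ico 1 r).filter (fun b => 6 * b ≤ r) = (Finset.range (r / 6)).image (fun i => i + 1) := by
    ext b
    rw [Finset.mem_filter, Finset.mem_Ico, Finset.mem_image]
    constructor
    · rintro ⟨⟨hb1, hb2⟩, hb3⟩
      exact ⟨b - 1, Finset.mem_range.2 (by omega), by omega⟩
    · rintro ⟨i, hi, rfl⟩
      have := Finset.mem_range.1 hi
      omega
  rw [h1, Finset.sum_image (fun a _ b _ h => by simpa using h)]
  refine (var23_sum r hr (r / 6) (by omega)).trans ?_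
  rw [mul_comm]
  refine mul_le_mul_of_nonneg_right ?_ hr0.le
  rcases Nat.eq_zero_or_pos (r / 6) with h | h
  · rw [h]
    have h2 : var23_G (((0 : ℕ) : ℝ) / r) = 0 := by simp [var23_G]
    rw [h2]
    norm_num
  · refine (var23_G_mono ?_ ?_ le_rfl).trans var23_G_six
    · have : (0 : ℝ) < ((r / 6 : ℕ) : ℝ) := by exact_mod_cast h
      positivity
    · rw [div_le_iff₀ hr0]
      have h3 : ((6 * (r / 6) : ℕ) : ℝ) ≤ r := by
        have : 6 * (r / 6) ≤ r := by omega
        exact_mod_cast this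
      push_cast at h3
      linarith

/-- the upper bound for `log (2 cos π y)` -/
private noncomputable def var23_q (y : ℝ) : ℝ := Real.log 2 - Real.pi ^ 2 / 2 * y ^ 2

/-- a primitive of `var23_q ^ 2` -/
private noncomputable def var23_P (y : ℝ) : ℝ :=
  Real.log 2 ^ 2 * y - Real.log 2 * Real.pi ^ 2 * y ^ 3 / 3 + Real.pi ^ 4 * y ^ 5 / 20

private theorem var23_cos {t : ℝ} (h0 : 0 ≤ t) (ht : t < Real.pi / 2) : Real.log (Real.cos t) ≤ -(t ^ 2 / 2) := by
  have hpi := Real.pi_pos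
  have hcos : ∀ z ∈ Set.Ico 0 (Real.pi / 2), 0 < Real.cos z := fun z hz =>
    Real.cos_pos_of_mem_Ioo ⟨by linarith [hz.1], hz.2⟩
  have hder : ∀ z ∈ Set.Ico 0 (Real.pi / 2),
      HasDerivAt (fun z => Real.log (Real.cos z) + z ^ 2 / 2) (-Real.tan z + z) z := by
    intro z hz
    have h1 := (Real.hasDerivAt_cos z).log (hcos z hz).ne'
    have h2 : HasDerivAt (fun z : ℝ => z ^ 2 / 2) z z := by
      have h3 : HasDerivAt (fun x : ℝ => x ^ 2) (2 * z) z := by
        simpa using hasDerivAt_pow 2 z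
      refine (h3.div_const 2).congr_deriv ?_
      ring
    refine (h1.add h2).congr_deriv ?_
    rw [Real.tan_eq_sin_div_cos]
    ring
  have hanti : AntitoneOn (fun z => Real.log (Real.cos z) + z ^ 2 / 2) (Set.Ico 0 (Real.pi / 2)) := by
    refine antitoneOn_of_deriv_nonpos (convex_Ico 0 (Real.pi / 2))
      (fun z hz => (hder z hz).continuousAt.continuousWithinAt)
      (fun z hz => (hder z (interior_subset hz)).differentiableAt.differentiableWithinAt) (fun z hz => ?_)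
    have hz' := interior_subset hz
    rw [(hder z hz').deriv]
    have := Real.le_tan hz'.1 hz'.2
    linarith
  have h3 := hanti ⟨le_rfl, by linarith⟩ ⟨h0, ht⟩ h0
  simp only [Real.cos_zero, Real.log_one] at h3
  linarith

private theorem var23_mid_bounds {x : ℝ} (hx1 : 1 / 6 ≤ x) (hx2 : x ≤ 1 / 2) :
    0 ≤ Real.log (2 * Real.sin (Real.pi * x)) ∧ Real.log (2 * Real.sin (Real.pi * x)) ≤ var23_q (1 / 2 - x) := by
  have hpi := Real.pi_pos
  have h1 : Real.sin (Real.pi * x) = Real.cos (Real.pi * (1 / 2 - x)) := by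
    rw [← Real.cos_pi_div_two_sub]
    ring_nf
  have h2 : (0 : ℝ) ≤ Real.pi * (1 / 2 - x) := by
    have : 0 ≤ 1 / 2 - x := by linarith
    positivity
  have h3 : Real.pi * (1 / 2 - x) < Real.pi / 2 := by nlinarith
  have h4 : Real.sin (Real.pi / 6) ≤ Real.sin (Real.pi * x) := by
    refine Real.sin_le_sin_of_le_of_le_pi_div_two (by linarith) ?_ ?_
    · nlinarith
    · nlinarith
  rw [Real.sin_pi_div_six] at h4
  constructor
  · exact Real.log_nonneg (by linarith)
  · rw [Real.log_mul (by norm_num) (by linarith), h1]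
    have h5 := var23_cos h2 h3
    unfold var23_q
    have h6 : (Real.pi * (1 / 2 - x)) ^ 2 / 2 = Real.pi ^ 2 / 2 * (1 / 2 - x) ^ 2 := by ring
    linarith

private theorem var23_P_deriv (y : ℝ) : HasDerivAt var23_P (var23_q y ^ 2) y := by
  have h3 : HasDerivAt (fun x : ℝ => x ^ 3) (3 * y ^ 2) y := by
    simpa using hasDerivAt_pow 3 y
  have h5 : HasDerivAt (fun x : ℝ => x ^ 5) (5 * y ^ 4) y := by
    simpa using hasDerivAt_pow 5 y
  have h1 : HasDerivAt (fun x : ℝ => Real.log 2 ^ 2 * x) (Real.log 2 ^ 2) y := by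
    simpa using (hasDerivAt_id y).const_mul (Real.log 2 ^ 2)
  refine ((h1.sub ((h3.const_mul (Real.log 2 * Real.pi ^ 2)).div_const 3)).add
    ((h5.const_mul (Real.pi ^ 4)).div_const 20)).congr_deriv ?_
  unfold var23_q
  ring

private theorem var23_q_nonneg {y : ℝ} (h0 : 0 ≤ y) (hy : y ≤ 1 / 3) : 0 ≤ var23_q y := by
  have hpi' := Real.pi_lt_d6
  have hlog := Real.log_two_gt_d9
  have hpi2 : Real.pi ^ 2 < 9.8697 := by nlinarith [Real.pi_pos]
  have hy2 : y ^ 2 ≤ 1 / 9 := by nlinarith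
  have h1 : Real.pi ^ 2 * y ^ 2 ≤ 9.8697 * (1 / 9) := mul_le_mul hpi2.le hy2 (by positivity) (by norm_num)
  unfold var23_q
  linarith

private theorem var23_mid_step {a b : ℝ} (h0 : 0 ≤ a) (hab : a ≤ b) (hb : b ≤ 1 / 3) :
    var23_q b ^ 2 * (b - a) ≤ var23_P b - var23_P a := by
  refine (convex_Icc a b).mul_sub_le_image_sub_of_le_deriv
    (fun z _ => (var23_P_deriv z).continuousAt.continuousWithinAt)
    (fun z _ => (var23_P_deriv z).differentiableAt.differentiableWithinAt)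
    (fun z hz => ?_) a (Set.left_mem_Icc.2 hab) b (Set.right_mem_Icc.2 hab) hab
  have hz' := interior_subset hz
  rw [(var23_P_deriv z).deriv]
  have h1 : var23_q b ≤ var23_q z := by
    unfold var23_q
    have h2 : z ^ 2 ≤ b ^ 2 := pow_le_pow_left₀ (h0.trans hz'.1) hz'.2 2
    have h3 : 0 ≤ Real.pi ^ 2 / 2 * (b ^ 2 - z ^ 2) := mul_nonneg (by positivity) (sub_nonneg.2 h2)
    linarith
  exact pow_le_pow_left₀ (var23_q_nonneg (h0.trans hab) hb) h1 2

private theorem var23_P_third : var23_P (1 / 3) ≤ 0.0958 := by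
  have hpi := Real.pi_gt_d6
  have hpi' := Real.pi_lt_d6
  have hl := Real.log_two_gt_d9
  have hl' := Real.log_two_lt_d9
  have hp1 : 9.8696 ≤ Real.pi ^ 2 := by nlinarith
  have hp2 : Real.pi ^ 2 ≤ 9.86961 := by nlinarith
  unfold var23_P
  have h1 : Real.log 2 ^ 2 ≤ 0.480454 := by nlinarith
  have h2 : 6.84108 ≤ Real.log 2 * Real.pi ^ 2 := by nlinarith
  have h3 : Real.pi ^ 4 ≤ 97.4093 := by
    have h4 : Real.pi ^ 4 = Real.pi ^ 2 * Real.pi ^ 2 := by ring
    rw [h4]
    nlinarith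
  linarith

private theorem var23_mid_sum (r : ℕ) (hr : 1 ≤ r) (a : ℕ) (ha : r ≤ 6 * a) : ∀ n : ℕ, 2 * (a + n) ≤ r →
    ∑ i ∈ Finset.range n, Real.log (2 * Real.sin (Real.pi * ((a + i : ℕ) : ℝ) / r)) ^ 2 ≤
      r * (var23_P (1 / 2 - a / r) - var23_P (1 / 2 - ((a + n : ℕ) : ℝ) / r)) := by
  have hr0 : (0 : ℝ) < r := by exact_mod_cast hr
  intro n
  induction n with
  | zero =>
    intro _
    simp
  | succ n ih =>
    intro hn
    have ih' := ih (by omega)
    rw [Finset.sum_range_succ]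
    obtain ⟨x, hx⟩ : ∃ x : ℝ, x = ((a + n : ℕ) : ℝ) / r := ⟨_, rfl⟩
    have hx1 : 1 / 6 ≤ x := by
      rw [hx, le_div_iff₀ hr0]
      have h1 : (r : ℝ) ≤ ((6 * a : ℕ) : ℝ) := by exact_mod_cast ha
      push_cast at h1 ⊢
      have h2 : (0 : ℝ) ≤ n := Nat.cast_nonneg n
      linarith
    have hx' : ((a + (n + 1) : ℕ) : ℝ) / r = x + 1 / r := by
      rw [hx]
      push_cast
      ring
    have hx2 : x + 1 / r ≤ 1 / 2 := by
      rw [← hx', div_le_iff₀ hr0]
      have h1 : ((2 * (a + (n + 1)) : ℕ) : ℝ) ≤ r := by exact_mod_cast hn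
      push_cast at h1 ⊢
      linarith
    have hr1 : (0 : ℝ) < 1 / r := by positivity
    have hterm : Real.log (2 * Real.sin (Real.pi * ((a + n : ℕ) : ℝ) / r)) ^ 2 ≤ var23_q (1 / 2 - x) ^ 2 := by
      rw [mul_div_assoc, ← hx]
      obtain ⟨h1, h2⟩ := var23_mid_bounds hx1 (by linarith)
      exact pow_le_pow_left₀ h1 h2 2
    have hinc : var23_q (1 / 2 - x) ^ 2 ≤ r * (var23_P (1 / 2 - x) - var23_P (1 / 2 - (x + 1 / r))) := by
      have h1 := var23_mid_step (a := 1 / 2 - (x + 1 / r)) (b := 1 / 2 - x) (by linarith) (by linarith) (by linarith)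
      have h2 : 1 / 2 - x - (1 / 2 - (x + 1 / r)) = 1 / r := by ring
      rw [h2] at h1
      have h4 : (r : ℝ) * (var23_q (1 / 2 - x) ^ 2 * (1 / r)) = var23_q (1 / 2 - x) ^ 2 := by
        field_simp
      rw [← h4]
      exact mul_le_mul_of_nonneg_left h1 hr0.le
    rw [hx']
    rw [← hx] at ih'
    have h5 : (r : ℝ) * (var23_P (1 / 2 - a / r) - var23_P (1 / 2 - (x + 1 / r))) =
        r * (var23_P (1 / 2 - a / r) - var23_P (1 / 2 - x)) +
          r * (var23_P (1 / 2 - x) - var23_P (1 / 2 - (x + 1 / r))) := by ring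
    linarith

private theorem var23_last {x : ℝ} (hx1 : 1 / 6 ≤ x) (hx2 : x ≤ 1 / 2) :
    Real.log (2 * Real.sin (Real.pi * x)) ^ 2 ≤ 1 / 2 := by
  obtain ⟨h1, h2⟩ := var23_mid_bounds hx1 hx2
  have h3 : var23_q (1 / 2 - x) ≤ Real.log 2 := by
    unfold var23_q
    have : 0 ≤ Real.pi ^ 2 / 2 * (1 / 2 - x) ^ 2 := by positivity
    linarith
  have hl' := Real.log_two_lt_d9
  have h4 : Real.log (2 * Real.sin (Real.pi * x)) ≤ 0.7 := by linarith
  nlinarith

/-- MODULE var3 (the middle part). Proof: for `1/6 ≤ x ≤ 1/2`, `y = 1/2 - x`: `1 ≤ 2 sin π x = 2 cos π y ≤ 2 exp (-(π y)^2/2)`, so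
`0 ≤ log (2 sin π x) ≤ log 2 - (π^2/2) y^2 =: q(y)`, `q ≥ 0` decreasing in `y` on `[0,1/3]`, and
`∫_0^{1/3} q^2 = (log 2)^2/3 - π^2 log 2/81 + π^4/4860 ≤ 0.0958`; sum versus integral (one extra term ≤ (log 2)^2 < 1/2). -/
theorem sum_mid (r : ℕ) (hr : 1 ≤ r) :
    ∑ b ∈ (Finset.Ico 1 r).filter (fun b => r < 6 * b ∧ 2 * b ≤ r), Real.log (2 * Real.sin (Real.pi * b / r)) ^ 2 ≤
      0.0958 * r + 1 / 2 := by
  have hr0 : (0 : ℝ) < r := by exact_mod_cast hr
  obtain ⟨a, ha⟩ : ∃ a, a = r / 6 + 1 := ⟨_, rfl⟩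
  rcases Nat.lt_or_ge (r / 2) a with h | h
  · have h1 : (Finset.Ico 1 r).filter (fun b => r < 6 * b ∧ 2 * b ≤ r) = ∅ := by
      ext b
      rw [Finset.mem_filter, Finset.mem_Ico]
      constructor
      · rintro ⟨_, hb1, hb2⟩
        omega
      · intro hb
        simp at hb
    rw [h1, Finset.sum_empty]
    positivity
  · have h1 : (Finset.Ico 1 r).filter (fun b => r < 6 * b ∧ 2 * b ≤ r) =
        (Finset.range (r / 2 - a + 1)).image (fun i => a + i) := by
      ext b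
      rw [Finset.mem_filter, Finset.mem_Ico, Finset.mem_image]
      constructor
      · rintro ⟨⟨hb1, hb2⟩, hb3, hb4⟩
        exact ⟨b - a, Finset.mem_range.2 (by omega), by omega⟩
      · rintro ⟨i, hi, rfl⟩
        have := Finset.mem_range.1 hi
        omega
    rw [h1, Finset.sum_image (fun a _ b _ h => by simpa using h), Finset.sum_range_succ]
    have h2 := var23_mid_sum r hr a (by omega) (r / 2 - a) (by omega)
    have hlast : Real.log (2 * Real.sin (Real.pi * ((a + (r / 2 - a) : ℕ) : ℝ) / r)) ^ 2 ≤ 1 / 2 := by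
      rw [mul_div_assoc]
      refine var23_last ?_ ?_
      · rw [le_div_iff₀ hr0]
        have h3 : (r : ℝ) ≤ ((6 * (a + (r / 2 - a)) : ℕ) : ℝ) := by
          have : r ≤ 6 * (a + (r / 2 - a)) := by omega
          exact_mod_cast this
        push_cast at h3 ⊢
        linarith
      · rw [div_le_iff₀ hr0]
        have h3 : ((2 * (a + (r / 2 - a)) : ℕ) : ℝ) ≤ r := by
          have : 2 * (a + (r / 2 - a)) ≤ r := by omega
          exact_mod_cast this
        push_cast at h3 ⊢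
        linarith
    have hP0 : var23_P 0 = 0 := by simp [var23_P]
    have hmono : ∀ {c d : ℝ}, 0 ≤ c → c ≤ d → d ≤ 1 / 3 → var23_P c ≤ var23_P d := by
      intro c d hc hcd hd
      have h3 := var23_mid_step hc hcd hd
      have h4 : 0 ≤ var23_q d ^ 2 * (d - c) := mul_nonneg (sq_nonneg _) (sub_nonneg.2 hcd)
      linarith
    have hlow : 0 ≤ var23_P (1 / 2 - ((a + (r / 2 - a) : ℕ) : ℝ) / r) := by
      rw [← hP0]
      refine hmono le_rfl ?_ ?_
      · have h4 : ((a + (r / 2 - a) : ℕ) : ℝ) / r ≤ 1 / 2 := by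
          rw [div_le_iff₀ hr0]
          have h3 : ((2 * (a + (r / 2 - a)) : ℕ) : ℝ) ≤ r := by
            have : 2 * (a + (r / 2 - a)) ≤ r := by omega
            exact_mod_cast this
          push_cast at h3 ⊢
          linarith
        linarith
      · have h4 : 1 / 6 ≤ ((a + (r / 2 - a) : ℕ) : ℝ) / r := by
          rw [le_div_iff₀ hr0]
          have h3 : (r : ℝ) ≤ ((6 * (a + (r / 2 - a)) : ℕ) : ℝ) := by
            have : r ≤ 6 * (a + (r / 2 - a)) := by omega
            exact_mod_cast this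
          push_cast at h3 ⊢
          linarith
        linarith
    have hhigh : var23_P (1 / 2 - a / r) ≤ 0.0958 := by
      refine (hmono ?_ ?_ le_rfl).trans var23_P_third
      · have h4 : (a : ℝ) / r ≤ 1 / 2 := by
          rw [div_le_iff₀ hr0]
          have h3 : ((2 * a : ℕ) : ℝ) ≤ r := by
            have : 2 * a ≤ r := by omega
            exact_mod_cast this
          push_cast at h3 ⊢
          linarith
        linarith
      · have h4 : 1 / 6 ≤ (a : ℝ) / r := by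
          rw [le_div_iff₀ hr0]
          have h3 : (r : ℝ) ≤ ((6 * a : ℕ) : ℝ) := by
            have : r ≤ 6 * a := by omega
            exact_mod_cast this
          push_cast at h3 ⊢
          linarith
        linarith
    have h5 : (r : ℝ) * (var23_P (1 / 2 - a / r) - var23_P (1 / 2 - ((a + (r / 2 - a) : ℕ) : ℝ) / r)) ≤
        r * 0.0958 := mul_le_mul_of_nonneg_left (by linarith) hr0.le
    linarith

/-- MODULE var4. `sum_ell_sq_eq`, symmetry `b ↔ r - b`, `sum_near`, `sum_mid`: `2 (0.3211 + 0.0958) = 0.8338 ≤ 0.834`. -/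
theorem sum_ell_sq_le (r : ℕ) [Fact r.Prime] :
    ∑ b : (ZMod r)ˣ, ell r (b : ZMod r) ^ 2 ≤ 0.834 * r + 1 := by
  have hr : 1 ≤ r := (Fact.out : r.Prime).one_lt.le
  have hr0 : (0 : ℝ) < r := by exact_mod_cast hr
  rw [sum_ell_sq_eq]
  obtain ⟨f, hf⟩ : ∃ f : ℕ → ℝ, f = fun b : ℕ => Real.log (2 * Real.sin (Real.pi * (b : ℝ) / r)) ^ 2 := ⟨_, rfl⟩
  have hf0 : ∀ b, 0 ≤ f b := fun b => by rw [hf]; positivity
  have hsym : ∀ b, b ≤ r → f (r - b) = f b := by
    intro b hb
    rw [hf]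
    have h1 : Real.pi * ((r - b : ℕ) : ℝ) / r = Real.pi - Real.pi * b / r := by
      rw [Nat.cast_sub hb]
      field_simp
    simp only [h1, Real.sin_pi_sub]
  have h1 : ∑ b ∈ Finset.Ico 1 r, Real.log (2 * Real.sin (Real.pi * b / r)) ^ 2 = ∑ b ∈ Finset.Ico 1 r, f b := by
    rw [hf]
  have hnear : ∑ b ∈ (Finset.Ico 1 r).filter (fun b => 6 * b ≤ r), f b ≤ 0.3211 * r := by
    rw [hf]
    exact sum_near r hr
  have hmid : ∑ b ∈ (Finset.Ico 1 r).filter (fun b => r < 6 * b ∧ 2 * b ≤ r), f b ≤ 0.0958 * r + 1 / 2 := by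
    rw [hf]
    exact sum_mid r hr
  have hhalf : ∑ b ∈ (Finset.Ico 1 r).filter (fun b => 2 * b ≤ r), f b ≤ 0.3211 * r + (0.0958 * r + 1 / 2) := by
    rw [← Finset.sum_filter_add_sum_filter_not ((Finset.Ico 1 r).filter (fun b => 2 * b ≤ r)) (fun b => 6 * b ≤ r)]
    rw [Finset.filter_filter, Finset.filter_filter]
    have h2 : (Finset.Ico 1 r).filter (fun b => 2 * b ≤ r ∧ 6 * b ≤ r) =
        (Finset.Ico 1 r).filter (fun b => 6 * b ≤ r) :=
      Finset.filter_congr (fun b _ => by omega)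
    have h3 : (Finset.Ico 1 r).filter (fun b => 2 * b ≤ r ∧ ¬ 6 * b ≤ r) =
        (Finset.Ico 1 r).filter (fun b => r < 6 * b ∧ 2 * b ≤ r) :=
      Finset.filter_congr (fun b _ => by omega)
    rw [h2, h3]
    linarith
  have hother : ∑ b ∈ (Finset.Ico 1 r).filter (fun b => ¬ 2 * b ≤ r), f b ≤
      ∑ b ∈ (Finset.Ico 1 r).filter (fun b => 2 * b ≤ r), f b := by
    have h4 : ∑ b ∈ (Finset.Ico 1 r).filter (fun b => ¬ 2 * b ≤ r), f b =
        ∑ b ∈ ((Finset.Ico 1 r).filter (fun b => ¬ 2 * b ≤ r)).image (fun b => r - b), f b := by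
      rw [Finset.sum_image]
      · refine Finset.sum_congr rfl (fun b hb => ?_)
        have hb' := Finset.mem_Ico.1 (Finset.mem_filter.1 hb).1
        rw [hsym b hb'.2.le]
      · intro x hx y hy hxy
        have hx' := Finset.mem_Ico.1 (Finset.mem_filter.1 hx).1
        have hy' := Finset.mem_Ico.1 (Finset.mem_filter.1 hy).1
        have hxy' : r - x = r - y := hxy
        omega
    rw [h4]
    refine Finset.sum_le_sum_of_subset_of_nonneg ?_ (fun b _ _ => hf0 b)
    intro b hb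
    obtain ⟨c, hc, rfl⟩ := Finset.mem_image.1 hb
    obtain ⟨hc1, hc2⟩ := Finset.mem_filter.1 hc
    have hc3 := Finset.mem_Ico.1 hc1
    rw [Finset.mem_filter, Finset.mem_Ico]
    omega
  rw [h1, ← Finset.sum_filter_add_sum_filter_not (Finset.Ico 1 r) (fun b => 2 * b ≤ r)]
  linarith

end Aks1
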