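import Pool.Agent.Aks1.Core
import Pool.Agent.Aks1.Exp
import Pool.Agent.Aks1.Num
import Pool.Agent.Aks1.Var

set_option autoImplicit false

/-! # Assembly -/

namespace Aks1

open Polynomial

theorem card_closure_le (r : ℕ) [Fact r.Prime] (H : Subgroup (ZMod r)ˣ) :
    (Nat.card H : ℝ) ≤ (r : ℝ) - 1 := by
  have h1 : Nat.card H ≤ Nat.card (ZMod r)ˣ := Subgroup.card_le_card_group H
  rw [Nat.card_eq_fintype_card (α := (ZMod r)ˣ), ZMod.card_units_eq_totient, Nat.totient_prime Fact.out] at h1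
  have h2 : 1 ≤ r := (Fact.out : r.Prime).one_lt.le
  have h3 : ((Nat.card H : ℕ) : ℝ) ≤ ((r - 1 : ℕ) : ℝ) := by exact_mod_cast h1
  rwa [Nat.cast_sub h2, Nat.cast_one] at h3

theorem good_of_mul_pow {F : Type*} [Field F] {r : ℕ} (p : ℕ) [Fact p.Prime] [CharP F p] {m : ℕ} (e : ℕ)
    (h : Good F r (m * p ^ e)) : Good F r m := by
  induction e with
  | zero => simpa using h
  | succ e ih =>
    rw [pow_succ, ← mul_assoc] at h
    exact ih (good_of_mul_char p h)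

/-- The main theorem for good exponents. -/
theorem mainG : ∃ p0 : ℕ, ∀ p m r : ℕ, ∀ (_ : p.Prime), r.Prime → p0 ≤ p → 2 ≤ m → m ≤ p ^ 4 → (∀ j, m ≠ p ^ j) →
    ∀ (hm : m.Coprime r) (hp : p.Coprime r),
    6 * Real.log p * Real.log m ≤ (Nat.card (Subgroup.closure
      ({ZMod.unitOfCoprime m hm, ZMod.unitOfCoprime p hp} : Set (ZMod r)ˣ)) : ℝ) →
    ∀ [Fact p.Prime], ¬ Good (AlgebraicClosure (ZMod p)) r m := by
  obtain ⟨B1, hB1⟩ := num_count
  obtain ⟨B2, hB2⟩ := num_height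
  obtain ⟨B3, hB3⟩ := num_card
  refine ⟨⌈Real.exp (max B1 (max B2 B3))⌉₊ + 2, ?_⟩
  intro p m r hp hr hp0 hm2 hmp hpow hmr hpr hcard _ hgood
  have : Fact r.Prime := ⟨hr⟩
  have hpr' : p ≠ r := by
    rintro rfl
    exact hp.one_lt.ne' (by simpa using hpr)
  have hp1 : (1 : ℝ) < p := by exact_mod_cast hp.one_lt
  have hp0' : (0 : ℝ) < p := by linarith
  have hm1 : (1 : ℝ) < m := by exact_mod_cast (by omega : 1 < m)
  have hm0' : (0 : ℝ) < m := by linarith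
  set α := Real.log m with hα
  set β := Real.log p with hβ
  have hβB : max B1 (max B2 B3) ≤ β := by
    rw [hβ, Real.le_log_iff_exp_le hp0']
    refine (Nat.le_ceil _).trans ?_
    exact_mod_cast (by omega : ⌈Real.exp (max B1 (max B2 B3))⌉₊ ≤ p)
  have hβ1 : B1 ≤ β := (le_max_left _ _).trans hβB
  have hβ2 : B2 ≤ β := ((le_max_left _ _).trans (le_max_right _ _)).trans hβB
  have hβ3 : B3 ≤ β := ((le_max_right _ _).trans (le_max_right _ _)).trans hβB
  have hα0 : 0 < α := Real.log_pos hm1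
  have hβ0 : 0 < β := Real.log_pos hp1
  have hα2 : Real.log 2 ≤ α := Real.log_le_log (by norm_num) (by exact_mod_cast hm2)
  have hα4 : α ≤ 4 * β := by
    have : (m : ℝ) ≤ (p : ℝ) ^ 4 := by exact_mod_cast hmp
    calc α ≤ Real.log ((p : ℝ) ^ 4) := Real.log_le_log hm0' this
      _ = 4 * β := by rw [Real.log_pow, ← hβ]; norm_num
  -- good exponents
  have hrm : r < m := by
    by_contra hcon
    push Not at hcon
    have hpdr : ¬ p ∣ r := fun h => hpr' ((Nat.prime_dvd_prime_iff_eq hp hr).1 h)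
    obtain ⟨j, hj⟩ := pow_of_good (F := AlgebraicClosure (ZMod p)) p hpdr (by omega : 1 ≤ m) hcon hgood
    exact hpow j hj
  have hr2 : 2 ≤ r := hr.two_le
  have hr0 : (0 : ℝ) < r := by exact_mod_cast hr.pos
  have hlogr : Real.log r ≤ α := Real.log_le_log hr0 (by exact_mod_cast hrm.le)
  have hcr : 6 * α * β ≤ (r : ℝ) - 1 := by
    have := card_closure_le r (Subgroup.closure
      ({ZMod.unitOfCoprime m hmr, ZMod.unitOfCoprime p hpr} : Set (ZMod r)ˣ))
    calc 6 * α * β = 6 * β * α := by ring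
      _ ≤ _ := hcard.trans this
  set k := ⌈0.89 * α * β⌉₊ with hk
  set Y := √(2 * α * β * (3 * (k : ℝ))) with hY
  have hY0 : 0 ≤ Y := Real.sqrt_nonneg _
  obtain ⟨T, hT, hTc⟩ := tri α β Y hα0 hβ0 hY0
  have hTD : 3 * k ≤ T.card := by
    have h1 : Y ^ 2 / (2 * α * β) = 3 * (k : ℝ) := by
      rw [hY, Real.sq_sqrt (by positivity)]
      field_simp
    rw [h1] at hTc
    exact_mod_cast hTc
  have hkc : 2 * (3 * (k : ℝ)) ≤ 6 * α * β := hB3 α β hβ3 hα2
  have hH : 2 * (3 * k) ≤ Nat.card (Subgroup.closure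
      ({ZMod.unitOfCoprime m hmr, ZMod.unitOfCoprime p hpr} : Set (ZMod r)ˣ)) := by
    have : (2 * (3 * (k : ℝ))) ≤ (Nat.card (Subgroup.closure
      ({ZMod.unitOfCoprime m hmr, ZMod.unitOfCoprime p hpr} : Set (ZMod r)ˣ)) : ℝ) := by
      calc 2 * (3 * (k : ℝ)) ≤ 6 * α * β := hkc
        _ = 6 * β * α := by ring
        _ ≤ _ := hcard
    exact_mod_cast this
  obtain ⟨h, e, hh, he, hE⟩ := exps p r m (AlgebraicClosure (ZMod p)) hm2 hmr hpr hgood hpow (3 * k) Y T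
    (fun q hq => hT q hq) hTD hH
  set G := ⌊2 * (r : ℝ) * Real.exp Y⌋₊ with hG
  have hG0 : (0 : ℝ) ≤ 2 * (r : ℝ) * Real.exp Y := by positivity
  have hGle : (G : ℝ) ≤ 2 * r * Real.exp Y := Nat.floor_le hG0
  have heG : ∀ a, e a ≤ G := fun a => Nat.le_floor (he a)
  have hcount := hB1 α β hβ1 hα0 r hr2 hlogr (by linarith) G hGle
  have hcore := core p r k 1001 G hpr' (by norm_num) h hh e heG hE (1 / 1000) (by norm_num) hcount
  have hW := sum_ell_sq_le r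
  have hW0 : 0 ≤ ∑ b : (ZMod r)ˣ, ell r (b : ZMod r) ^ 2 := Finset.sum_nonneg fun b _ => sq_nonneg _
  have hnum := hB2 α β hβ2 hα0 hα4 r hr2 hlogr hcr _ hW0 hW
  exact absurd hcore (not_le.2 hnum)

/-- `r < m` for a good exponent `m` that is not a power of `p`. -/
theorem lt_of_good {p m r : ℕ} [Fact p.Prime] (hr : r.Prime) (hpr : p.Coprime r) (hm2 : 2 ≤ m) (hpow : ∀ j, m ≠ p ^ j)
    (hgood : Good (AlgebraicClosure (ZMod p)) r m) : r < m := by
  have hp : p.Prime := Fact.out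
  have hpr' : p ≠ r := by
    rintro rfl
    exact hp.one_lt.ne' (by simpa using hpr)
  by_contra hcon
  push Not at hcon
  have hpdr : ¬ p ∣ r := fun h => hpr' ((Nat.prime_dvd_prime_iff_eq hp hr).1 h)
  obtain ⟨j, hj⟩ := pow_of_good (F := AlgebraicClosure (ZMod p)) p hpdr (by omega : 1 ≤ m) hcon hgood
  exact hpow j hj

/-- The theorem: modulo every multiple `k` of `p`, for `n = m p^e`. -/
theorem mainK : ∃ N₀ : ℕ, ∀ p m e r : ℕ, p.Prime → r.Prime → N₀ ≤ max p r → 2 ≤ m → m ≤ p ^ 4 →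
    (∀ j : ℕ, m ≠ p ^ j) → ∀ (hm : m.Coprime r) (hp : p.Coprime r),
    6 * Real.log p * Real.log m ≤ (Nat.card (Subgroup.closure
      ({ZMod.unitOfCoprime m hm, ZMod.unitOfCoprime p hp} : Set (ZMod r)ˣ)) : ℝ) →
    ∀ k : ℕ, p ∣ k → ¬ (X ^ r - 1 : (ZMod k)[X]) ∣ (X - 1) ^ (m * p ^ e) - (X ^ (m * p ^ e) - 1) := by
  obtain ⟨p0, hp0⟩ := mainG
  refine ⟨p0 ^ 4 + p0, ?_⟩
  intro p m e r hp hr hmax hm2 hmp hpow hmr hpr hcard k hpk hdvd
  have : Fact p.Prime := ⟨hp⟩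
  have hgood : Good (AlgebraicClosure (ZMod p)) r m :=
    good_of_mul_pow p e (good_of_dvd p _ (dvd_mod_p p k hpk _ r hdvd))
  have hrm := lt_of_good hr hpr hm2 hpow hgood
  by_cases hpp : p0 ≤ p
  · exact hp0 p m r hp hr hpp hm2 hmp hpow hmr hpr hcard hgood
  · push Not at hpp
    have h1 : p ^ 4 ≤ p0 ^ 4 := Nat.pow_le_pow_left hpp.le 4
    rcases le_max_iff.1 hmax with h | h <;> omega

end Aks1
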