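import Pool.Agent.Aks1.Fin

set_option autoImplicit false

/-! # The theorem for `n` -/

namespace Aks1

open Polynomial

theorem closure_eq {r m p : ℕ} (hm : m.Coprime r) (hp : p.Coprime r) (hn : (m * p).Coprime r) :
    Subgroup.closure ({ZMod.unitOfCoprime (m * p) hn, ZMod.unitOfCoprime p hp} : Set (ZMod r)ˣ) =
      Subgroup.closure ({ZMod.unitOfCoprime m hm, ZMod.unitOfCoprime p hp} : Set (ZMod r)ˣ) := by
  have hmul : ZMod.unitOfCoprime (m * p) hn = ZMod.unitOfCoprime m hm * ZMod.unitOfCoprime p hp := by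
    ext; simp
  apply le_antisymm
  · rw [Subgroup.closure_le]
    rintro x (rfl | rfl)
    · rw [hmul]
      exact mul_mem (Subgroup.subset_closure (by simp)) (Subgroup.subset_closure (by simp))
    · exact Subgroup.subset_closure (by simp)
  · rw [Subgroup.closure_le]
    rintro x (rfl | rfl)
    · have : ZMod.unitOfCoprime m hm = ZMod.unitOfCoprime (m * p) hn * (ZMod.unitOfCoprime p hp)⁻¹ := by
        rw [hmul, mul_inv_cancel_right]
      rw [this]
      exact mul_mem (Subgroup.subset_closure (by simp)) (inv_mem (Subgroup.subset_closure (by simp)))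
    · exact Subgroup.subset_closure (by simp)

theorem cofactor {n p : ℕ} (hp : p.Prime) (hpn : p ∣ n) (hn : 1 ≤ n) (h5 : n ≤ p ^ 5) (hpow : ∀ j, n ≠ p ^ j) :
    ∃ m, n = m * p ∧ 2 ≤ m ∧ m ≤ p ^ 4 ∧ ∀ j, m ≠ p ^ j := by
  obtain ⟨m, rfl⟩ := hpn
  refine ⟨m, by ring, ?_, ?_, ?_⟩
  · rcases m with _ | _ | m
    · simp at hn
    · exact absurd (hpow 1) (by simp)
    · omega
  · have : p * m ≤ p * p ^ 4 := by
      calc p * m ≤ p ^ 5 := h5
        _ = p * p ^ 4 := by ring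
    exact Nat.le_of_mul_le_mul_left this hp.pos
  · intro j hj
    apply hpow (j + 1)
    rw [hj]; ring

theorem log_mul_le (a b : ℝ) : 6 * a * b ≤ 3 / 2 * (a + b) ^ 2 := by nlinarith [sq_nonneg (a - b)]

/-- Corollary: the version with the order of the group in terms of `n` alone. -/
theorem mainN : ∃ N₀ : ℕ, ∀ n p r : ℕ, p.Prime → r.Prime → N₀ ≤ max n r → 2 ≤ n → p ∣ n → n ≤ p ^ 5 →
    (∀ j, n ≠ p ^ j) → ∀ (hn : n.Coprime r) (hp : p.Coprime r),
    3 / 2 * Real.log n ^ 2 ≤ (Nat.card (Subgroup.closure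
      ({ZMod.unitOfCoprime n hn, ZMod.unitOfCoprime p hp} : Set (ZMod r)ˣ)) : ℝ) →
    ¬ (X ^ r - 1 : (ZMod n)[X]) ∣ (X - 1) ^ n - (X ^ n - 1) := by
  obtain ⟨N₀, hN⟩ := mainK
  refine ⟨N₀ ^ 5 + N₀ + 1, ?_⟩
  intro n p r hp hr hmax hn2 hpn h5 hpow hnr hpr hcard hdvd
  obtain ⟨m, rfl, hm2, hm4, hmpow⟩ := cofactor hp hpn (by omega) h5 hpow
  have hmr : m.Coprime r := Nat.Coprime.coprime_dvd_left (Dvd.intro _ rfl) hnr
  have hpp : (0 : ℝ) < p := by exact_mod_cast hp.pos
  have hmm : (0 : ℝ) < m := by exact_mod_cast (by omega : 0 < m)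
  have hlog : Real.log ((m * p : ℕ) : ℝ) = Real.log p + Real.log m := by
    push_cast
    rw [Real.log_mul hmm.ne' hpp.ne', add_comm]
  rw [closure_eq hmr hpr hnr] at hcard
  have hmax' : N₀ ≤ max p r := by
    by_contra hcon
    push Not at hcon
    have h1 : p < N₀ := (le_max_left _ _).trans_lt hcon
    have h2 : r < N₀ := (le_max_right _ _).trans_lt hcon
    have h3 : p ^ 5 ≤ N₀ ^ 5 := Nat.pow_le_pow_left h1.le 5
    rcases le_max_iff.1 hmax with h | h <;> omega
  refine hN p m 1 r hp hr hmax' hm2 hm4 hmpow hmr hpr ?_ (m * p) (Dvd.intro_left _ rfl) (by simpa using hdvd)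
  refine le_trans ?_ hcard
  rw [hlog]
  exact log_mul_le _ _

/-- A number with at most five prime factors (with multiplicity) has a prime factor `p` with `n ≤ p ^ 5`. -/
theorem exists_large_prime {n : ℕ} (hn : 2 ≤ n) (hO : n.primeFactorsList.length ≤ 5) :
    ∃ p, p.Prime ∧ p ∣ n ∧ n ≤ p ^ 5 := by
  obtain ⟨p, hpn, hmax⟩ := n.primeFactors.exists_max_image id ⟨n.minFac,
    Nat.mem_primeFactors.2 ⟨Nat.minFac_prime (by omega), Nat.minFac_dvd n, by omega⟩⟩
  have hp := Nat.prime_of_mem_primeFactors hpn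
  refine ⟨p, hp, Nat.dvd_of_mem_primeFactors hpn, ?_⟩
  have h1 : n.primeFactorsList.prod ≤ p ^ n.primeFactorsList.length := by
    refine List.prod_le_pow_card _ _ ?_
    intro q hq
    exact hmax q (List.mem_toFinset.2 hq)
  rw [Nat.prod_primeFactorsList (by omega)] at h1
  exact h1.trans (Nat.pow_le_pow_right hp.pos hO)

/-- Corollary: Q1 for all `n` with at most five prime factors, `n` not a prime power, `ord_r(n) ≥ (3/2) (log n)^2`,
with finitely many exceptions `(n, r)`. -/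
theorem mainQ : ∃ N₀ : ℕ, ∀ n r : ℕ, r.Prime → N₀ ≤ max n r → 2 ≤ n → n.Coprime r →
    n.primeFactorsList.length ≤ 5 → ¬ IsPrimePow n → 3 / 2 * Real.log n ^ 2 ≤ (orderOf (n : ZMod r) : ℝ) →
    ¬ (X ^ r - 1 : (ZMod n)[X]) ∣ (X - 1) ^ n - (X ^ n - 1) := by
  obtain ⟨N₀, hN⟩ := mainN
  refine ⟨N₀, ?_⟩
  intro n r hr hmax hn2 hnr hO hpp hord
  have : Fact r.Prime := ⟨hr⟩
  obtain ⟨p, hp, hpn, h5⟩ := exists_large_prime hn2 hO
  have hpr : p.Coprime r := Nat.Coprime.coprime_dvd_left hpn hnr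
  refine hN n p r hp hr hmax hn2 hpn h5 ?_ hnr hpr ?_
  · intro j hj
    apply hpp
    rw [hj]
    refine hp.isPrimePow.pow ?_
    rintro rfl
    simp at hj
    omega
  · refine hord.trans ?_
    have h1 : orderOf (n : ZMod r) = orderOf (ZMod.unitOfCoprime n hnr) := by
      rw [← orderOf_units, ZMod.coe_unitOfCoprime]
    rw [h1]
    have h2 : Subgroup.zpowers (ZMod.unitOfCoprime n hnr) ≤ Subgroup.closure
      ({ZMod.unitOfCoprime n hnr, ZMod.unitOfCoprime p hpr} : Set (ZMod r)ˣ) := by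
      rw [Subgroup.zpowers_le]
      exact Subgroup.subset_closure (by simp)
    have h3 := Subgroup.card_le_of_le h2
    rw [Nat.card_zpowers] at h3
    exact_mod_cast h3

end Aks1
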