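import Pool.Agent.Aks1.Defs

set_option autoImplicit false

/-! # Module GapNum: the numbers of the gap theorem -/

namespace Aks1

theorem gap_height_num (β : ℝ) (hβ : 100 ≤ β) (D B r : ℕ) (hD : 1 ≤ D) (hDr : 2 * D ≤ r)
    (hr : 2 ≤ r) (hB : (B : ℝ) * √D ≤ β / 5) (W : ℝ) (hW0 : 0 ≤ W) (hW : W ≤ 0.834 * r + 1) :
    ((r : ℝ) - 1) * Real.log 2 + D * B * Real.log r + √(((r : ℝ) - 1) * (D * B ^ 2 / 2 * W)) <
      ((r : ℝ) - 1) * β := by
  have hr' : (2 : ℝ) ≤ r := by exact_mod_cast hr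
  have hr1 : (0 : ℝ) < (r : ℝ) - 1 := by linarith
  have hD' : (1 : ℝ) ≤ D := by exact_mod_cast hD
  have hB0 : (0 : ℝ) ≤ B := Nat.cast_nonneg _
  set s := √(r : ℝ) with hs
  have hs2 : s ^ 2 = r := Real.sq_sqrt (by linarith)
  have hs1 : 1 ≤ s := by
    rw [hs, Real.one_le_sqrt]; linarith
  set d := √(D : ℝ) with hd
  have hd2 : d ^ 2 = D := Real.sq_sqrt (by linarith)
  have hd0 : 0 ≤ d := Real.sqrt_nonneg _
  have hds : 2 * d ^ 2 ≤ s ^ 2 := by
    rw [hd2, hs2]; exact_mod_cast hDr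
  have hds' : d ≤ 0.7072 * s := by
    by_contra hcon
    push Not at hcon
    have : (0.7072 * s) ^ 2 < d ^ 2 := by
      apply pow_lt_pow_left₀ hcon (by positivity) (by norm_num)
    nlinarith
  have hlog : Real.log r ≤ 2 * (s - 1) := by
    have h1 : Real.log r = 2 * Real.log s := by
      rw [← hs2, Real.log_pow]; norm_num
    rw [h1]
    have := Real.log_le_sub_one_of_pos (by linarith : 0 < s)
    linarith
  -- second term
  have h2 : (D : ℝ) * B * Real.log r ≤ ((r : ℝ) - 1) * (0.3 * β) := by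
    have e1 : (D : ℝ) * B * Real.log r ≤ d * (B * d) * (2 * (s - 1)) := by
      have : (D : ℝ) * B = d * (B * d) := by rw [← hd2]; ring
      rw [this]
      exact mul_le_mul_of_nonneg_left hlog (by positivity)
    have e2 : d * (B * d) * (2 * (s - 1)) ≤ (0.7072 * s) * (β / 5) * (2 * (s - 1)) := by
      refine mul_le_mul_of_nonneg_right ?_ (by linarith)
      exact mul_le_mul hds' hB (by positivity) (by positivity)
    have e3 : (0.7072 * s) * (β / 5) * (2 * (s - 1)) ≤ ((r : ℝ) - 1) * (0.3 * β) := by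
      have : (r : ℝ) - 1 = (s - 1) * (s + 1) := by rw [← hs2]; ring
      rw [this]
      have h0 : 0 ≤ (s - 1) * β := by
        apply mul_nonneg <;> linarith
      nlinarith
    linarith
  -- third term
  have h3 : √(((r : ℝ) - 1) * (D * B ^ 2 / 2 * W)) ≤ ((r : ℝ) - 1) * (0.3 * β) := by
    apply Real.sqrt_le_iff.2
    refine ⟨by positivity, ?_⟩
    have e1 : W ≤ 2.668 * ((r : ℝ) - 1) := by linarith
    have e2 : (D : ℝ) * B ^ 2 ≤ (β / 5) ^ 2 := by
      have : (D : ℝ) * B ^ 2 = (B * d) ^ 2 := by rw [mul_pow, hd2]; ring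
      rw [this]
      exact pow_le_pow_left₀ (by positivity) hB 2
    have e3 : (D : ℝ) * B ^ 2 / 2 * W ≤ (β / 5) ^ 2 / 2 * (2.668 * ((r : ℝ) - 1)) :=
      mul_le_mul (by linarith) e1 hW0 (by positivity)
    calc ((r : ℝ) - 1) * (D * B ^ 2 / 2 * W) ≤ ((r : ℝ) - 1) * ((β / 5) ^ 2 / 2 * (2.668 * ((r : ℝ) - 1))) :=
          mul_le_mul_of_nonneg_left e3 hr1.le
      _ = (((r : ℝ) - 1) * β) ^ 2 * (2.668 / 50) := by ring
      _ ≤ (((r : ℝ) - 1) * (0.3 * β)) ^ 2 := by
          have : (((r : ℝ) - 1) * (0.3 * β)) ^ 2 = (((r : ℝ) - 1) * β) ^ 2 * 0.09 := by ring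
          rw [this]
          refine mul_le_mul_of_nonneg_left (by norm_num) (by positivity)
  have h1 : ((r : ℝ) - 1) * Real.log 2 ≤ ((r : ℝ) - 1) * 1 := by
    refine mul_le_mul_of_nonneg_left ?_ hr1.le
    have := Real.log_two_lt_d9
    linarith
  have h4 : 0 < ((r : ℝ) - 1) * (0.4 * β - 1) := mul_pos hr1 (by linarith)
  nlinarith

theorem gap_final_num (β : ℝ) (hβ : 100 ≤ β) (h : ℕ) (hh : 1 ≤ h) (L : ℝ)
    (hL : ∀ D B : ℕ, 1 ≤ D → 2 ≤ B → 2 * D ≤ h + 1 → (B : ℝ) * √D ≤ β / 5 → D * Real.log B ≤ 5 * L) :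
    1 / 1000000 * (min (h : ℝ) (β ^ 2) * Real.log (2 + β ^ 2 / h)) ≤ L := by
  have hh' : (1 : ℝ) ≤ h := by exact_mod_cast hh
  have hβ2 : (10000 : ℝ) ≤ β ^ 2 := by nlinarith
  have hl2 : 0.69 < Real.log 2 := by have := Real.log_two_gt_d9; linarith
  have hmin0 : 0 ≤ min (h : ℝ) (β ^ 2) := le_min (by linarith) (by positivity)
  have hlog0 : 0 ≤ Real.log (2 + β ^ 2 / h) := by
    apply Real.log_nonneg
    have : 0 ≤ β ^ 2 / h := by positivity
    linarith
  by_cases hc : (((h + 1) / 2 : ℕ) : ℝ) ≤ β ^ 2 / 100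
  · set D := (h + 1) / 2 with hD
    have hD1 : 1 ≤ D := by omega
    have hDh : h ≤ 2 * D := by omega
    have hDh2 : D ≤ h := by omega
    have hD' : (1 : ℝ) ≤ D := by exact_mod_cast hD1
    set x := β / (5 * √(D : ℝ)) with hx
    have hsD : 0 < √(D : ℝ) := Real.sqrt_pos.2 (by linarith)
    have hsD2 : √(D : ℝ) ^ 2 = D := Real.sq_sqrt (by linarith)
    have hsDβ : √(D : ℝ) ≤ β / 10 := by
      apply Real.sqrt_le_iff.2
      refine ⟨by positivity, ?_⟩
      calc (D : ℝ) ≤ β ^ 2 / 100 := hc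
        _ = (β / 10) ^ 2 := by ring
    have hx2 : 2 ≤ x := by
      rw [hx, le_div_iff₀ (by positivity)]
      linarith
    set B := ⌊x⌋₊ with hB
    have hB2 : 2 ≤ B := Nat.le_floor (by exact_mod_cast hx2)
    have hBx : (B : ℝ) ≤ x := Nat.floor_le (by linarith)
    have hxB : x < B + 1 := Nat.lt_floor_add_one x
    have hB2' : (2 : ℝ) ≤ B := by exact_mod_cast hB2
    have hBD : (B : ℝ) * √D ≤ β / 5 := by
      calc (B : ℝ) * √D ≤ x * √D := mul_le_mul_of_nonneg_right hBx hsD.le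
        _ = β / 5 := by rw [hx]; field_simp
    have key := hL D B hD1 hB2 (by omega) hBD
    -- log (2 + β²/h) ≤ 9 log B
    have hlogB0 : Real.log 2 ≤ Real.log B := Real.log_le_log (by norm_num) hB2'
    have h1 : β ^ 2 / h ≤ 25 * x ^ 2 := by
      have : 25 * x ^ 2 = β ^ 2 / D := by
        rw [hx, div_pow, mul_pow, hsD2]; ring
      rw [this]
      exact div_le_div_of_nonneg_left (by positivity) (by linarith) (by exact_mod_cast hDh2)
    have h2 : 2 + β ^ 2 / h ≤ 27 * x ^ 2 := by nlinarith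
    have h3 : x ≤ 2 * B := by linarith
    have h4 : 2 + β ^ 2 / h ≤ 108 * (B : ℝ) ^ 2 := by
      have : x ^ 2 ≤ (2 * B) ^ 2 := pow_le_pow_left₀ (by linarith) h3 2
      nlinarith
    have h5 : Real.log (2 + β ^ 2 / h) ≤ Real.log (108 * (B : ℝ) ^ 2) :=
      Real.log_le_log (by positivity) h4
    have h6 : Real.log (108 * (B : ℝ) ^ 2) = Real.log 108 + 2 * Real.log B := by
      rw [Real.log_mul (by norm_num) (by positivity), Real.log_pow]; norm_num
    have h7 : Real.log 108 ≤ 7 * Real.log 2 := by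
      rw [show 7 * Real.log 2 = Real.log (2 ^ 7) by rw [Real.log_pow]; norm_num]
      exact Real.log_le_log (by norm_num) (by norm_num)
    have h8 : Real.log (2 + β ^ 2 / h) ≤ 9 * Real.log B := by linarith
    have h9 : min (h : ℝ) (β ^ 2) ≤ 2 * D := (min_le_left _ _).trans (by exact_mod_cast hDh)
    have h10 : min (h : ℝ) (β ^ 2) * Real.log (2 + β ^ 2 / h) ≤ (2 * D) * (9 * Real.log B) :=
      mul_le_mul h9 h8 hlog0 (by positivity)
    have hL0 : 0 ≤ L := by
      have : 0 ≤ (D : ℝ) * Real.log B := mul_nonneg (by linarith) (by linarith)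
      linarith
    nlinarith
  · push Not at hc
    set D := ⌊β ^ 2 / 100⌋₊ with hD
    have hDle : (D : ℝ) ≤ β ^ 2 / 100 := Nat.floor_le (by positivity)
    have hDgt : β ^ 2 / 100 < D + 1 := Nat.lt_floor_add_one _
    have hD100 : (99 : ℝ) < D := by linarith
    have hD1 : 1 ≤ D := by
      have : (1 : ℝ) ≤ D := by linarith
      exact_mod_cast this
    have hDlt : D < (h + 1) / 2 := by
      have : (D : ℝ) < (((h + 1) / 2 : ℕ) : ℝ) := lt_of_le_of_lt hDle hc
      exact_mod_cast this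
    have hDh : 2 * D ≤ h := by omega
    have hsD : 0 < √(D : ℝ) := Real.sqrt_pos.2 (by linarith)
    have hsDβ : √(D : ℝ) ≤ β / 10 := by
      apply Real.sqrt_le_iff.2
      refine ⟨by positivity, ?_⟩
      calc (D : ℝ) ≤ β ^ 2 / 100 := hDle
        _ = (β / 10) ^ 2 := by ring
    have key := hL D 2 hD1 le_rfl (by omega) (by push_cast; linarith)
    have h1 : β ^ 2 / h ≤ 101 := by
      rw [div_le_iff₀ (by linarith)]
      have : (2 * D : ℝ) ≤ h := by exact_mod_cast hDh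
      nlinarith
    have h2 : Real.log (2 + β ^ 2 / h) ≤ 7 * Real.log 2 := by
      rw [show 7 * Real.log 2 = Real.log (2 ^ 7) by rw [Real.log_pow]; norm_num]
      exact Real.log_le_log (by positivity) (by linarith)
    have h3 : min (h : ℝ) (β ^ 2) ≤ 200 * D := (min_le_right _ _).trans (by linarith)
    have h4 : min (h : ℝ) (β ^ 2) * Real.log (2 + β ^ 2 / h) ≤ (200 * D) * (7 * Real.log 2) :=
      mul_le_mul h3 h2 hlog0 (by positivity)
    push_cast at key
    have hL0 : 0 ≤ L := by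
      have : 0 ≤ (D : ℝ) * Real.log 2 := mul_nonneg (by linarith) (by linarith)
      linarith
    nlinarith

theorem gap_small_num (β : ℝ) (hβ0 : 0 ≤ β) (hβ : β ≤ 100) (h : ℕ) (hh : 1 ≤ h) (L : ℝ) (hL : Real.log 2 ≤ L) :
    1 / 1000000 * (min (h : ℝ) (β ^ 2) * Real.log (2 + β ^ 2 / h)) ≤ L := by
  have hh' : (1 : ℝ) ≤ h := by exact_mod_cast hh
  have hl2 : 0.69 < Real.log 2 := by have := Real.log_two_gt_d9; linarith
  have hl3 : Real.log 2 < 0.7 := by have := Real.log_two_lt_d9; linarith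
  have hβ2 : β ^ 2 ≤ 10000 := by nlinarith
  have h1 : β ^ 2 / h ≤ 10000 := by
    rw [div_le_iff₀ (by linarith)]
    nlinarith
  have h0 : 0 ≤ β ^ 2 / h := by positivity
  have h2 : Real.log (2 + β ^ 2 / h) ≤ 14 * Real.log 2 := by
    rw [show 14 * Real.log 2 = Real.log (2 ^ 14) by rw [Real.log_pow]; norm_num]
    exact Real.log_le_log (by positivity) (by linarith)
  have hlog0 : 0 ≤ Real.log (2 + β ^ 2 / h) := by
    apply Real.log_nonneg
    linarith
  have h3 : min (h : ℝ) (β ^ 2) ≤ 10000 := (min_le_right _ _).trans hβ2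
  have h4 : min (h : ℝ) (β ^ 2) * Real.log (2 + β ^ 2 / h) ≤ 10000 * (14 * Real.log 2) :=
    mul_le_mul h3 h2 hlog0 (by norm_num)
  linarith

end Aks1
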