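import Pool.Agent.Aks1.Fin
import Pool.Agent.Aks1.Dig
import Pool.Agent.Aks1.GapNum

set_option autoImplicit false

/-! # Module Gap: gaps between multiplicatively related exponents -/

namespace Aks1

open Polynomial

theorem gap_core (p r D B G0 : ℕ) [Fact p.Prime] [Fact r.Prime] (hpr : p ≠ r)
    (h : Fin D → (ZMod r)ˣ) (hh : ∀ a b, a ≠ b → h a ≠ h b ∧ h a ≠ -h b)
    (e : Fin D → ℕ) (hG : 0 < G0)
    (hper : ∀ w : AlgebraicClosure (ZMod p), w ^ r = 1 → w ≠ 1 → (w - 1) ^ G0 = 1)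
    (hE : ∀ a, ∀ w : AlgebraicClosure (ZMod p), w ^ r = 1 → w ≠ 1 →
      (w - 1) ^ e a = w ^ (h a : ZMod r).val - 1)
    (hcount : (G0 : ℝ) < (B : ℝ) ^ D / 2) :
    ((r : ℝ) - 1) * Real.log p ≤ ((r : ℝ) - 1) * Real.log 2 + D * B * Real.log r +
      √(((r : ℝ) - 1) * (D * B ^ 2 / 2 * ∑ b : (ZMod r)ˣ, ell r (b : ZMod r) ^ 2)) := by
  classical
  set W := ∑ b : (ZMod r)ˣ, ell r (b : ZMod r) ^ 2 with hW
  set v : Fin D → (ZMod r)ˣ → ℝ := fun a b => ell r ((h a * b : (ZMod r)ˣ) : ZMod r) with hv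
  have hvW : ∀ a, ∑ b, v a b ^ 2 = W := by
    intro a
    rw [hW, hv]
    exact Fintype.sum_equiv (Equiv.mulLeft (h a)) _ _ fun b => rfl
  have hdig := digits (B := B) v W (fun a => (hvW a).le)
  set Z := (Finset.univ.filter (fun z : Fin D → Fin B =>
      ∑ b, (∑ a, cd B (z a) * v a b) ^ 2 ≤ 2 * (D * ((B : ℝ) ^ 2 / 4 * W)))) with hZ
  have hcard : (Finset.range G0).card < Z.card := by
    rw [Finset.card_range]
    have : (G0 : ℝ) < (Z.card : ℝ) := lt_of_lt_of_le hcount hdig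
    exact_mod_cast this
  obtain ⟨z, hz, z', hz', hne, hzz⟩ := Finset.exists_ne_map_eq_of_card_lt_of_maps_to hcard
    (f := fun z : Fin D → Fin B => (∑ a, (z a : ℕ) * e a) % G0)
    (fun z _ => Finset.mem_coe.2 (Finset.mem_range.2 (Nat.mod_lt _ hG)))
  have hzB := (Finset.mem_filter.1 hz).2
  have hzB' := (Finset.mem_filter.1 hz').2
  have hne' : (fun a => ((z a : ℕ))) ≠ fun a => ((z' a : ℕ)) := by
    intro hcon
    apply hne
    funext a
    exact Fin.ext (congrFun hcon a)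
  have hwprod : ∀ z : Fin D → Fin B, ∀ w : AlgebraicClosure (ZMod p), w ^ r = 1 → w ≠ 1 →
      ∏ a, (w ^ (h a : ZMod r).val - 1) ^ (z a : ℕ) = (w - 1) ^ ((∑ a, (z a : ℕ) * e a) % G0) := by
    intro z w hw hw1
    rw [← pow_eq_pow_mod _ (hper w hw hw1), ← Finset.prod_pow_eq_pow_sum]
    refine Finset.prod_congr rfl fun a _ => ?_
    rw [← hE a w hw hw1, ← pow_mul, mul_comm (e a)]
  have hheight := height p r D hpr h hh (fun a => (z a : ℕ)) (fun a => (z' a : ℕ)) hne' (fun w hw hw1 => by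
    rw [hwprod z w hw hw1, hwprod z' w hw hw1, hzz])
  have hr2 : (1 : ℝ) ≤ r := by exact_mod_cast (Fact.out : r.Prime).one_lt.le
  have hlogr : 0 ≤ Real.log r := Real.log_nonneg hr2
  have hsq : (Fintype.card (ZMod r)ˣ : ℝ) = (r : ℝ) - 1 := by
    rw [ZMod.card_units_eq_totient, Nat.totient_prime Fact.out, Nat.cast_sub (Fact.out : r.Prime).one_lt.le]
    simp
  have hsumz : ∀ z : Fin D → Fin B, (∑ a, (((z a : Fin B) : ℕ) : ℝ)) ≤ D * B := by
    intro z
    calc (∑ a, (((z a : Fin B) : ℕ) : ℝ)) ≤ ∑ _a : Fin D, (B : ℝ) := by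
          refine Finset.sum_le_sum fun a _ => ?_
          exact_mod_cast (z a).2.le
      _ = D * B := by simp
  have h1 : ((∑ a, (((z a : Fin B) : ℕ) : ℝ)) + ∑ a, (((z' a : Fin B) : ℕ) : ℝ)) / 2 * Real.log r ≤ D * B * Real.log r := by
    refine mul_le_mul_of_nonneg_right ?_ hlogr
    have := hsumz z
    have := hsumz z'
    linarith
  set x : (Fin D → Fin B) → (ZMod r)ˣ → ℝ := fun z b => ∑ a, cd B (z a) * v a b with hx
  have h2 : ∀ b, ∑ a, (((z a : Fin B) : ℕ) : ℝ) * ell r ((h a * b : (ZMod r)ˣ) : ZMod r) -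
      ∑ a, (((z' a : Fin B) : ℕ) : ℝ) * ell r ((h a * b : (ZMod r)ˣ) : ZMod r) = x z b - x z' b := by
    intro b
    rw [hx]
    simp only [cd, hv, sub_mul, Finset.sum_sub_distrib]
    ring
  have h3 : 1 / 2 * ∑ b, |x z b - x z' b| ≤ √(((r : ℝ) - 1) * (D * B ^ 2 / 2 * W)) := by
    have hcs : ∀ y : (ZMod r)ˣ → ℝ, ∑ b, y b ^ 2 ≤ 2 * (D * ((B : ℝ) ^ 2 / 4 * W)) →
        ∑ b, |y b| ≤ √(((r : ℝ) - 1) * (D * B ^ 2 / 2 * W)) := by
      intro y hy
      apply Real.le_sqrt_of_sq_le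
      have h4 : (∑ b, |y b|) ^ 2 ≤ (Finset.univ : Finset (ZMod r)ˣ).card * ∑ b, |y b| ^ 2 :=
        sq_sum_le_card_mul_sum_sq
      rw [Finset.card_univ, hsq] at h4
      refine h4.trans (mul_le_mul_of_nonneg_left ?_ (by linarith))
      simp only [sq_abs]
      linarith
    have h5 : ∑ b, |x z b - x z' b| ≤ ∑ b, |x z b| + ∑ b, |x z' b| := by
      rw [← Finset.sum_add_distrib]
      exact Finset.sum_le_sum fun b _ => abs_sub _ _
    have h6 := hcs (x z) hzB
    have h7 := hcs (x z') hzB'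
    linarith
  rw [Finset.sum_congr rfl fun b _ => congrArg abs (h2 b)] at hheight
  linarith

theorem exists_family' {r : ℕ} (S : Finset (ZMod r)ˣ) (D : ℕ) (hS : 2 * D ≤ S.card + 1) :
    ∃ h : Fin D → (ZMod r)ˣ, (∀ a, h a ∈ S) ∧ ∀ a b, a ≠ b → h a ≠ h b ∧ h a ≠ -h b := by
  classical
  set φ : (ZMod r)ˣ → Finset (ZMod r)ˣ := fun u => {u, -u} with hφ
  have hcard : S.card ≤ 2 * (S.image φ).card := by
    refine (Finset.card_le_mul_card_image (f := φ) S 2 ?_)
    intro y hy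
    obtain ⟨u, hu, rfl⟩ := Finset.mem_image.1 hy
    have : S.filter (fun x => φ x = φ u) ⊆ {u, -u} := by
      intro x hx
      have h1 : x ∈ φ x := by simp [hφ]
      rw [(Finset.mem_filter.1 hx).2] at h1
      exact h1
    exact (Finset.card_le_card this).trans Finset.card_le_two
  obtain ⟨Y, hYs, hYc⟩ := Finset.exists_subset_card_eq (show D ≤ (S.image φ).card by omega)
  have hch : ∀ y : Y, ∃ u ∈ S, φ u = y := by
    rintro ⟨y, hy⟩
    obtain ⟨u, hu, h⟩ := Finset.mem_image.1 (hYs hy)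
    exact ⟨u, hu, h⟩
  choose g hg hgφ using hch
  set eq := (Finset.equivFinOfCardEq hYc).symm with heq
  refine ⟨fun a => g (eq a), fun a => hg _, ?_⟩
  intro a b hab
  have hne : (eq a) ≠ (eq b) := fun h => hab (eq.injective h)
  have hφne : φ (g (eq a)) ≠ φ (g (eq b)) := by
    rw [hgφ, hgφ]
    intro h
    exact hne (Subtype.ext h)
  constructor
  · intro h
    change g (eq a) = g (eq b) at h
    exact hφne (by rw [h])
  · intro h
    change g (eq a) = -g (eq b) at h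
    apply hφne
    rw [h]
    simp only [hφ, neg_neg]
    exact Finset.pair_comm _ _

/-- The gap theorem for good exponents, `B < A`. -/
theorem gap_lt (p m r : ℕ) [Fact p.Prime] [Fact r.Prime] (hm1 : 1 ≤ m) (hmr : m.Coprime r) (hpr : p.Coprime r)
    (hgood : Good (AlgebraicClosure (ZMod p)) r m) (i j i' j' : ℕ) (hlt : m ^ i' * p ^ j' < m ^ i * p ^ j)
    (hrel : ((m ^ i * p ^ j : ℕ) : ZMod r) = ((m ^ i' * p ^ j' : ℕ) : ZMod r) ∨
      ((m ^ i * p ^ j : ℕ) : ZMod r) = -((m ^ i' * p ^ j' : ℕ) : ZMod r)) :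
    1 / 1000000 * (min (Nat.card (Subgroup.closure
      ({ZMod.unitOfCoprime m hmr, ZMod.unitOfCoprime p hpr} : Set (ZMod r)ˣ)) : ℝ) (Real.log p ^ 2) *
      Real.log (2 + Real.log p ^ 2 / (Nat.card (Subgroup.closure
      ({ZMod.unitOfCoprime m hmr, ZMod.unitOfCoprime p hpr} : Set (ZMod r)ˣ)) : ℝ))) ≤
      Real.log ((m ^ i * p ^ j : ℕ) : ℝ) := by
  classical
  have hp : p.Prime := Fact.out
  have hr : r.Prime := Fact.out
  have hpr' : p ≠ r := by
    rintro rfl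
    exact hp.one_lt.ne' (by simpa using hpr)
  set H := Subgroup.closure ({ZMod.unitOfCoprime m hmr, ZMod.unitOfCoprime p hpr} : Set (ZMod r)ˣ) with hH
  set A := m ^ i * p ^ j with hA
  set A' := m ^ i' * p ^ j' with hA'
  have hA'1 : 1 ≤ A' := Nat.mul_pos (pow_pos (by omega) _) (pow_pos hp.pos _)
  have hA2 : 2 ≤ A := by omega
  have hA2' : (2 : ℝ) ≤ A := by exact_mod_cast hA2
  have hgA : Good (AlgebraicClosure (ZMod p)) r A := good_mul (good_pow hgood _) (good_pow (good_char p) _)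
  have hgA' : Good (AlgebraicClosure (ZMod p)) r A' := good_mul (good_pow hgood _) (good_pow (good_char p) _)
  have hcop' : A'.Coprime r := Nat.Coprime.mul_left (Nat.Coprime.pow_left _ hmr) (Nat.Coprime.pow_left _ hpr)
  have hHc : 1 ≤ Nat.card H := Nat.one_le_iff_ne_zero.2 (Nat.card_pos (α := H)).ne'
  have hp1 : (1 : ℝ) ≤ p := by exact_mod_cast hp.one_lt.le
  have hβ0 : 0 ≤ Real.log p := Real.log_nonneg hp1
  have hL2 : Real.log 2 ≤ Real.log (A : ℝ) := Real.log_le_log (by norm_num) hA2'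
  rcases le_total (Real.log p) 100 with hβ | hβ
  · exact gap_small_num _ hβ0 hβ _ hHc _ hL2
  refine gap_final_num _ hβ _ hHc _ ?_
  intro D B hD1 hB2 hDH hBD
  have hrA : r ≤ 2 * A := by
    rcases hrel with h | h
    · have h1 : ((A - A' : ℕ) : ZMod r) = 0 := by
        rw [Nat.cast_sub hlt.le, h, sub_self]
      rw [ZMod.natCast_eq_zero_iff] at h1
      have := Nat.le_of_dvd (by omega) h1
      omega
    · have h1 : ((A + A' : ℕ) : ZMod r) = 0 := by
        rw [Nat.cast_add, h, neg_add_cancel]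
      rw [ZMod.natCast_eq_zero_iff] at h1
      have := Nat.le_of_dvd (by omega) h1
      omega
  set G0 := 2 * r * (A - A') with hG0
  have hG0pos : 0 < G0 := by
    have := hr.pos
    have h2 : 0 < A - A' := by omega
    positivity
  have hG0le : (G0 : ℝ) ≤ 4 * (A : ℝ) ^ 2 := by
    have h1 : G0 ≤ 2 * (2 * A) * A := by
      rw [hG0]
      exact Nat.mul_le_mul (Nat.mul_le_mul le_rfl hrA) (Nat.sub_le _ _)
    calc (G0 : ℝ) ≤ ((2 * (2 * A) * A : ℕ) : ℝ) := by exact_mod_cast h1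
      _ = 4 * (A : ℝ) ^ 2 := by push_cast; ring
  set S : Finset (ZMod r)ˣ := (Set.toFinite (H : Set (ZMod r)ˣ)).toFinset with hS
  have hScard : S.card = Nat.card H := by
    rw [hS, ← Set.ncard_eq_toFinset_card]
    rfl
  obtain ⟨h, hhS, hh⟩ := exists_family' S D (by rw [hScard]; exact hDH)
  have hwmod : ∀ w : AlgebraicClosure (ZMod p), w ^ r = 1 → ∀ (n : ℕ) (u : ZMod r), (n : ZMod r) = u →
      w ^ u.val = w ^ n := by
    intro w hw n u hu
    rw [← hu, ZMod.val_natCast, ← pow_eq_pow_mod n hw]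
  have hch : ∀ a, ∃ n : ℕ, Good (AlgebraicClosure (ZMod p)) r n ∧ (n : ZMod r) = (h a : ZMod r) := by
    intro a
    have h1 : h a ∈ H := by
      have := hhS a
      rw [hS, Set.Finite.mem_toFinset] at this
      exact this
    obtain ⟨i, j, hij⟩ := mem_closure_pow hmr hpr (h a) h1
    exact ⟨_, good_mul (good_pow hgood _) (good_pow (good_char p) _), hij⟩
  choose n hn hnh using hch
  -- suppose B ^ D / 2 > G0
  have hkey : (B : ℝ) ^ D / 2 ≤ G0 := by
    by_contra hcon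
    push Not at hcon
    have hcore := gap_core p r D B G0 hpr' h hh n hG0pos
      (fun w hw hw1 => period hlt hgA hgA' hcop' hrel w hw hw1)
      (fun a w hw hw1 => by
        rw [hwmod w hw (n a) _ (hnh a)]
        exact hn a w hw) hcon
    have hDr : 2 * D ≤ r := by
      have h1 := card_closure_le r H
      have h2 : (Nat.card H : ℝ) + 1 ≤ r := by linarith
      have h3 : Nat.card H + 1 ≤ r := by exact_mod_cast h2
      omega
    have hW := sum_ell_sq_le r
    have hW0 : 0 ≤ ∑ b : (ZMod r)ˣ, ell r (b : ZMod r) ^ 2 := Finset.sum_nonneg fun b _ => sq_nonneg _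
    have hnum := gap_height_num _ hβ D B r hD1 hDr hr.two_le hBD _ hW0 hW
    exact absurd hcore (not_le.2 hnum)
  have hB0 : (0 : ℝ) < B := by exact_mod_cast (by omega : 0 < B)
  have h1 : (B : ℝ) ^ D ≤ 8 * (A : ℝ) ^ 2 := by linarith
  have h2 : (D : ℝ) * Real.log B ≤ Real.log (8 * (A : ℝ) ^ 2) := by
    rw [← Real.log_pow]
    exact Real.log_le_log (by positivity) h1
  have h3 : Real.log (8 * (A : ℝ) ^ 2) = 3 * Real.log 2 + 2 * Real.log A := by
    rw [Real.log_mul (by norm_num) (by positivity), Real.log_pow, show (8 : ℝ) = 2 ^ 3 by norm_num, Real.log_pow]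
    norm_num
  linarith

/-- The gap theorem. -/
theorem gapK (p m e r k : ℕ) (hpp : p.Prime) (hrp : r.Prime) (hm1 : 1 ≤ m) (hpk : p ∣ k)
    (hm : m.Coprime r) (hp : p.Coprime r)
    (hdvd : (X ^ r - 1 : (ZMod k)[X]) ∣ (X - 1) ^ (m * p ^ e) - (X ^ (m * p ^ e) - 1))
    (i j i' j' : ℕ) (hlt : m ^ i' * p ^ j' < m ^ i * p ^ j)
    (hrel : ((m ^ i * p ^ j : ℕ) : ZMod r) = ((m ^ i' * p ^ j' : ℕ) : ZMod r) ∨
      ((m ^ i * p ^ j : ℕ) : ZMod r) = -((m ^ i' * p ^ j' : ℕ) : ZMod r)) :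
    1 / 1000000 * (min (Nat.card (Subgroup.closure
      ({ZMod.unitOfCoprime m hm, ZMod.unitOfCoprime p hp} : Set (ZMod r)ˣ)) : ℝ) (Real.log p ^ 2) *
      Real.log (2 + Real.log p ^ 2 / (Nat.card (Subgroup.closure
      ({ZMod.unitOfCoprime m hm, ZMod.unitOfCoprime p hp} : Set (ZMod r)ˣ)) : ℝ))) ≤
      Real.log ((m ^ i * p ^ j : ℕ) : ℝ) := by
  have : Fact p.Prime := ⟨hpp⟩
  have : Fact r.Prime := ⟨hrp⟩
  have hgood : Good (AlgebraicClosure (ZMod p)) r m :=
    good_of_mul_pow p e (good_of_dvd p _ (dvd_mod_p p k hpk _ r hdvd))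
  exact gap_lt p m r hm1 hm hp hgood i j i' j' hlt hrel

end Aks1
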