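import Pool.Agent.Aks1.GapNum

set_option autoImplicit false

/-! # Module Gap2Num: the numbers of the gap theorem, large groups -/

namespace Aks1

theorem gap2_height_num (β : ℝ) (hβ : 100 ≤ β) (k r : ℕ) (hk : 1 ≤ k) (hkr : 2 * k ≤ r)
    (hr : 2 ≤ r) (hkβ : (k : ℝ) ≤ β ^ 2 / 400) (W : ℝ) (hW0 : 0 ≤ W) (hW : W ≤ 0.834 * r + 1) :
    ((r : ℝ) - 1) * Real.log 2 + k * Real.log r + √(((r : ℝ) - 1) * (2 * (k * W))) <
      ((r : ℝ) - 1) * β := by
  have hr' : (2 : ℝ) ≤ r := by exact_mod_cast hr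
  have hr1 : (0 : ℝ) < (r : ℝ) - 1 := by linarith
  have hk' : (1 : ℝ) ≤ k := by exact_mod_cast hk
  set s := √(r : ℝ) with hs
  have hs2 : s ^ 2 = r := Real.sq_sqrt (by linarith)
  have hs1 : 1 ≤ s := by
    rw [hs, Real.one_le_sqrt]; linarith
  set d := √(k : ℝ) with hd
  have hd2 : d ^ 2 = k := Real.sq_sqrt (by linarith)
  have hd0 : 0 ≤ d := Real.sqrt_nonneg _
  have hdβ : d ≤ β / 20 := by
    apply Real.sqrt_le_iff.2
    refine ⟨by positivity, ?_⟩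
    calc (k : ℝ) ≤ β ^ 2 / 400 := hkβ
      _ = (β / 20) ^ 2 := by ring
  have hds : 2 * d ^ 2 ≤ s ^ 2 := by
    rw [hd2, hs2]; exact_mod_cast hkr
  have hds' : d ≤ 0.7072 * s := by
    by_contra hcon
    push Not at hcon
    have : (0.7072 * s) ^ 2 < d ^ 2 := by
      apply pow_lt_pow_left₀ hcon (by positivity) (by norm_num)
    nlinarith
  have hlog : Real.log r ≤ 2 * (s - 1) := by
    have h1 : Real.log r = 2 * Real.log s := by
      rw [← hs2, Real.log_pow]; norm_num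
    rw [h1]
    have := Real.log_le_sub_one_of_pos (by linarith : 0 < s)
    linarith
  have h2 : (k : ℝ) * Real.log r ≤ ((r : ℝ) - 1) * (0.3 * β) := by
    have e1 : (k : ℝ) * Real.log r ≤ d * d * (2 * (s - 1)) := by
      have : (k : ℝ) = d * d := by rw [← hd2]; ring
      rw [this]
      exact mul_le_mul_of_nonneg_left hlog (by positivity)
    have e2 : d * d * (2 * (s - 1)) ≤ (0.7072 * s) * (β / 20) * (2 * (s - 1)) := by
      refine mul_le_mul_of_nonneg_right ?_ (by linarith)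
      exact mul_le_mul hds' hdβ (by positivity) (by positivity)
    have e3 : (0.7072 * s) * (β / 20) * (2 * (s - 1)) ≤ ((r : ℝ) - 1) * (0.3 * β) := by
      have : (r : ℝ) - 1 = (s - 1) * (s + 1) := by rw [← hs2]; ring
      rw [this]
      have h0 : 0 ≤ (s - 1) * β := by
        apply mul_nonneg <;> linarith
      nlinarith
    linarith
  have h3 : √(((r : ℝ) - 1) * (2 * (k * W))) ≤ ((r : ℝ) - 1) * (0.3 * β) := by
    apply Real.sqrt_le_iff.2
    refine ⟨by positivity, ?_⟩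
    have e1 : W ≤ 2.668 * ((r : ℝ) - 1) := by linarith
    have e3 : 2 * ((k : ℝ) * W) ≤ 2 * ((β ^ 2 / 400) * (2.668 * ((r : ℝ) - 1))) := by
      have := mul_le_mul hkβ e1 hW0 (by positivity)
      linarith
    calc ((r : ℝ) - 1) * (2 * (k * W)) ≤ ((r : ℝ) - 1) * (2 * ((β ^ 2 / 400) * (2.668 * ((r : ℝ) - 1)))) :=
          mul_le_mul_of_nonneg_left e3 hr1.le
      _ = (((r : ℝ) - 1) * β) ^ 2 * (2.668 / 200) := by ring
      _ ≤ (((r : ℝ) - 1) * (0.3 * β)) ^ 2 := by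
          have : (((r : ℝ) - 1) * (0.3 * β)) ^ 2 = (((r : ℝ) - 1) * β) ^ 2 * 0.09 := by ring
          rw [this]
          refine mul_le_mul_of_nonneg_left (by norm_num) (by positivity)
  have h1 : ((r : ℝ) - 1) * Real.log 2 ≤ ((r : ℝ) - 1) * 1 := by
    refine mul_le_mul_of_nonneg_left ?_ hr1.le
    have := Real.log_two_lt_d9
    linarith
  have h4 : 0 < ((r : ℝ) - 1) * (0.4 * β - 1) := mul_pos hr1 (by linarith)
  nlinarith

theorem choose_lower (n k : ℕ) (hk : 1 ≤ k) (hkn : 2 * k ≤ n) :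
    ((n : ℝ) / k) ^ k ≤ (n.choose k : ℝ) * 2 ^ k := by
  have h1 : (((n + 1 - k : ℕ) ^ k : ℕ) : ℝ) / (k.factorial : ℝ) ≤ (n.choose k : ℝ) := by
    have := Nat.pow_le_choose k n (α := ℝ)
    push_cast at this ⊢
    exact this
  have hk0 : (0 : ℝ) < k := by exact_mod_cast hk
  have h2 : (k.factorial : ℝ) ≤ (k : ℝ) ^ k := by exact_mod_cast Nat.factorial_le_pow k
  have h3 : (n : ℝ) / 2 ≤ ((n + 1 - k : ℕ) : ℝ) := by
    rw [Nat.cast_sub (by omega)]
    have : (2 * k : ℝ) ≤ n := by exact_mod_cast hkn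
    push_cast
    linarith
  have hf : (0 : ℝ) < k.factorial := by exact_mod_cast Nat.factorial_pos k
  have h4 : ((n : ℝ) / 2) ^ k / (k : ℝ) ^ k ≤ (n.choose k : ℝ) := by
    refine le_trans ?_ h1
    have h5 : ((n : ℝ) / 2) ^ k ≤ (((n + 1 - k : ℕ) ^ k : ℕ) : ℝ) := by
      push_cast
      exact pow_le_pow_left₀ (by positivity) h3 k
    exact div_le_div₀ (by positivity) h5 hf h2
  have h6 : ((n : ℝ) / k) ^ k = ((n : ℝ) / 2) ^ k / (k : ℝ) ^ k * 2 ^ k := by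
    rw [← div_pow, ← mul_pow]
    congr 1
    field_simp
  rw [h6]
  exact mul_le_mul_of_nonneg_right h4 (by positivity)

theorem gap2_final_num (β : ℝ) (hβ : 100 ≤ β) (h : ℕ) (hhβ : β ^ 2 ≤ h) (L : ℝ)
    (hL : ∀ D k : ℕ, 1 ≤ k → 2 * k ≤ D → 2 * D ≤ h + 1 → (k : ℝ) ≤ β ^ 2 / 400 →
      k * Real.log ((D : ℝ) / k) ≤ 5 * L) :
    1 / 10000000 * (min (h : ℝ) (β ^ 2) * Real.log (2 + β ^ 2 / h + h / β ^ 2)) ≤ L := by
  have hβ2 : (10000 : ℝ) ≤ β ^ 2 := by nlinarith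
  set k := ⌊β ^ 2 / 400⌋₊ with hk
  have hkle : (k : ℝ) ≤ β ^ 2 / 400 := Nat.floor_le (by positivity)
  have hkgt : β ^ 2 / 400 < k + 1 := Nat.lt_floor_add_one _
  have hk24 : (24 : ℝ) < k := by linarith
  have hk1 : 1 ≤ k := by
    have : (1 : ℝ) ≤ k := by linarith
    exact_mod_cast this
  have hk0 : (0 : ℝ) < k := by linarith
  set D := (h + 1) / 2 with hD
  have hDh : h ≤ 2 * D := by omega
  have hDh' : (h : ℝ) ≤ 2 * D := by exact_mod_cast hDh
  have h2k : 2 * k ≤ D := by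
    have : (2 * k : ℝ) ≤ D := by nlinarith
    exact_mod_cast this
  have key := hL D k hk1 h2k (by omega) hkle
  have hh0 : (0 : ℝ) < h := by linarith
  have h1 : 2 + β ^ 2 / h + h / β ^ 2 ≤ (D : ℝ) / k := by
    have e1 : β ^ 2 / h ≤ 1 := by rw [div_le_one hh0]; exact hhβ
    have e2 : 1 ≤ h / β ^ 2 := by rw [le_div_iff₀ (by positivity)]; linarith
    have e3 : 200 * (h / β ^ 2) ≤ (D : ℝ) / k := by
      rw [le_div_iff₀ hk0]
      calc 200 * (h / β ^ 2) * k ≤ 200 * (h / β ^ 2) * (β ^ 2 / 400) :=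
            mul_le_mul_of_nonneg_left hkle (by positivity)
        _ = h / 2 := by field_simp; norm_num
        _ ≤ D := by linarith
    linarith
  have hpos : 0 < 2 + β ^ 2 / h + h / β ^ 2 := by positivity
  have h2 : Real.log (2 + β ^ 2 / h + h / β ^ 2) ≤ Real.log ((D : ℝ) / k) := Real.log_le_log hpos h1
  have hlog0 : 0 ≤ Real.log (2 + β ^ 2 / h + h / β ^ 2) := by
    apply Real.log_nonneg
    have : 0 ≤ β ^ 2 / h := by positivity
    have : 0 ≤ h / β ^ 2 := by positivity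
    linarith
  have h3 : min (h : ℝ) (β ^ 2) ≤ 800 * k := (min_le_right _ _).trans (by linarith)
  have h4 : min (h : ℝ) (β ^ 2) * Real.log (2 + β ^ 2 / h + h / β ^ 2) ≤ (800 * k) * Real.log ((D : ℝ) / k) :=
    mul_le_mul h3 h2 hlog0 (by positivity)
  have h5 : 0 ≤ (k : ℝ) * Real.log ((D : ℝ) / k) := mul_nonneg hk0.le (hlog0.trans h2)
  nlinarith

theorem gap2_mid_num (β : ℝ) (hβ : 100 ≤ β) (h : ℕ) (hh : 1 ≤ h) (hhβ : (h : ℝ) ≤ β ^ 2) (L : ℝ)
    (hL : 1 / 1000000 * (min (h : ℝ) (β ^ 2) * Real.log (2 + β ^ 2 / h)) ≤ L) :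
    1 / 10000000 * (min (h : ℝ) (β ^ 2) * Real.log (2 + β ^ 2 / h + h / β ^ 2)) ≤ L := by
  have hh' : (1 : ℝ) ≤ h := by exact_mod_cast hh
  have hβ2 : 0 < β ^ 2 := by positivity
  have h1 : (h : ℝ) / β ^ 2 ≤ 1 := by rw [div_le_one hβ2]; exact hhβ
  have h2 : 0 ≤ β ^ 2 / h := by positivity
  have h3 : 2 + β ^ 2 / h + h / β ^ 2 ≤ (2 + β ^ 2 / h) ^ 2 := by nlinarith
  have h4 : Real.log (2 + β ^ 2 / h + h / β ^ 2) ≤ 2 * Real.log (2 + β ^ 2 / h) := by
    calc Real.log (2 + β ^ 2 / h + h / β ^ 2) ≤ Real.log ((2 + β ^ 2 / h) ^ 2) :=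
          Real.log_le_log (by positivity) h3
      _ = 2 * Real.log (2 + β ^ 2 / h) := by rw [Real.log_pow]; norm_num
  have hmin0 : 0 ≤ min (h : ℝ) (β ^ 2) := le_min (by linarith) hβ2.le
  have hlog0 : 0 ≤ Real.log (2 + β ^ 2 / h) := Real.log_nonneg (by linarith)
  have h5 : min (h : ℝ) (β ^ 2) * Real.log (2 + β ^ 2 / h + h / β ^ 2) ≤
      min (h : ℝ) (β ^ 2) * (2 * Real.log (2 + β ^ 2 / h)) := mul_le_mul_of_nonneg_left h4 hmin0
  have h6 : 0 ≤ min (h : ℝ) (β ^ 2) * Real.log (2 + β ^ 2 / h) := mul_nonneg hmin0 hlog0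
  nlinarith

theorem gap2_small_num (β : ℝ) (hβ0 : Real.log 2 ≤ β) (hβ : β ≤ 100) (h : ℕ) (hh : 1 ≤ h) (A : ℝ) (hA : 2 ≤ A)
    (hhA : (h : ℝ) + 1 ≤ 2 * A) :
    1 / 10000000 * (min (h : ℝ) (β ^ 2) * Real.log (2 + β ^ 2 / h + h / β ^ 2)) ≤ Real.log A := by
  have hh' : (1 : ℝ) ≤ h := by exact_mod_cast hh
  have hl2 : 0.693 < Real.log 2 := by have := Real.log_two_gt_d9; linarith
  have hβ2 : β ^ 2 ≤ 10000 := by nlinarith
  have hβ3 : 0.48 ≤ β ^ 2 := by nlinarith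
  have h1 : β ^ 2 / h ≤ 10000 := by
    rw [div_le_iff₀ (by linarith)]
    nlinarith
  have h2 : (h : ℝ) / β ^ 2 ≤ 2.1 * h := by
    rw [div_le_iff₀ (by linarith)]
    nlinarith
  have h0 : 0 ≤ β ^ 2 / h := by positivity
  have h0' : 0 ≤ (h : ℝ) / β ^ 2 := by positivity
  have h3 : 2 + β ^ 2 / h + h / β ^ 2 ≤ 8192 * A := by linarith
  have h4 : Real.log (2 + β ^ 2 / h + h / β ^ 2) ≤ 13 * Real.log 2 + Real.log A := by
    calc Real.log (2 + β ^ 2 / h + h / β ^ 2) ≤ Real.log (8192 * A) := Real.log_le_log (by positivity) h3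
      _ = 13 * Real.log 2 + Real.log A := by
        rw [Real.log_mul (by norm_num) (by positivity), show (8192 : ℝ) = 2 ^ 13 by norm_num, Real.log_pow]
        norm_num
  have h5 : Real.log 2 ≤ Real.log A := Real.log_le_log (by norm_num) hA
  have hlog0 : 0 ≤ Real.log (2 + β ^ 2 / h + h / β ^ 2) := Real.log_nonneg (by linarith)
  have h6 : min (h : ℝ) (β ^ 2) ≤ 10000 := (min_le_right _ _).trans hβ2
  have h7 : min (h : ℝ) (β ^ 2) * Real.log (2 + β ^ 2 / h + h / β ^ 2) ≤ 10000 * (14 * Real.log A) :=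
    mul_le_mul h6 (by linarith) hlog0 (by norm_num)
  linarith

end Aks1
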