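import Pool.Agent.Aks1.Gap
import Pool.Agent.Aks1.Cnt
import Pool.Agent.Aks1.Gap2Num

set_option autoImplicit false

/-! # Module Gap2: the gap theorem for large groups (sparse signs) -/

namespace Aks1

open Polynomial

/-- positive and negative parts of a sparse sign vector `(U, S)` -/
def pos {D : ℕ} (q : Finset (Fin D) × Finset (Fin D)) (a : Fin D) : ℕ := if a ∈ q.1 ∧ a ∈ q.2 then 1 else 0
def neg {D : ℕ} (q : Finset (Fin D) × Finset (Fin D)) (a : Fin D) : ℕ := if a ∈ q.1 ∧ a ∉ q.2 then 1 else 0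

theorem pos_add_neg {D : ℕ} (q : Finset (Fin D) × Finset (Fin D)) :
    (∑ a, (pos q a : ℝ)) + ∑ a, (neg q a : ℝ) = q.1.card := by
  rw [← Finset.sum_add_distrib]
  have : ∀ a, (pos q a : ℝ) + (neg q a : ℝ) = if a ∈ q.1 then 1 else 0 := by
    intro a
    unfold pos neg
    by_cases h1 : a ∈ q.1 <;> by_cases h2 : a ∈ q.2 <;> simp [h1, h2]
  rw [Finset.sum_congr rfl fun a _ => this a]
  simp

theorem pos_sub_neg {D : ℕ} {B : Type*} (v : Fin D → B → ℝ) (q : Finset (Fin D) × Finset (Fin D)) (b : B) :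
    ∑ a, ((pos q a : ℝ) - (neg q a : ℝ)) * v a b = xx v q b := by
  have : ∀ a, ((pos q a : ℝ) - (neg q a : ℝ)) * v a b =
      (if a ∈ q.1 then (if a ∈ q.2 then (1 : ℝ) else -1) * v a b else 0) := by
    intro a
    unfold pos neg
    by_cases h1 : a ∈ q.1 <;> by_cases h2 : a ∈ q.2 <;> simp [h1, h2]
  rw [Finset.sum_congr rfl fun a _ => this a]
  unfold xx
  rw [Finset.sum_ite_mem]
  simp

theorem cross_inj {D : ℕ} (q q' : Finset (Fin D) × Finset (Fin D)) (hq : q.2 ⊆ q.1) (hq' : q'.2 ⊆ q'.1)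
    (h : (fun a => pos q a + neg q' a) = fun a => pos q' a + neg q a) : q = q' := by
  have h1 : ∀ a, (a ∈ q.1 ↔ a ∈ q'.1) ∧ (a ∈ q.2 ↔ a ∈ q'.2) := by
    intro a
    have := congrFun h a
    unfold pos neg at this
    have e1 := @hq a
    have e2 := @hq' a
    by_cases h1 : a ∈ q.1 <;> by_cases h2 : a ∈ q.2 <;> by_cases h3 : a ∈ q'.1 <;> by_cases h4 : a ∈ q'.2 <;>
      simp_all
  refine Prod.ext ?_ ?_
  · ext a; exact (h1 a).1
  · ext a; exact (h1 a).2

theorem gap_core2 (p r D k G0 : ℕ) [Fact p.Prime] [Fact r.Prime] (hpr : p ≠ r)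
    (h : Fin D → (ZMod r)ˣ) (hh : ∀ a b, a ≠ b → h a ≠ h b ∧ h a ≠ -h b)
    (e : Fin D → ℕ) (hG : 0 < G0)
    (hper : ∀ w : AlgebraicClosure (ZMod p), w ^ r = 1 → w ≠ 1 → (w - 1) ^ G0 = 1)
    (hE : ∀ a, ∀ w : AlgebraicClosure (ZMod p), w ^ r = 1 → w ≠ 1 →
      (w - 1) ^ e a = w ^ (h a : ZMod r).val - 1)
    (hcount : (G0 : ℝ) < 1 / 2 * ((D.choose k : ℝ) * 2 ^ k)) :
    ((r : ℝ) - 1) * Real.log p ≤ ((r : ℝ) - 1) * Real.log 2 + k * Real.log r +
      √(((r : ℝ) - 1) * (2 * (k * ∑ b : (ZMod r)ˣ, ell r (b : ZMod r) ^ 2))) := by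
  classical
  set W := ∑ b : (ZMod r)ˣ, ell r (b : ZMod r) ^ 2 with hW
  set v : Fin D → (ZMod r)ˣ → ℝ := fun a b => ell r ((h a * b : (ZMod r)ˣ) : ZMod r) with hv
  have hvW : ∀ a, ∑ b, v a b ^ 2 = W := by
    intro a
    rw [hW, hv]
    exact Fintype.sum_equiv (Equiv.mulLeft (h a)) _ _ fun b => rfl
  set Gd : Finset (Finset (Fin D) × Finset (Fin D)) :=
    ((Finset.powersetCard k (Finset.univ : Finset (Fin D))).sigma (fun U => U.powerset.filter (fun S =>
      ∑ b, (∑ a ∈ U, (if a ∈ S then (1 : ℝ) else -1) * v a b) ^ 2 ≤ (1 + 1) * (U.card * W)))).image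
      (fun s => (s.1, s.2)) with hGd
  have hmem : ∀ q ∈ Gd, q.1.card = k ∧ q.2 ⊆ q.1 ∧ ∑ b, xx v q b ^ 2 ≤ 2 * (k * W) := by
    intro q hq
    rw [hGd, Finset.mem_image] at hq
    obtain ⟨⟨U, S⟩, hs, rfl⟩ := hq
    rw [Finset.mem_sigma, Finset.mem_powersetCard, Finset.mem_filter, Finset.mem_powerset] at hs
    obtain ⟨⟨-, hU⟩, hS, hb⟩ := hs
    refine ⟨hU, hS, ?_⟩
    rw [hU] at hb
    calc ∑ b, xx v (U, S) b ^ 2 ≤ (1 + 1) * (k * W) := hb
      _ = 2 * (k * W) := by ring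
  have hcard : 1 / 2 * ((D.choose k : ℝ) * 2 ^ k) ≤ (Gd.card : ℝ) := by
    rw [hGd, Finset.card_image_of_injective, Finset.card_sigma, Nat.cast_sum]
    · have : ∀ U ∈ Finset.powersetCard k (Finset.univ : Finset (Fin D)), (1 : ℝ) / 2 * 2 ^ k ≤
          (((U.powerset.filter (fun S => ∑ b, (∑ a ∈ U, (if a ∈ S then (1 : ℝ) else -1) * v a b) ^ 2 ≤
            (1 + 1) * (U.card * W))).card : ℕ) : ℝ) := by
        intro U hU
        rw [Finset.mem_powersetCard] at hU
        have := signs U v W (fun a _ => (hvW a).le) 1 (by norm_num)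
        rw [hU.2] at this ⊢
        calc (1 : ℝ) / 2 * 2 ^ k = 1 / (1 + 1) * 2 ^ k := by norm_num
          _ ≤ _ := this
      calc 1 / 2 * ((D.choose k : ℝ) * 2 ^ k)
          = ∑ U ∈ Finset.powersetCard k (Finset.univ : Finset (Fin D)), (1 : ℝ) / 2 * 2 ^ k := by
            rw [Finset.sum_const, Finset.card_powersetCard, Finset.card_univ, Fintype.card_fin, nsmul_eq_mul]
            ring
        _ ≤ _ := Finset.sum_le_sum this
    · rintro ⟨a, b⟩ ⟨c, d⟩ hab
      simpa using hab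
  have hlt : (Finset.range G0).card < Gd.card := by
    rw [Finset.card_range]
    have : (G0 : ℝ) < (Gd.card : ℝ) := lt_of_lt_of_le hcount hcard
    exact_mod_cast this
  obtain ⟨q, hq, q', hq', hne, hqq⟩ := Finset.exists_ne_map_eq_of_card_lt_of_maps_to hlt
    (f := fun q : Finset (Fin D) × Finset (Fin D) =>
      ((∑ a, pos q a * e a) + (G0 - 1) * ∑ a, neg q a * e a) % G0)
    (fun z _ => Finset.mem_coe.2 (Finset.mem_range.2 (Nat.mod_lt _ hG)))
  obtain ⟨hc, hs, hb⟩ := hmem q hq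
  obtain ⟨hc', hs', hb'⟩ := hmem q' hq'
  have hne' : (fun a => pos q a + neg q' a) ≠ fun a => pos q' a + neg q a := fun hcon =>
    hne (cross_inj q q' hs hs' hcon)
  have hprod : ∀ (f : Fin D → ℕ) (w : AlgebraicClosure (ZMod p)), w ^ r = 1 → w ≠ 1 →
      ∏ a, (w ^ (h a : ZMod r).val - 1) ^ f a = (w - 1) ^ (∑ a, f a * e a) := by
    intro f w hw hw1
    rw [← Finset.prod_pow_eq_pow_sum]
    refine Finset.prod_congr rfl fun a _ => ?_
    rw [← hE a w hw hw1, ← pow_mul, mul_comm (e a)]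
  have hheight := height p r D hpr h hh (fun a => pos q a + neg q' a) (fun a => pos q' a + neg q a) hne'
    (fun w hw hw1 => by
      rw [hprod _ w hw hw1, hprod _ w hw hw1]
      have hs0 : w - 1 ≠ 0 := sub_ne_zero.2 hw1
      have hG1 : (w - 1) ^ G0 = 1 := hper w hw hw1
      set P := ∑ a, pos q a * e a with hP
      set N := ∑ a, neg q a * e a with hN
      set P' := ∑ a, pos q' a * e a with hP'
      set N' := ∑ a, neg q' a * e a with hN'
      have e1 : ∑ a, (pos q a + neg q' a) * e a = P + N' := by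
        rw [hP, hN', ← Finset.sum_add_distrib]
        exact Finset.sum_congr rfl fun a _ => by ring
      have e2 : ∑ a, (pos q' a + neg q a) * e a = P' + N := by
        rw [hP', hN, ← Finset.sum_add_distrib]
        exact Finset.sum_congr rfl fun a _ => by ring
      rw [e1, e2]
      have e3 : (w - 1) ^ (P + (G0 - 1) * N) = (w - 1) ^ (P' + (G0 - 1) * N') := by
        rw [pow_eq_pow_mod _ hG1, pow_eq_pow_mod (P' + (G0 - 1) * N') hG1]
        exact congrArg _ hqq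
      have e4 : (w - 1) ^ (P + (G0 - 1) * N) * (w - 1) ^ (N + N') = (w - 1) ^ (P + N') := by
        rw [← pow_add, show P + (G0 - 1) * N + (N + N') = P + N' + G0 * N by
          obtain ⟨g, rfl⟩ := Nat.exists_eq_succ_of_ne_zero hG.ne'
          simp only [Nat.succ_eq_add_one, Nat.add_sub_cancel]; ring]
        rw [pow_add, pow_mul, hG1, one_pow, mul_one]
      have e5 : (w - 1) ^ (P' + (G0 - 1) * N') * (w - 1) ^ (N + N') = (w - 1) ^ (P' + N) := by
        rw [← pow_add, show P' + (G0 - 1) * N' + (N + N') = P' + N + G0 * N' by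
          obtain ⟨g, rfl⟩ := Nat.exists_eq_succ_of_ne_zero hG.ne'
          simp only [Nat.succ_eq_add_one, Nat.add_sub_cancel]; ring]
        rw [pow_add, pow_mul, hG1, one_pow, mul_one]
      rw [← e4, ← e5, e3])
  have hr2 : (1 : ℝ) ≤ r := by exact_mod_cast (Fact.out : r.Prime).one_lt.le
  have hlogr : 0 ≤ Real.log r := Real.log_nonneg hr2
  have hsq : (Fintype.card (ZMod r)ˣ : ℝ) = (r : ℝ) - 1 := by
    rw [ZMod.card_units_eq_totient, Nat.totient_prime Fact.out, Nat.cast_sub (Fact.out : r.Prime).one_lt.le]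
    simp
  have h1 : ((∑ a, ((pos q a + neg q' a : ℕ) : ℝ)) + ∑ a, ((pos q' a + neg q a : ℕ) : ℝ)) / 2 * Real.log r =
      k * Real.log r := by
    have e1 := pos_add_neg q
    have e2 := pos_add_neg q'
    rw [hc] at e1
    rw [hc'] at e2
    push_cast
    rw [Finset.sum_add_distrib, Finset.sum_add_distrib]
    have : (((∑ a, (pos q a : ℝ)) + ∑ a, (neg q' a : ℝ)) + ((∑ a, (pos q' a : ℝ)) + ∑ a, (neg q a : ℝ))) / 2 = k := by
      linarith
    rw [this]
  have h2 : ∀ b, ∑ a, ((pos q a + neg q' a : ℕ) : ℝ) * ell r ((h a * b : (ZMod r)ˣ) : ZMod r) -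
      ∑ a, ((pos q' a + neg q a : ℕ) : ℝ) * ell r ((h a * b : (ZMod r)ˣ) : ZMod r) = xx v q b - xx v q' b := by
    intro b
    rw [← pos_sub_neg v q b, ← pos_sub_neg v q' b, ← Finset.sum_sub_distrib, ← Finset.sum_sub_distrib]
    refine Finset.sum_congr rfl fun a _ => ?_
    rw [hv]
    push_cast
    ring
  have h3 : 1 / 2 * ∑ b, |xx v q b - xx v q' b| ≤ √(((r : ℝ) - 1) * (2 * (k * W))) := by
    have hcs : ∀ y : (ZMod r)ˣ → ℝ, ∑ b, y b ^ 2 ≤ 2 * (k * W) →
        ∑ b, |y b| ≤ √(((r : ℝ) - 1) * (2 * (k * W))) := by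
      intro y hy
      apply Real.le_sqrt_of_sq_le
      have h4 : (∑ b, |y b|) ^ 2 ≤ (Finset.univ : Finset (ZMod r)ˣ).card * ∑ b, |y b| ^ 2 :=
        sq_sum_le_card_mul_sum_sq
      rw [Finset.card_univ, hsq] at h4
      refine h4.trans (mul_le_mul_of_nonneg_left ?_ (by linarith))
      simp only [sq_abs]
      linarith
    have h5 : ∑ b, |xx v q b - xx v q' b| ≤ ∑ b, |xx v q b| + ∑ b, |xx v q' b| := by
      rw [← Finset.sum_add_distrib]
      exact Finset.sum_le_sum fun b _ => abs_sub _ _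
    have h6 := hcs (xx v q) hb
    have h7 := hcs (xx v q') hb'
    linarith
  rw [Finset.sum_congr rfl fun b _ => congrArg abs (h2 b), h1] at hheight
  linarith

/-- The gap theorem for good exponents, final form. -/
theorem gap2_lt (p m r : ℕ) [Fact p.Prime] [Fact r.Prime] (hm1 : 1 ≤ m) (hmr : m.Coprime r) (hpr : p.Coprime r)
    (hgood : Good (AlgebraicClosure (ZMod p)) r m) (i j i' j' : ℕ) (hlt : m ^ i' * p ^ j' < m ^ i * p ^ j)
    (hrel : ((m ^ i * p ^ j : ℕ) : ZMod r) = ((m ^ i' * p ^ j' : ℕ) : ZMod r) ∨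
      ((m ^ i * p ^ j : ℕ) : ZMod r) = -((m ^ i' * p ^ j' : ℕ) : ZMod r)) :
    1 / 10000000 * (min (Nat.card (Subgroup.closure
      ({ZMod.unitOfCoprime m hmr, ZMod.unitOfCoprime p hpr} : Set (ZMod r)ˣ)) : ℝ) (Real.log p ^ 2) *
      Real.log (2 + Real.log p ^ 2 / (Nat.card (Subgroup.closure
      ({ZMod.unitOfCoprime m hmr, ZMod.unitOfCoprime p hpr} : Set (ZMod r)ˣ)) : ℝ) +
      (Nat.card (Subgroup.closure
      ({ZMod.unitOfCoprime m hmr, ZMod.unitOfCoprime p hpr} : Set (ZMod r)ˣ)) : ℝ) / Real.log p ^ 2)) ≤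
      Real.log ((m ^ i * p ^ j : ℕ) : ℝ) := by
  classical
  have hold := gap_lt p m r hm1 hmr hpr hgood i j i' j' hlt hrel
  have hp : p.Prime := Fact.out
  have hr : r.Prime := Fact.out
  have hpr' : p ≠ r := by
    rintro rfl
    exact hp.one_lt.ne' (by simpa using hpr)
  set H := Subgroup.closure ({ZMod.unitOfCoprime m hmr, ZMod.unitOfCoprime p hpr} : Set (ZMod r)ˣ) with hH
  set A := m ^ i * p ^ j with hA
  set A' := m ^ i' * p ^ j' with hA'
  have hA'1 : 1 ≤ A' := Nat.mul_pos (pow_pos (by omega) _) (pow_pos hp.pos _)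
  have hA2 : 2 ≤ A := by omega
  have hA2' : (2 : ℝ) ≤ A := by exact_mod_cast hA2
  have hgA : Good (AlgebraicClosure (ZMod p)) r A := good_mul (good_pow hgood _) (good_pow (good_char p) _)
  have hgA' : Good (AlgebraicClosure (ZMod p)) r A' := good_mul (good_pow hgood _) (good_pow (good_char p) _)
  have hcop' : A'.Coprime r := Nat.Coprime.mul_left (Nat.Coprime.pow_left _ hmr) (Nat.Coprime.pow_left _ hpr)
  have hHc : 1 ≤ Nat.card H := Nat.one_le_iff_ne_zero.2 (Nat.card_pos (α := H)).ne'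
  have hp2 : (2 : ℝ) ≤ p := by exact_mod_cast hp.two_le
  have hβ2 : Real.log 2 ≤ Real.log p := Real.log_le_log (by norm_num) hp2
  have hrA : r ≤ 2 * A := by
    rcases hrel with h | h
    · have h1 : ((A - A' : ℕ) : ZMod r) = 0 := by
        rw [Nat.cast_sub hlt.le, h, sub_self]
      rw [ZMod.natCast_eq_zero_iff] at h1
      have := Nat.le_of_dvd (by omega) h1
      omega
    · have h1 : ((A + A' : ℕ) : ZMod r) = 0 := by
        rw [Nat.cast_add, h, neg_add_cancel]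
      rw [ZMod.natCast_eq_zero_iff] at h1
      have := Nat.le_of_dvd (by omega) h1
      omega
  have hHr : Nat.card H + 1 ≤ r := by
    have h1 := card_closure_le r H
    have h2 : (Nat.card H : ℝ) + 1 ≤ r := by linarith
    exact_mod_cast h2
  have hHA : (Nat.card H : ℝ) + 1 ≤ 2 * A := by exact_mod_cast hHr.trans hrA
  rcases le_total (Real.log p) 100 with hβ | hβ
  · exact gap2_small_num _ hβ2 hβ _ hHc _ hA2' hHA
  rcases le_total ((Nat.card H : ℕ) : ℝ) (Real.log p ^ 2) with hcase | hcase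
  · exact gap2_mid_num _ hβ _ hHc hcase _ hold
  refine gap2_final_num _ hβ _ hcase _ ?_
  intro D k hk1 h2k hDH hkβ
  set G0 := 2 * r * (A - A') with hG0
  have hG0pos : 0 < G0 := by
    have := hr.pos
    have h2 : 0 < A - A' := by omega
    positivity
  have hG0le : (G0 : ℝ) ≤ 4 * (A : ℝ) ^ 2 := by
    have h1 : G0 ≤ 2 * (2 * A) * A := by
      rw [hG0]
      exact Nat.mul_le_mul (Nat.mul_le_mul le_rfl hrA) (Nat.sub_le _ _)
    calc (G0 : ℝ) ≤ ((2 * (2 * A) * A : ℕ) : ℝ) := by exact_mod_cast h1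
      _ = 4 * (A : ℝ) ^ 2 := by push_cast; ring
  set S : Finset (ZMod r)ˣ := (Set.toFinite (H : Set (ZMod r)ˣ)).toFinset with hS
  have hScard : S.card = Nat.card H := by
    rw [hS, ← Set.ncard_eq_toFinset_card]
    rfl
  obtain ⟨h, hhS, hh⟩ := exists_family' S D (by rw [hScard]; exact hDH)
  have hwmod : ∀ w : AlgebraicClosure (ZMod p), w ^ r = 1 → ∀ (n : ℕ) (u : ZMod r), (n : ZMod r) = u →
      w ^ u.val = w ^ n := by
    intro w hw n u hu
    rw [← hu, ZMod.val_natCast, ← pow_eq_pow_mod n hw]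
  have hch : ∀ a, ∃ n : ℕ, Good (AlgebraicClosure (ZMod p)) r n ∧ (n : ZMod r) = (h a : ZMod r) := by
    intro a
    have h1 : h a ∈ H := by
      have := hhS a
      rw [hS, Set.Finite.mem_toFinset] at this
      exact this
    obtain ⟨i, j, hij⟩ := mem_closure_pow hmr hpr (h a) h1
    exact ⟨_, good_mul (good_pow hgood _) (good_pow (good_char p) _), hij⟩
  choose n hn hnh using hch
  have hkey : 1 / 2 * ((D.choose k : ℝ) * 2 ^ k) ≤ G0 := by
    by_contra hcon
    push Not at hcon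
    have hcore := gap_core2 p r D k G0 hpr' h hh n hG0pos
      (fun w hw hw1 => period hlt hgA hgA' hcop' hrel w hw hw1)
      (fun a w hw hw1 => by
        rw [hwmod w hw (n a) _ (hnh a)]
        exact hn a w hw) hcon
    have hW := sum_ell_sq_le r
    have hW0 : 0 ≤ ∑ b : (ZMod r)ˣ, ell r (b : ZMod r) ^ 2 := Finset.sum_nonneg fun b _ => sq_nonneg _
    have hnum := gap2_height_num _ hβ k r hk1 (by omega) hr.two_le hkβ _ hW0 hW
    exact absurd hcore (not_le.2 hnum)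
  have hk0 : (0 : ℝ) < k := by exact_mod_cast hk1
  have hD0 : (0 : ℝ) < D := by exact_mod_cast (by omega : 0 < D)
  have h1 : ((D : ℝ) / k) ^ k ≤ 8 * (A : ℝ) ^ 2 := by
    have := choose_lower D k hk1 h2k
    linarith
  have h2 : (k : ℝ) * Real.log ((D : ℝ) / k) ≤ Real.log (8 * (A : ℝ) ^ 2) := by
    rw [← Real.log_pow]
    exact Real.log_le_log (by positivity) h1
  have h3 : Real.log (8 * (A : ℝ) ^ 2) = 3 * Real.log 2 + 2 * Real.log A := by
    rw [Real.log_mul (by norm_num) (by positivity), Real.log_pow, show (8 : ℝ) = 2 ^ 3 by norm_num, Real.log_pow]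
    norm_num
  have h4 : Real.log 2 ≤ Real.log (A : ℝ) := Real.log_le_log (by norm_num) hA2'
  linarith

/-- The gap theorem, final form. -/
theorem gapK2 (p m e r k : ℕ) (hpp : p.Prime) (hrp : r.Prime) (hm1 : 1 ≤ m) (hpk : p ∣ k)
    (hm : m.Coprime r) (hp : p.Coprime r)
    (hdvd : (X ^ r - 1 : (ZMod k)[X]) ∣ (X - 1) ^ (m * p ^ e) - (X ^ (m * p ^ e) - 1))
    (i j i' j' : ℕ) (hlt : m ^ i' * p ^ j' < m ^ i * p ^ j)
    (hrel : ((m ^ i * p ^ j : ℕ) : ZMod r) = ((m ^ i' * p ^ j' : ℕ) : ZMod r) ∨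
      ((m ^ i * p ^ j : ℕ) : ZMod r) = -((m ^ i' * p ^ j' : ℕ) : ZMod r)) :
    1 / 10000000 * (min (Nat.card (Subgroup.closure
      ({ZMod.unitOfCoprime m hm, ZMod.unitOfCoprime p hp} : Set (ZMod r)ˣ)) : ℝ) (Real.log p ^ 2) *
      Real.log (2 + Real.log p ^ 2 / (Nat.card (Subgroup.closure
      ({ZMod.unitOfCoprime m hm, ZMod.unitOfCoprime p hp} : Set (ZMod r)ˣ)) : ℝ) +
      (Nat.card (Subgroup.closure
      ({ZMod.unitOfCoprime m hm, ZMod.unitOfCoprime p hp} : Set (ZMod r)ˣ)) : ℝ) / Real.log p ^ 2)) ≤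
      Real.log ((m ^ i * p ^ j : ℕ) : ℝ) := by
  have : Fact p.Prime := ⟨hpp⟩
  have : Fact r.Prime := ⟨hrp⟩
  have hgood : Good (AlgebraicClosure (ZMod p)) r m :=
    good_of_mul_pow p e (good_of_dvd p _ (dvd_mod_p p k hpk _ r hdvd))
  exact gap2_lt p m r hm1 hm hp hgood i j i' j' hlt hrel

end Aks1
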