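import Pool.Agent.Aks1.Cz

set_option autoImplicit false

/-! # Module Ind: independence of the numbers `1 - ζ^h` -/

namespace Aks1

variable (r : ℕ) [Fact r.Prime]

/-- MODULE ind1. `cosZeta (j / r) 1 = - ell r j` for `j ≠ 0` (`cosZeta_one`, `ZMod.toAddCircle_apply`, `ZMod.stdAddChar`). -/
theorem cosZeta_toAddCircle (j : ZMod r) (hj : j ≠ 0) :
    HurwitzZeta.cosZeta (ZMod.toAddCircle j) 1 = ((-ell r j : ℝ) : ℂ) := by
  have h1 : ((((j.val : ℕ) : ℝ) / r : ℝ) : UnitAddCircle) ≠ 0 := by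
    rw [← ZMod.toAddCircle_apply]
    exact fun hc => hj (ZMod.toAddCircle_eq_zero.1 hc)
  rw [ZMod.toAddCircle_apply, cosZeta_one _ h1]
  have h2 : (ZMod.stdAddChar j : ℂ) = Complex.exp (2 * Real.pi * Complex.I * ((((j.val : ℕ) : ℝ) / r : ℝ) : ℂ)) := by
    rw [ZMod.stdAddChar_apply, ZMod.toCircle_apply]
    push_cast
    ring_nf
  unfold ell
  rw [h2]

/-- Sum over the units. -/
private theorem ind23_units {M : Type*} [AddCommMonoid M] (f : ZMod r → M) (hf : f 0 = 0) :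
    ∑ b : (ZMod r)ˣ, f (b : ZMod r) = ∑ b : ZMod r, f b := by
  refine Fintype.sum_of_injective (fun b : (ZMod r)ˣ => (b : ZMod r)) Units.val_injective _ _ (fun b hb => ?_)
    (fun b => rfl)
  have h1 : b = 0 := by
    by_contra hc
    exact hb ⟨Units.mk0 b hc, rfl⟩
  rw [h1, hf]

private theorem ind23_ell_zero : ell r (0 : ZMod r) = 0 := by
  unfold ell
  rw [AddChar.map_zero_eq_one, sub_self, norm_zero, Real.log_zero]

/-- MODULE ind2. `∏_{b ≠ 0} (1 - ζ^b) = Φ_r(1) = r`. -/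
theorem sum_ell : ∑ b : (ZMod r)ˣ, ell r (b : ZMod r) = Real.log r := by
  rw [ind23_units r (fun b => ell r b) (ind23_ell_zero r)]
  have hr : 0 < r := (Fact.out : r.Prime).pos
  obtain ⟨n, hn⟩ : ∃ n, r = n + 1 := ⟨r - 1, by omega⟩
  have hprim : IsPrimitiveRoot (ZMod.stdAddChar (1 : ZMod r) : ℂ) (n + 1) := by
    rw [← hn]
    have h1 := Complex.isPrimitiveRoot_exp r hr.ne'
    have h2 : (ZMod.stdAddChar (1 : ZMod r) : ℂ) = Complex.exp (2 * Real.pi * Complex.I / r) := by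
      have h3 := ZMod.stdAddChar_coe (N := r) 1
      rw [Int.cast_one] at h3
      rw [h3]
      simp
    rw [h2]
    exact h1
  have hpow : ∀ k : ℕ, (ZMod.stdAddChar ((k : ℕ) : ZMod r) : ℂ) = ZMod.stdAddChar (1 : ZMod r) ^ k := by
    intro k
    rw [← AddChar.map_nsmul_eq_pow]
    simp
  have h1 : ∑ b : ZMod r, ell r b = ∑ k ∈ Finset.range r, ell r ((k : ℕ) : ZMod r) := by
    refine Finset.sum_nbij' (fun b : ZMod r => b.val) (fun k : ℕ => (k : ZMod r)) ?_ ?_ ?_ ?_ ?_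
    · intro b _
      exact Finset.mem_range.2 (ZMod.val_lt b)
    · intro k _
      exact Finset.mem_univ _
    · intro b _
      exact ZMod.natCast_zmod_val b
    · intro k hk
      exact ZMod.val_natCast_of_lt (Finset.mem_range.1 hk)
    · intro b _
      rw [ZMod.natCast_zmod_val]
  have h2 := hprim.prod_one_sub_pow_eq_order
  have h3 : (∑ k ∈ Finset.range n, ell r (((k + 1 : ℕ) : ℕ) : ZMod r)) = Real.log r := by
    have h4 : ∀ k ∈ Finset.range n, ‖(1 : ℂ) - (ZMod.stdAddChar (1 : ZMod r) : ℂ) ^ (k + 1)‖ ≠ 0 := by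
      intro k hk hc
      rw [norm_eq_zero] at hc
      have h5 : (∏ k ∈ Finset.range n, ((1 : ℂ) - (ZMod.stdAddChar (1 : ZMod r) : ℂ) ^ (k + 1))) = 0 :=
        Finset.prod_eq_zero hk hc
      rw [h2] at h5
      have h6 : ((n + 1 : ℕ) : ℂ) = 0 := by
        push_cast
        exact h5
      rw [Nat.cast_eq_zero] at h6
      omega
    have h7 : Real.log (∏ k ∈ Finset.range n, ‖(1 : ℂ) - (ZMod.stdAddChar (1 : ZMod r) : ℂ) ^ (k + 1)‖) =
        ∑ k ∈ Finset.range n, Real.log ‖(1 : ℂ) - (ZMod.stdAddChar (1 : ZMod r) : ℂ) ^ (k + 1)‖ :=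
      Real.log_prod h4
    rw [← norm_prod, h2] at h7
    have h8 : ‖((n : ℂ) + 1)‖ = (r : ℝ) := by
      have h9 : ((n : ℂ) + 1) = ((r : ℕ) : ℂ) := by
        rw [hn]
        push_cast
        ring
      rw [h9, Complex.norm_natCast]
    rw [h8] at h7
    rw [h7]
    refine Finset.sum_congr rfl (fun k _ => ?_)
    unfold ell
    rw [hpow, norm_sub_rev]
  rw [h1, ← h3]
  have h10 : Finset.range r = Finset.range (n + 1) := by rw [hn]
  rw [h10, Finset.sum_range_succ' (fun k => ell r ((k : ℕ) : ZMod r)) n, Nat.cast_zero, ind23_ell_zero, add_zero]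

/-- MODULE ind3. Proof: `χ ≠ 1` even. `ZMod.LFunction_dft` with `Φ = χ` (`χ 0 = 0`), `s = 1`:
`LFunction (𝓕 χ) 1 = ∑ j, χ j * expZeta (toAddCircle (-j)) 1`; `χ` is primitive (r prime, χ ≠ 1), so `𝓕 χ = gaussSum • χ⁻¹` up to `χ(-1) = 1`
(`DirichletCharacter.IsPrimitive.fourierTransform_eq_inv_mul_gaussSum`, `gaussSum ≠ 0`), and `LFunction χ⁻¹ 1 ≠ 0`
(`DirichletCharacter.LFunction_apply_one_ne_zero`). So `∑ j, χ j * expZeta (-j) 1 ≠ 0`; by evenness it is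
`∑ j, χ j * cosZeta j 1 = - ∑ j, χ j ell j` (`cosZeta_eq`, `ind1`; the term `j = 0` is `0`). -/
theorem char_sum_ne_zero (χ : DirichletCharacter ℂ r) (hχ : χ.Even) (h1 : χ ≠ 1) :
    ∑ b : (ZMod r)ˣ, χ (b : ZMod r) * (ell r (b : ZMod r) : ℂ) ≠ 0 := by
  have hp : r.Prime := Fact.out
  have hr1 : r ≠ 1 := hp.one_lt.ne'
  have h0 : χ 0 = 0 := χ.map_zero' hr1
  -- primitive
  have hprim : χ.IsPrimitive := by
    rw [DirichletCharacter.isPrimitive_def]
    rcases (Nat.dvd_prime hp).1 (DirichletCharacter.conductor_dvd_level χ) with h | h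
    · exact absurd (DirichletCharacter.eq_one_iff_conductor_eq_one.2 h) h1
    · exact h
  have hinv : χ⁻¹ ≠ 1 := fun hc => h1 (inv_eq_one.1 hc)
  have hL := DirichletCharacter.LFunction_apply_one_ne_zero hinv
  have hg : gaussSum χ (ZMod.stdAddChar (N := r)) ≠ 0 := by
    refine gaussSum_ne_zero_of_nontrivial ?_ h1 (ZMod.isPrimitive_stdAddChar r)
    rw [ZMod.card]
    exact_mod_cast hp.ne_zero
  have heven : ∀ j : ZMod r, χ (-j) = χ j := fun j => DirichletCharacter.Even.eval_neg χ j hχ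
  have heven' : χ⁻¹ (-1) = 1 := by
    have h2 : (χ * χ⁻¹) (-1) = 1 := by
      rw [mul_inv_cancel, MulChar.one_apply (isUnit_one.neg)]
    rw [MulChar.mul_apply] at h2
    have h3 : χ (-1) = 1 := hχ
    rwa [h3, one_mul] at h2
  have hS : ZMod.LFunction (ZMod.dft χ) 1 = ∑ j : ZMod r, χ j * HurwitzZeta.expZeta (ZMod.toAddCircle (-j)) 1 :=
    ZMod.LFunction_dft (χ : ZMod r → ℂ) (Or.inl h0)
  have hS2 : ZMod.LFunction (ZMod.dft χ) 1 =
      gaussSum χ (ZMod.stdAddChar (N := r)) * DirichletCharacter.LFunction χ⁻¹ 1 := by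
    have h3 : (ZMod.dft χ : ZMod r → ℂ) = fun k => gaussSum χ (ZMod.stdAddChar (N := r)) * χ⁻¹ k := by
      funext k
      rw [hprim.fourierTransform_eq_inv_mul_gaussSum, ← neg_one_mul k, map_mul, heven', one_mul, mul_comm]
    rw [h3]
    unfold DirichletCharacter.LFunction ZMod.LFunction
    rw [Finset.mul_sum, Finset.mul_sum, Finset.mul_sum]
    refine Finset.sum_congr rfl (fun j _ => ?_)
    ring
  have hS3 : ∑ j : ZMod r, χ j * HurwitzZeta.expZeta (ZMod.toAddCircle (-j)) 1 =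
      ∑ j : ZMod r, χ j * HurwitzZeta.expZeta (ZMod.toAddCircle j) 1 := by
    rw [← Equiv.sum_comp (Equiv.neg (ZMod r)) (fun j : ZMod r => χ j * HurwitzZeta.expZeta (ZMod.toAddCircle (-j)) 1)]
    refine Finset.sum_congr rfl (fun j _ => ?_)
    rw [Equiv.neg_apply, heven, neg_neg]
  have hS4 : ∑ j : ZMod r, χ j * HurwitzZeta.expZeta (ZMod.toAddCircle (-j)) 1 =
      ∑ j : ZMod r, χ j * HurwitzZeta.cosZeta (ZMod.toAddCircle j) 1 := by
    have h5 : ∑ j : ZMod r, χ j * HurwitzZeta.cosZeta (ZMod.toAddCircle j) 1 =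
        (∑ j : ZMod r, χ j * HurwitzZeta.expZeta (ZMod.toAddCircle j) 1 +
          ∑ j : ZMod r, χ j * HurwitzZeta.expZeta (ZMod.toAddCircle (-j)) 1) / 2 := by
      rw [← Finset.sum_add_distrib, Finset.sum_div]
      refine Finset.sum_congr rfl (fun j _ => ?_)
      rw [HurwitzZeta.cosZeta_eq, map_neg]
      ring
    rw [h5, ← hS3]
    ring
  have hS5 : ∑ j : ZMod r, χ j * HurwitzZeta.cosZeta (ZMod.toAddCircle j) 1 =
      -∑ b : (ZMod r)ˣ, χ (b : ZMod r) * (ell r (b : ZMod r) : ℂ) := by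
    rw [ind23_units r (fun b => χ b * (ell r b : ℂ)) (by rw [h0, zero_mul]), ← Finset.sum_neg_distrib]
    refine Finset.sum_congr rfl (fun j _ => ?_)
    by_cases hj : j = 0
    · rw [hj, h0, zero_mul, zero_mul, neg_zero]
    · rw [cosZeta_toAddCircle r j hj]
      push_cast
      ring
  intro hc
  have h6 : gaussSum χ (ZMod.stdAddChar (N := r)) * DirichletCharacter.LFunction χ⁻¹ 1 = 0 := by
    rw [← hS2, hS, hS4, hS5, hc, neg_zero]
  exact (mul_ne_zero hg hL) h6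

/-- MODULE ind4. Proof: for even `χ`: `0 = ∑_b χ b ∑_u c u ell (u b) = (∑_u c u χ u⁻¹) (∑_b χ b ell b)`, the second factor is
not 0 (`char_sum_ne_zero`; for `χ = 1` it is `log r ≠ 0`, `sum_ell`). So `∑_u (c u + c (-u)) χ⁻¹ u = 0` for even `χ`, and it
is 0 trivially for odd `χ`; orthogonality (`DirichletCharacter.sum_char_inv_mul_char_eq`) gives `c u + c (-u) = 0`. -/
theorem ind (c : (ZMod r)ˣ → ℝ)
    (h : ∀ b : (ZMod r)ˣ, ∑ u : (ZMod r)ˣ, c u * ell r ((u * b : (ZMod r)ˣ) : ZMod r) = 0)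
    (u : (ZMod r)ˣ) : c u + c (-u) = 0 := by
  classical
  have hp : r.Prime := Fact.out
  -- even characters
  have heven : ∀ χ : DirichletCharacter ℂ r, χ.Even → ∑ v : (ZMod r)ˣ, (c v : ℂ) * χ ((v⁻¹ : (ZMod r)ˣ) : ZMod r) = 0 := by
    intro χ hχ
    have hne : ∑ b : (ZMod r)ˣ, χ (b : ZMod r) * (ell r (b : ZMod r) : ℂ) ≠ 0 := by
      by_cases h1 : χ = 1
      · subst h1
        have h2 : ∑ b : (ZMod r)ˣ, (1 : DirichletCharacter ℂ r) (b : ZMod r) * (ell r (b : ZMod r) : ℂ) =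
            ((∑ b : (ZMod r)ˣ, ell r (b : ZMod r) : ℝ) : ℂ) := by
          rw [Complex.ofReal_sum]
          refine Finset.sum_congr rfl (fun b _ => ?_)
          rw [MulChar.one_apply_coe, one_mul]
        rw [h2, sum_ell]
        have h3 : (1 : ℝ) < r := by exact_mod_cast hp.one_lt
        exact_mod_cast (Real.log_pos h3).ne'
      · exact char_sum_ne_zero r χ hχ h1
    have h4 : (∑ v : (ZMod r)ˣ, (c v : ℂ) * χ ((v⁻¹ : (ZMod r)ˣ) : ZMod r)) *
        ∑ b : (ZMod r)ˣ, χ (b : ZMod r) * (ell r (b : ZMod r) : ℂ) = 0 := by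
      have h5 : ∀ v : (ZMod r)ˣ, χ ((v⁻¹ : (ZMod r)ˣ) : ZMod r) *
          ∑ b : (ZMod r)ˣ, χ (b : ZMod r) * (ell r (b : ZMod r) : ℂ) =
          ∑ b : (ZMod r)ˣ, χ (b : ZMod r) * (ell r ((v * b : (ZMod r)ˣ) : ZMod r) : ℂ) := by
        intro v
        rw [← Equiv.sum_comp (Equiv.mulLeft v) (fun b : (ZMod r)ˣ => χ (b : ZMod r) * (ell r (b : ZMod r) : ℂ)),
          Finset.mul_sum]
        refine Finset.sum_congr rfl (fun b _ => ?_)
        rw [Equiv.coe_mulLeft, ← mul_assoc, ← map_mul, ← Units.val_mul, inv_mul_cancel_left]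
      rw [Finset.sum_mul]
      have h6 : ∑ v : (ZMod r)ˣ, (c v : ℂ) * χ ((v⁻¹ : (ZMod r)ˣ) : ZMod r) *
          ∑ b : (ZMod r)ˣ, χ (b : ZMod r) * (ell r (b : ZMod r) : ℂ) =
          ∑ v : (ZMod r)ˣ, ∑ b : (ZMod r)ˣ, (c v : ℂ) * (χ (b : ZMod r) *
            (ell r ((v * b : (ZMod r)ˣ) : ZMod r) : ℂ)) := by
        refine Finset.sum_congr rfl (fun v _ => ?_)
        rw [mul_assoc, h5, Finset.mul_sum]
      rw [h6, Finset.sum_comm]
      refine Finset.sum_eq_zero (fun b _ => ?_)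
      have h7 : ∑ v : (ZMod r)ˣ, (c v : ℂ) * (χ (b : ZMod r) * (ell r ((v * b : (ZMod r)ˣ) : ZMod r) : ℂ)) =
          χ (b : ZMod r) * ((∑ v : (ZMod r)ˣ, c v * ell r ((v * b : (ZMod r)ˣ) : ZMod r) : ℝ) : ℂ) := by
        rw [Complex.ofReal_sum, Finset.mul_sum]
        refine Finset.sum_congr rfl (fun v _ => ?_)
        push_cast
        ring
      rw [h7, h b, Complex.ofReal_zero, mul_zero]
    exact (mul_eq_zero.1 h4).resolve_right hne
  -- all characters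
  have hall : ∀ χ : DirichletCharacter ℂ r,
      ∑ v : (ZMod r)ˣ, ((c v : ℂ) + c (-v)) * χ ((v⁻¹ : (ZMod r)ˣ) : ZMod r) = 0 := by
    intro χ
    have h8 : ∑ v : (ZMod r)ˣ, (c (-v) : ℂ) * χ ((v⁻¹ : (ZMod r)ˣ) : ZMod r) =
        χ (-1) * ∑ v : (ZMod r)ˣ, (c v : ℂ) * χ ((v⁻¹ : (ZMod r)ˣ) : ZMod r) := by
      rw [← Equiv.sum_comp (Equiv.neg (ZMod r)ˣ) (fun v : (ZMod r)ˣ => (c (-v) : ℂ) * χ ((v⁻¹ : (ZMod r)ˣ) : ZMod r)),
        Finset.mul_sum]
      refine Finset.sum_congr rfl (fun v _ => ?_)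
      have h9 : (((Equiv.neg (ZMod r)ˣ) v)⁻¹ : (ZMod r)ˣ) = -v⁻¹ := by
        rw [Equiv.neg_apply]
        exact inv_neg
      have h10 : χ (((-v⁻¹ : (ZMod r)ˣ)) : ZMod r) = χ (-1) * χ ((v⁻¹ : (ZMod r)ˣ) : ZMod r) := by
        rw [Units.val_neg, ← neg_one_mul, map_mul]
      rw [h9, h10, Equiv.neg_apply, neg_neg]
      ring
    have h11 : ∑ v : (ZMod r)ˣ, ((c v : ℂ) + c (-v)) * χ ((v⁻¹ : (ZMod r)ˣ) : ZMod r) =
        ∑ v : (ZMod r)ˣ, (c v : ℂ) * χ ((v⁻¹ : (ZMod r)ˣ) : ZMod r) +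
          ∑ v : (ZMod r)ˣ, (c (-v) : ℂ) * χ ((v⁻¹ : (ZMod r)ˣ) : ZMod r) := by
      rw [← Finset.sum_add_distrib]
      exact Finset.sum_congr rfl (fun v _ => by ring)
    rw [h11, h8]
    rcases χ.even_or_odd with he | ho
    · rw [heven χ he]
      ring
    · have h12 : χ (-1) = -1 := ho
      rw [h12]
      ring
  -- orthogonality
  have horth : ∀ v : (ZMod r)ˣ, ∑ χ : DirichletCharacter ℂ r, χ ((v⁻¹ : (ZMod r)ˣ) : ZMod r) * χ (u : ZMod r) =
      if v = u then ((r.totient : ℕ) : ℂ) else 0 := by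
    intro v
    have h13 := DirichletCharacter.sum_char_inv_mul_char_eq ℂ (v.isUnit) (u : ZMod r)
    rw [← ZMod.inv_coe_unit]
    rw [h13]
    by_cases hvu : v = u
    · rw [if_pos hvu, if_pos (by rw [hvu])]
    · rw [if_neg hvu, if_neg (fun hc => hvu (Units.ext hc))]
  have h14 : ∑ χ : DirichletCharacter ℂ r, (∑ v : (ZMod r)ˣ, ((c v : ℂ) + c (-v)) *
      χ ((v⁻¹ : (ZMod r)ˣ) : ZMod r)) * χ (u : ZMod r) = ((c u : ℂ) + c (-u)) * ((r.totient : ℕ) : ℂ) := by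
    have h15 : ∀ χ : DirichletCharacter ℂ r, (∑ v : (ZMod r)ˣ, ((c v : ℂ) + c (-v)) *
        χ ((v⁻¹ : (ZMod r)ˣ) : ZMod r)) * χ (u : ZMod r) =
        ∑ v : (ZMod r)ˣ, ((c v : ℂ) + c (-v)) * (χ ((v⁻¹ : (ZMod r)ˣ) : ZMod r) * χ (u : ZMod r)) := by
      intro χ
      rw [Finset.sum_mul]
      exact Finset.sum_congr rfl (fun v _ => by ring)
    rw [Finset.sum_congr rfl (fun χ _ => h15 χ), Finset.sum_comm]
    have h16 : ∀ v : (ZMod r)ˣ, ∑ χ : DirichletCharacter ℂ r, ((c v : ℂ) + c (-v)) *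
        (χ ((v⁻¹ : (ZMod r)ˣ) : ZMod r) * χ (u : ZMod r)) =
        if v = u then ((c v : ℂ) + c (-v)) * ((r.totient : ℕ) : ℂ) else 0 := by
      intro v
      rw [← Finset.mul_sum, horth v]
      by_cases hvu : v = u
      · rw [if_pos hvu, if_pos hvu]
      · rw [if_neg hvu, if_neg hvu, mul_zero]
    rw [Finset.sum_congr rfl (fun v _ => h16 v), Finset.sum_ite_eq', if_pos (Finset.mem_univ _)]
  have h17 : ((c u : ℂ) + c (-u)) * ((r.totient : ℕ) : ℂ) = 0 := by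
    rw [← h14]
    exact Finset.sum_eq_zero (fun χ _ => by rw [hall χ, zero_mul])
  have h18 : ((r.totient : ℕ) : ℂ) ≠ 0 := by
    have := Nat.totient_pos.2 hp.pos
    exact_mod_cast this.ne'
  have h19 := (mul_eq_zero.1 h17).resolve_right h18
  exact_mod_cast h19

end Aks1
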