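import Pool.Agent.Aks1.Nrm
import Pool.Agent.Aks1.Ind

set_option autoImplicit false

/-! # Module Hgt: the height inequality for two congruent products -/

namespace Aks1

open Polynomial

theorem norm_pow_sub_one (r : ℕ) [Fact r.Prime] (h b : (ZMod r)ˣ) :
    ‖(ZMod.stdAddChar (b : ZMod r) : ℂ) ^ (h : ZMod r).val - 1‖ =
      Real.exp (ell r ((h * b : (ZMod r)ˣ) : ZMod r)) := by
  have hE : (ZMod.stdAddChar (b : ZMod r) : ℂ) ^ (h : ZMod r).val =
      (ZMod.stdAddChar ((h * b : (ZMod r)ˣ) : ZMod r) : ℂ) := by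
    rw [← AddChar.map_nsmul_eq_pow]
    congr 1
    rw [nsmul_eq_mul, ZMod.natCast_zmod_val, Units.val_mul]
  rw [hE]
  unfold ell
  rw [Real.exp_log]
  rw [norm_pos_iff, sub_ne_zero]
  intro h1
  have h2 : (ZMod.stdAddChar ((h * b : (ZMod r)ˣ) : ZMod r) : ℂ) = (ZMod.stdAddChar (0 : ZMod r) : ℂ) := by
    rw [h1, AddChar.map_zero_eq_one]
  exact Units.ne_zero (h * b) (ZMod.injective_stdAddChar h2)

theorem height (p r D : ℕ) [Fact p.Prime] [Fact r.Prime] (hpr : p ≠ r) (h : Fin D → (ZMod r)ˣ)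
    (hh : ∀ a b, a ≠ b → h a ≠ h b ∧ h a ≠ -h b) (u v : Fin D → ℕ) (huv : u ≠ v)
    (hw : ∀ w : AlgebraicClosure (ZMod p), w ^ r = 1 → w ≠ 1 →
      ∏ a, (w ^ (h a : ZMod r).val - 1) ^ u a = ∏ a, (w ^ (h a : ZMod r).val - 1) ^ v a) :
    ((r : ℝ) - 1) * Real.log p ≤ ((r : ℝ) - 1) * Real.log 2 +
      ((∑ a, (u a : ℝ)) + ∑ a, (v a : ℝ)) / 2 * Real.log r +
      1 / 2 * ∑ b : (ZMod r)ˣ, |∑ a, (u a : ℝ) * ell r ((h a * b : (ZMod r)ˣ) : ZMod r) -
        ∑ a, (v a : ℝ) * ell r ((h a * b : (ZMod r)ˣ) : ZMod r)| := by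
  classical
  have hp : p.Prime := Fact.out
  have hr : r.Prime := Fact.out
  set A : (Fin D → ℕ) → ℤ[X] := fun u => ∏ a, (X ^ (h a : ZMod r).val - 1) ^ u a with hA
  have hevC : ∀ (u : Fin D → ℕ) (b : (ZMod r)ˣ),
      (A u).eval₂ (Int.castRingHom ℂ) (ZMod.stdAddChar (b : ZMod r) : ℂ) =
        ∏ a, ((ZMod.stdAddChar (b : ZMod r) : ℂ) ^ (h a : ZMod r).val - 1) ^ u a := by
    intro u b
    rw [hA]
    simp only [eval₂_finsetProd, eval₂_pow, eval₂_sub, eval₂_X, eval₂_one]
  have hevF : ∀ (u : Fin D → ℕ) (w : AlgebraicClosure (ZMod p)),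
      (A u).eval₂ (Int.castRingHom _) w = ∏ a, (w ^ (h a : ZMod r).val - 1) ^ u a := by
    intro u w
    rw [hA]
    simp only [eval₂_finsetProd, eval₂_pow, eval₂_sub, eval₂_X, eval₂_one]
  set s : (Fin D → ℕ) → (ZMod r)ˣ → ℝ := fun u b =>
    ∑ a, (u a : ℝ) * ell r ((h a * b : (ZMod r)ˣ) : ZMod r) with hs
  have hnorm : ∀ (u : Fin D → ℕ) (b : (ZMod r)ˣ),
      ‖(A u).eval₂ (Int.castRingHom ℂ) (ZMod.stdAddChar (b : ZMod r) : ℂ)‖ = Real.exp (s u b) := by
    intro u b
    rw [hevC, norm_prod, hs]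
    simp only
    rw [Real.exp_sum]
    refine Finset.prod_congr rfl fun a _ => ?_
    rw [norm_pow, norm_pow_sub_one, Real.exp_nat_mul]
  set P : ℤ[X] := A u - A v with hP
  have hPF : ∀ w : AlgebraicClosure (ZMod p), w ^ r = 1 → w ≠ 1 → P.eval₂ (Int.castRingHom _) w = 0 := by
    intro w hwr hw1
    rw [hP, eval₂_sub, hevF, hevF, hw w hwr hw1, sub_self]
  -- P does not vanish at some ζ^b
  have hPne : ∃ b : (ZMod r)ˣ, P.eval₂ (Int.castRingHom ℂ) (ZMod.stdAddChar (b : ZMod r) : ℂ) ≠ 0 := by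
    by_contra hcon
    push Not at hcon
    have hsb : ∀ b, s u b = s v b := by
      intro b
      have h1 := hcon b
      rw [hP, eval₂_sub, sub_eq_zero] at h1
      have h2 := hnorm u b
      rw [h1, hnorm v b] at h2
      exact (Real.exp_injective h2).symm
    apply huv
    set c : (ZMod r)ˣ → ℝ := fun y => ∑ a, ((u a : ℝ) - v a) * (if h a = y then 1 else 0) with hc
    have hind := ind r c (by
      intro b
      have h1 := hsb b
      simp only [hs] at h1
      rw [hc]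
      simp only [Finset.sum_mul]
      rw [Finset.sum_comm]
      have h2 : ∀ a, ∑ y : (ZMod r)ˣ, ((u a : ℝ) - v a) * (if h a = y then 1 else 0) *
          ell r ((y * b : (ZMod r)ˣ) : ZMod r) = ((u a : ℝ) - v a) * ell r ((h a * b : (ZMod r)ˣ) : ZMod r) := by
        intro a
        rw [Finset.sum_eq_single (h a)]
        · simp
        · intro y _ hy
          rw [if_neg (fun e => hy e.symm)]; ring
        · intro hx; exact absurd (Finset.mem_univ _) hx
      rw [Finset.sum_congr rfl fun a _ => h2 a]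
      simp only [sub_mul, Finset.sum_sub_distrib]
      linarith)
    funext a
    have hca : c (h a) = (u a : ℝ) - v a := by
      rw [hc]
      simp only
      rw [Finset.sum_eq_single a]
      · simp
      · intro b _ hb
        rw [if_neg (hh b a hb).1]; ring
      · intro hx; exact absurd (Finset.mem_univ _) hx
    have h1 := hind (h a)
    by_cases hneg : -h a = h a
    · rw [hneg, hca] at h1
      have : (u a : ℝ) = v a := by linarith
      exact_mod_cast this
    · have hcn : c (-h a) = 0 := by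
        rw [hc]
        simp only
        refine Finset.sum_eq_zero fun b _ => ?_
        rw [if_neg, mul_zero]
        intro hb
        by_cases hba : b = a
        · subst hba; exact hneg hb.symm
        · exact (hh b a hba).2 hb
      rw [hcn, hca] at h1
      have : (u a : ℝ) = v a := by linarith
      exact_mod_cast this
  obtain ⟨b0, hb0⟩ := hPne
  have hmain := norm_ge p r hpr P hPF b0 hb0
  have hpos : ∀ b : (ZMod r)ˣ, 0 < ‖P.eval₂ (Int.castRingHom ℂ) (ZMod.stdAddChar (b : ZMod r) : ℂ)‖ :=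
    fun b => norm_pos_iff.2 (eval_ne_zero r P b0 b hb0)
  have hlogb : ∀ b : (ZMod r)ˣ, Real.log ‖P.eval₂ (Int.castRingHom ℂ) (ZMod.stdAddChar (b : ZMod r) : ℂ)‖ ≤
      Real.log 2 + (s u b + s v b) / 2 + 1 / 2 * |s u b - s v b| := by
    intro b
    have h1 : ‖P.eval₂ (Int.castRingHom ℂ) (ZMod.stdAddChar (b : ZMod r) : ℂ)‖ ≤
        Real.exp (s u b) + Real.exp (s v b) := by
      rw [hP, eval₂_sub]
      refine (norm_sub_le _ _).trans ?_
      rw [hnorm, hnorm]
    have h2 : Real.exp (s u b) + Real.exp (s v b) ≤ 2 * Real.exp (max (s u b) (s v b)) := by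
      have e1 := Real.exp_le_exp.2 (le_max_left (s u b) (s v b))
      have e2 := Real.exp_le_exp.2 (le_max_right (s u b) (s v b))
      linarith
    have h3 : Real.log ‖P.eval₂ (Int.castRingHom ℂ) (ZMod.stdAddChar (b : ZMod r) : ℂ)‖ ≤
        Real.log (2 * Real.exp (max (s u b) (s v b))) := Real.log_le_log (hpos b) (h1.trans h2)
    rw [Real.log_mul (by norm_num) (Real.exp_pos _).ne', Real.log_exp] at h3
    have h4 : max (s u b) (s v b) = (s u b + s v b) / 2 + 1 / 2 * |s u b - s v b| := by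
      rcases le_total (s u b) (s v b) with h | h
      · rw [max_eq_right h, abs_of_nonpos (by linarith)]; ring
      · rw [max_eq_left h, abs_of_nonneg (by linarith)]; ring
    linarith
  have hcard : (Fintype.card (ZMod r)ˣ : ℝ) = (r : ℝ) - 1 := by
    rw [ZMod.card_units_eq_totient, Nat.totient_prime hr, Nat.cast_sub hr.one_lt.le]
    simp
  have hsum_s : ∀ u : Fin D → ℕ, ∑ b, s u b = (∑ a, (u a : ℝ)) * Real.log r := by
    intro u
    rw [hs]
    simp only
    rw [Finset.sum_comm, Finset.sum_mul]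
    refine Finset.sum_congr rfl fun a _ => ?_
    rw [← Finset.mul_sum]
    congr 1
    rw [← sum_ell r]
    exact Fintype.sum_equiv (Equiv.mulLeft (h a)) _ _ fun b => rfl
  have hlog1 : ((r : ℝ) - 1) * Real.log p ≤
      ∑ b : (ZMod r)ˣ, Real.log ‖P.eval₂ (Int.castRingHom ℂ) (ZMod.stdAddChar (b : ZMod r) : ℂ)‖ := by
    rw [← Real.log_prod (fun b _ => (hpos b).ne')]
    have h1 : ((r : ℝ) - 1) * Real.log p = Real.log ((p : ℝ) ^ (r - 1)) := by
      rw [Real.log_pow, Nat.cast_sub hr.one_lt.le]; simp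
    rw [h1]
    refine Real.log_le_log ?_ hmain
    have : (0 : ℝ) < p := by exact_mod_cast hp.pos
    positivity
  have hlog2 : ∑ b : (ZMod r)ˣ, Real.log ‖P.eval₂ (Int.castRingHom ℂ) (ZMod.stdAddChar (b : ZMod r) : ℂ)‖ ≤
      ∑ b : (ZMod r)ˣ, (Real.log 2 + (s u b + s v b) / 2 + 1 / 2 * |s u b - s v b|) :=
    Finset.sum_le_sum fun b _ => hlogb b
  have hlog3 : ∑ b : (ZMod r)ˣ, (Real.log 2 + (s u b + s v b) / 2 + 1 / 2 * |s u b - s v b|) =
      ((r : ℝ) - 1) * Real.log 2 + ((∑ a, (u a : ℝ)) + ∑ a, (v a : ℝ)) / 2 * Real.log r +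
      1 / 2 * ∑ b : (ZMod r)ˣ, |s u b - s v b| := by
    rw [Finset.sum_add_distrib, Finset.sum_add_distrib, Finset.sum_const, Finset.card_univ, nsmul_eq_mul, hcard,
      ← Finset.mul_sum, ← Finset.sum_div, Finset.sum_add_distrib, hsum_s, hsum_s]
    ring
  calc ((r : ℝ) - 1) * Real.log p ≤ _ := hlog1
    _ ≤ _ := hlog2
    _ = _ := hlog3

end Aks1
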