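import Pool.Agent.Aks1.Defs

set_option autoImplicit false

/-! # Module Intro: good exponents (introspection) -/

namespace Aks1

open Polynomial

variable {F : Type*} [Field F] {r : ℕ}

/-- MODULE intro. -/
theorem good_mul {a b : ℕ} (ha : Good F r a) (hb : Good F r b) : Good F r (a * b) := by
  intro w hw
  have h1 : (w ^ a) ^ r = 1 := by rw [← pow_mul, mul_comm, pow_mul, hw, one_pow]
  rw [pow_mul, ha w hw, hb (w ^ a) h1, ← pow_mul]

theorem good_one : Good F r 1 := by
  intro w _
  rw [pow_one, pow_one]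

theorem good_pow {a : ℕ} (ha : Good F r a) (j : ℕ) : Good F r (a ^ j) := by
  induction j with
  | zero =>
    rw [pow_zero]
    exact good_one
  | succ j ih =>
    rw [pow_succ]
    exact good_mul ih ha

theorem good_char (p : ℕ) [Fact p.Prime] [CharP F p] : Good F r p := by
  intro w _
  rw [sub_pow_char, one_pow]

/-- `((w-1)^m)^p = w^(mp) - 1 = (w^m - 1)^p` and the Frobenius is injective. -/
theorem good_of_mul_char (p : ℕ) [Fact p.Prime] [CharP F p] {m : ℕ} (h : Good F r (m * p)) : Good F r m := by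
  intro w hw
  have h1 := h w hw
  have h3 : (w ^ m - 1) ^ p = w ^ (m * p) - 1 := by
    rw [sub_pow_char, one_pow, ← pow_mul]
  have h2 : frobenius F p ((w - 1) ^ m) = frobenius F p (w ^ m - 1) := by
    rw [frobenius_def, frobenius_def, h3, ← pow_mul, h1]
  exact frobenius_inj F p h2

/-- The hypothesis of the problem, modulo `p`. -/
theorem good_of_dvd (p : ℕ) [Fact p.Prime] [CharP F p] (n : ℕ)
    (h : (X ^ r - 1 : (ZMod p)[X]) ∣ (X - 1) ^ n - (X ^ n - 1)) : Good F r n := by
  intro w hw
  obtain ⟨g, hg⟩ := h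
  have h1 := congrArg (Polynomial.eval₂ (ZMod.castHom (dvd_refl p) F) w) hg
  simp only [eval₂_sub, eval₂_pow, eval₂_mul, eval₂_X, eval₂_one] at h1
  rw [hw, sub_self, zero_mul] at h1
  exact sub_eq_zero.mp h1

/-- From `ZMod k` to `ZMod p`, `p ∣ k` (map by `ZMod.castHom`). -/
theorem dvd_mod_p (p k : ℕ) (hpk : p ∣ k) (n r : ℕ)
    (h : (X ^ r - 1 : (ZMod k)[X]) ∣ (X - 1) ^ n - (X ^ n - 1)) :
    (X ^ r - 1 : (ZMod p)[X]) ∣ (X - 1) ^ n - (X ^ n - 1) := by
  have h1 := Polynomial.map_dvd (ZMod.castHom hpk (ZMod p)) h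
  simpa using h1

/-- MODULE triv. Proof: `(X-1)^m - (X^m - 1)` has degree `< m ≤ r` and the `r` different `r`-th roots of unity (`F` algebraically closed,
`p ∤ r`) are roots, so it is 0 in `F[X]`. Write `m = p^a m'`, `p ∤ m'`: `(Y-1)^{m'} = Y^{m'} - 1` with `Y = X^{p^a}`, hence also in the variable `X` (`expand` is
injective), `X^{m'} - 1` is separable, so `m' = 1`. -/
theorem pow_of_good [IsAlgClosed F] (p : ℕ) [Fact p.Prime] [CharP F p] (hr : ¬ p ∣ r) {m : ℕ} (hm : 1 ≤ m) (hmr : m ≤ r)
    (h : Good F r m) : ∃ j : ℕ, m = p ^ j := by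
  classical
  have hp : p.Prime := Fact.out
  have hr0 : r ≠ 0 := by rintro rfl; exact hr (dvd_zero p)
  have : NeZero (r : F) := ⟨by rw [Ne, CharP.cast_eq_zero_iff F p]; exact hr⟩
  set P : F[X] := (X - 1) ^ m - (X ^ m - 1) with hP
  have hdeg : P.degree < m := by
    have h1 : ((X - 1 : F[X]) ^ m).degree = m := by
      rw [degree_pow, ← C_1, degree_X_sub_C]; simp
    have h2 : (X ^ m - 1 : F[X]).degree = m := by
      rw [← C_1]; exact degree_X_pow_sub_C (by omega) 1
    have h3 : P.degree < ((X - 1 : F[X]) ^ m).degree := by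
      refine degree_sub_lt_left (by rw [h1, h2]) ?_ ?_
      · rw [← C_1]; exact pow_ne_zero _ (X_sub_C_ne_zero 1)
      · have e1 : ((X - 1 : F[X]) ^ m).leadingCoeff = 1 := by
          rw [← C_1]; exact ((monic_X_sub_C (1 : F)).pow m)
        have e2 : (X ^ m - 1 : F[X]).leadingCoeff = 1 := by
          rw [← C_1]; exact (monic_X_pow_sub_C (1 : F) (by omega))
        rw [e1, e2]
    rwa [h1] at h3
  have hP0 : P = 0 := by
    by_contra hne
    have h1 : (nthRootsFinset r (1 : F)).card = r := by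
      obtain ⟨ζ, hζ⟩ := HasEnoughRootsOfUnity.exists_primitiveRoot F r
      exact hζ.card_nthRootsFinset
    have h2 : (nthRootsFinset r (1 : F)) ⊆ P.roots.toFinset := by
      intro w hw
      rw [mem_nthRootsFinset (Nat.pos_of_ne_zero hr0)] at hw
      rw [Multiset.mem_toFinset, mem_roots hne, IsRoot.def, hP]
      simp [h w hw]
    have h3 : r ≤ P.natDegree := by
      calc r = (nthRootsFinset r (1 : F)).card := h1.symm
        _ ≤ P.roots.toFinset.card := Finset.card_le_card h2
        _ ≤ Multiset.card P.roots := Multiset.toFinset_card_le _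
        _ ≤ P.natDegree := card_roots' P
    have h4 : P.natDegree < m := (natDegree_lt_iff_degree_lt hne).2 hdeg
    omega
  -- write m = p ^ a * m'
  obtain ⟨a, m', hm', hmm⟩ := Nat.exists_eq_pow_mul_and_not_dvd (show m ≠ 0 by omega) p hp.ne_one
  have hm'1 : 1 ≤ m' := Nat.one_le_iff_ne_zero.2 (by rintro rfl; exact hm' (dvd_zero p))
  have hQ : ((X - 1 : F[X]) ^ m' - (X ^ m' - 1)) = 0 := by
    have h1 : expand F (p ^ a) ((X - 1 : F[X]) ^ m' - (X ^ m' - 1)) = P := by
      rw [hP, hmm]
      have : ExpChar F[X] p := ExpChar.prime hp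
      simp only [map_sub, map_pow, expand_X, map_one]
      rw [pow_mul, pow_mul, sub_pow_expChar_pow, one_pow]
    rw [hP0] at h1
    exact (expand_eq_zero (pow_pos hp.pos a)).1 h1
  have hm'eq : m' = 1 := by
    by_contra hne
    have h1 := congrArg (fun q => q.derivative.eval 1) hQ
    simp only [derivative_sub, derivative_pow, derivative_X, derivative_one, eval_sub, eval_mul, eval_pow, eval_X,
      eval_one, sub_self, sub_zero, mul_one, derivative_zero, eval_zero, one_pow, eval_C, map_natCast, eval_natCast] at h1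
    rw [zero_pow (by omega)] at h1
    simp at h1
    rw [CharP.cast_eq_zero_iff F p] at h1
    exact hm' h1
  exact ⟨a, by rw [hmm, hm'eq, mul_one]⟩

end Aks1
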