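import Pool.Agent.Aks1.Defs

set_option autoImplicit false

/-! # Module Nrm: norms from the r-th cyclotomic field, by polynomials -/

namespace Aks1

open Polynomial

private theorem nrm_char_pow (r : ℕ) [Fact r.Prime] (b : ZMod r) : (ZMod.stdAddChar b : ℂ) ^ r = 1 := by
  have h1 : (ZMod.stdAddChar (r • b) : ℂ) = (ZMod.stdAddChar b : ℂ) ^ r := AddChar.map_nsmul_eq_pow _ _ _
  rw [← h1]
  have h2 : r • b = 0 := by
    rw [nsmul_eq_mul, ZMod.natCast_self, zero_mul]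
  rw [h2, AddChar.map_zero_eq_one]

private theorem nrm_prim (r : ℕ) [Fact r.Prime] (b : (ZMod r)ˣ) :
    IsPrimitiveRoot (ZMod.stdAddChar (b : ZMod r) : ℂ) r := by
  rw [IsPrimitiveRoot.iff_orderOf]
  refine orderOf_eq_prime (nrm_char_pow r _) ?_
  intro h
  have h1 : (ZMod.stdAddChar (b : ZMod r) : ℂ) = ZMod.stdAddChar (0 : ZMod r) := by
    rw [h, AddChar.map_zero_eq_one]
  exact b.ne_zero (ZMod.injective_stdAddChar h1)

private theorem nrm_prod (r : ℕ) [Fact r.Prime] (f : ℂ → ℂ) :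
    ∏ b : (ZMod r)ˣ, f (ZMod.stdAddChar (b : ZMod r) : ℂ) = ∏ μ ∈ primitiveRoots r ℂ, f μ := by
  classical
  have hr : 0 < r := (Fact.out : r.Prime).pos
  have hinj : Function.Injective fun b : (ZMod r)ˣ => (ZMod.stdAddChar (b : ZMod r) : ℂ) := by
    intro b b' h
    exact Units.ext (ZMod.injective_stdAddChar h)
  have himg : (Finset.univ : Finset (ZMod r)ˣ).image (fun b : (ZMod r)ˣ => (ZMod.stdAddChar (b : ZMod r) : ℂ)) =
      primitiveRoots r ℂ := by
    apply Finset.eq_of_subset_of_card_le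
    · intro μ hμ
      obtain ⟨b, _, rfl⟩ := Finset.mem_image.mp hμ
      exact (mem_primitiveRoots hr).mpr (nrm_prim r b)
    · rw [Finset.card_image_of_injective _ hinj, Complex.card_primitiveRoots, Finset.card_univ,
        ZMod.card_units_eq_totient]
  rw [← himg, Finset.prod_image (fun a _ b _ h => hinj h)]

/-- MODULE nrm1. Proof: the `ζ^b`, `b` a unit modulo `r`, are exactly the roots of `cyclotomic r ℂ`; the product is the norm of `G(ζ)` from `CyclotomicField r ℚ`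
(`Algebra.norm_eq_prod_embeddings`), or the resultant of `cyclotomic r ℤ` and `G`, or a symmetric polynomial; it is rational and integral. -/
theorem prod_int (r : ℕ) [Fact r.Prime] (G : ℤ[X]) :
    ∃ N : ℤ, ∏ b : (ZMod r)ˣ, G.eval₂ (Int.castRingHom ℂ) (ZMod.stdAddChar (b : ZMod r) : ℂ) = (N : ℂ) := by
  have hr : NeZero (r : ℂ) := ⟨by exact_mod_cast (Fact.out : r.Prime).ne_zero⟩
  refine ⟨(cyclotomic r ℤ).resultant G (cyclotomic r ℤ).natDegree G.natDegree, ?_⟩
  rw [nrm_prod r fun z => G.eval₂ (Int.castRingHom ℂ) z]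
  have h1 := resultant_map_map (cyclotomic r ℤ) G (cyclotomic r ℤ).natDegree G.natDegree (Int.castRingHom ℂ)
  have h2 : (cyclotomic r ℤ).natDegree = (cyclotomic r ℂ).natDegree := by
    rw [natDegree_cyclotomic, natDegree_cyclotomic]
  have h3 := resultant_eq_prod_eval (cyclotomic r ℂ) (G.map (Int.castRingHom ℂ)) G.natDegree natDegree_map_le
    (IsAlgClosed.splits _)
  rw [map_cyclotomic, h2, h3, (cyclotomic.monic r ℂ).leadingCoeff, one_pow, one_mul,
    cyclotomic.roots_eq_primitiveRoots_val] at h1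
  rw [h2]
  have h4 : (Int.castRingHom ℂ) ((cyclotomic r ℤ).resultant G (cyclotomic r ℂ).natDegree G.natDegree) =
      (((cyclotomic r ℤ).resultant G (cyclotomic r ℂ).natDegree G.natDegree : ℤ) : ℂ) := rfl
  rw [← h4, ← h1]
  refine Finset.prod_congr rfl fun μ _ => ?_
  rw [eval_map]

/-- MODULE nrm2. Proof: `ζ^b` and `ζ^b'` are both roots of the irreducible `cyclotomic r ℤ` (minimal polynomial). -/
theorem eval_ne_zero (r : ℕ) [Fact r.Prime] (P : ℤ[X]) (b b' : (ZMod r)ˣ)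
    (h : P.eval₂ (Int.castRingHom ℂ) (ZMod.stdAddChar (b : ZMod r) : ℂ) ≠ 0) :
    P.eval₂ (Int.castRingHom ℂ) (ZMod.stdAddChar (b' : ZMod r) : ℂ) ≠ 0 := by
  intro h'
  apply h
  have hr : 0 < r := (Fact.out : r.Prime).pos
  have hint : IsIntegral ℤ (ZMod.stdAddChar (b' : ZMod r) : ℂ) := (nrm_prim r b').isIntegral hr
  have h1 : minpoly ℤ (ZMod.stdAddChar (b' : ZMod r) : ℂ) ∣ P := by
    refine minpoly.isIntegrallyClosed_dvd hint ?_
    rw [aeval_def]
    exact h'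
  rw [← cyclotomic_eq_minpoly (nrm_prim r b') hr, cyclotomic_eq_minpoly (nrm_prim r b) hr] at h1
  obtain ⟨Q, hQ⟩ := h1
  have h2 := minpoly.aeval ℤ (ZMod.stdAddChar (b : ZMod r) : ℂ)
  rw [aeval_def] at h2
  rw [hQ, eval₂_mul]
  have h3 : eval₂ (Int.castRingHom ℂ) (ZMod.stdAddChar (b : ZMod r) : ℂ)
      (minpoly ℤ (ZMod.stdAddChar (b : ZMod r) : ℂ)) = 0 := h2
  rw [h3, zero_mul]

/-- MODULE nrm3. Proof: `R = P %ₘ cyclotomic r ℤ` has degree `< r - 1` and vanishes modulo `p` at the `r - 1` primitive `r`-th roots of unity of the algebraic closure of `F_p`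
(`p ≠ r`), so all its coefficients are divisible by `p`: `R = C p * G`. -/
theorem exists_decomp (p r : ℕ) [Fact p.Prime] [Fact r.Prime] (hpr : p ≠ r) (P : ℤ[X])
    (hP : ∀ w : AlgebraicClosure (ZMod p), w ^ r = 1 → w ≠ 1 → P.eval₂ (Int.castRingHom _) w = 0) :
    ∃ Q G : ℤ[X], P = cyclotomic r ℤ * Q + C (p : ℤ) * G := by
  have hr : 0 < r := (Fact.out : r.Prime).pos
  have hr0 : (r : AlgebraicClosure (ZMod p)) ≠ 0 := by
    intro h
    have h1 := (CharP.cast_eq_zero_iff (AlgebraicClosure (ZMod p)) p r).mp h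
    exact hpr ((Nat.prime_dvd_prime_iff_eq Fact.out Fact.out).mp h1)
  have hne : NeZero (r : AlgebraicClosure (ZMod p)) := ⟨hr0⟩
  have h1 : cyclotomic r (AlgebraicClosure (ZMod p)) ∣ P.map (Int.castRingHom (AlgebraicClosure (ZMod p))) := by
    by_cases h0 : P.map (Int.castRingHom (AlgebraicClosure (ZMod p))) = 0
    · rw [h0]
      exact dvd_zero _
    · rw [IsAlgClosed.dvd_iff_roots_le_roots (cyclotomic_ne_zero r _) h0,
        Multiset.le_iff_subset roots_cyclotomic_nodup]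
      intro w hw
      rw [mem_roots (cyclotomic_ne_zero r _), isRoot_cyclotomic_iff] at hw
      rw [mem_roots h0, IsRoot.def, eval_map]
      refine hP w hw.pow_eq_one ?_
      exact hw.ne_one (Fact.out : r.Prime).one_lt
  have h2 : cyclotomic r (ZMod p) ∣ P.map (Int.castRingHom (ZMod p)) := by
    rw [← map_dvd_map' (algebraMap (ZMod p) (AlgebraicClosure (ZMod p))), map_cyclotomic, map_map]
    have h3 : (algebraMap (ZMod p) (AlgebraicClosure (ZMod p))).comp (Int.castRingHom (ZMod p)) =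
        Int.castRingHom (AlgebraicClosure (ZMod p)) := RingHom.ext_int _ _
    rw [h3]
    exact h1
  obtain ⟨Q0, hQ0⟩ := h2
  obtain ⟨Q, hQ⟩ := map_surjective (Int.castRingHom (ZMod p)) (ZMod.ringHom_surjective _) Q0
  have h4 : (P - cyclotomic r ℤ * Q).map (Int.castRingHom (ZMod p)) = 0 := by
    rw [Polynomial.map_sub, Polynomial.map_mul, map_cyclotomic, hQ, hQ0, sub_self]
  have h5 : C (p : ℤ) ∣ P - cyclotomic r ℤ * Q := by
    rw [C_dvd_iff_dvd_coeff]
    intro i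
    have h6 := congrArg (fun q => coeff q i) h4
    simp only [coeff_map, coeff_zero, eq_intCast] at h6
    exact (ZMod.intCast_zmod_eq_zero_iff_dvd _ _).mp h6
  obtain ⟨G, hG⟩ := h5
  exact ⟨Q, G, by rw [← hG]; ring⟩

/-- MODULE nrm4. Proof: `P(ζ^b) = p G(ζ^b)`, so the product is `p^{r-1} |N|` with `N ≠ 0` an integer. -/
theorem norm_ge (p r : ℕ) [Fact p.Prime] [Fact r.Prime] (hpr : p ≠ r) (P : ℤ[X])
    (hP : ∀ w : AlgebraicClosure (ZMod p), w ^ r = 1 → w ≠ 1 → P.eval₂ (Int.castRingHom _) w = 0)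
    (b0 : (ZMod r)ˣ) (h0 : P.eval₂ (Int.castRingHom ℂ) (ZMod.stdAddChar (b0 : ZMod r) : ℂ) ≠ 0) :
    (p : ℝ) ^ (r - 1) ≤
      ∏ b : (ZMod r)ˣ, ‖P.eval₂ (Int.castRingHom ℂ) (ZMod.stdAddChar (b : ZMod r) : ℂ)‖ := by
  obtain ⟨Q, G, hPG⟩ := exists_decomp p r hpr P hP
  have hr : 0 < r := (Fact.out : r.Prime).pos
  have hp0 : (0 : ℝ) < p := by exact_mod_cast (Fact.out : p.Prime).pos
  have hcyc : ∀ b : (ZMod r)ˣ, (cyclotomic r ℤ).eval₂ (Int.castRingHom ℂ) (ZMod.stdAddChar (b : ZMod r) : ℂ) = 0 := by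
    intro b
    rw [cyclotomic_eq_minpoly (nrm_prim r b) hr]
    exact minpoly.aeval ℤ (ZMod.stdAddChar (b : ZMod r) : ℂ)
  have hval : ∀ b : (ZMod r)ˣ, P.eval₂ (Int.castRingHom ℂ) (ZMod.stdAddChar (b : ZMod r) : ℂ) =
      (p : ℂ) * G.eval₂ (Int.castRingHom ℂ) (ZMod.stdAddChar (b : ZMod r) : ℂ) := by
    intro b
    rw [hPG, eval₂_add, eval₂_mul, eval₂_mul, hcyc b, zero_mul, zero_add, eval₂_C]
    simp
  obtain ⟨N, hN⟩ := prod_int r G
  have hN0 : N ≠ 0 := by
    intro h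
    rw [h, Int.cast_zero, Finset.prod_eq_zero_iff] at hN
    obtain ⟨b, _, hb⟩ := hN
    have h1 := eval_ne_zero r P b0 b h0
    rw [hval b, hb, mul_zero] at h1
    exact h1 rfl
  have hN1 : (1 : ℝ) ≤ |(N : ℝ)| := by
    rw [← Int.cast_abs]
    exact_mod_cast Int.one_le_abs hN0
  have hprod : ∏ b : (ZMod r)ˣ, ‖P.eval₂ (Int.castRingHom ℂ) (ZMod.stdAddChar (b : ZMod r) : ℂ)‖ =
      (p : ℝ) ^ (r - 1) * |(N : ℝ)| := by
    have h1 : ∀ b : (ZMod r)ˣ, ‖P.eval₂ (Int.castRingHom ℂ) (ZMod.stdAddChar (b : ZMod r) : ℂ)‖ =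
        (p : ℝ) * ‖G.eval₂ (Int.castRingHom ℂ) (ZMod.stdAddChar (b : ZMod r) : ℂ)‖ := by
      intro b
      rw [hval b, norm_mul, Complex.norm_natCast]
    rw [Finset.prod_congr rfl fun b _ => h1 b, Finset.prod_mul_distrib, Finset.prod_const, ← norm_prod, hN,
      Complex.norm_intCast, Finset.card_univ, ZMod.card_units_eq_totient,
      Nat.totient_prime (Fact.out : r.Prime)]
  rw [hprod]
  exact le_mul_of_one_le_right (by positivity) hN1

end Aks1
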