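import Pool.Agent.Aks1.FinB

set_option autoImplicit false

/-! # The spacing of the solutions, and their number -/

namespace Aks1

open Polynomial Finset

/-- The odd numbers, the multiples of `p` lowered by one. -/
def ai (p i : ℕ) : ℕ := if p ∣ 2 * i + 1 then 2 * i else 2 * i + 1

theorem ai_le (p i : ℕ) : ai p i ≤ 2 * i + 1 := by
  unfold ai
  split_ifs <;> omega

theorem le_ai (p i : ℕ) : 2 * i ≤ ai p i := by
  unfold ai
  split_ifs <;> omega

theorem ai_mono {p i j : ℕ} (h : i < j) : ai p i < ai p j :=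
  lt_of_le_of_lt (ai_le p i) (lt_of_lt_of_le (by omega) (le_ai p j))

theorem ai_not_dvd {p : ℕ} (hp : p.Prime) (i : ℕ) : ¬ p ∣ ai p i := by
  unfold ai
  split_ifs with h
  · intro h2
    have h3 : p ∣ 1 := by
      have := Nat.dvd_sub h h2
      rwa [Nat.add_sub_cancel_left] at this
    exact hp.one_lt.ne' (Nat.dvd_one.1 h3)
  · exact h

theorem ai_pos {p : ℕ} (hp : p.Prime) (i : ℕ) : 0 < ai p i :=
  Nat.pos_of_ne_zero fun h => ai_not_dvd hp i (h ▸ dvd_zero p)

theorem ai_sum (p t : ℕ) : ∑ i ∈ range t, ai p i ≤ t ^ 2 := by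
  induction t with
  | zero => simp
  | succ t ih =>
    rw [sum_range_succ]
    have := ai_le p t
    nlinarith

section

variable {F : Type} [Field F]

/-- The product of the `X ^ a - 1`. -/
noncomputable def fS (F : Type) [Field F] (p : ℕ) (S : Finset ℕ) : F[X] := ∏ i ∈ S, (X ^ ai p i - 1)

theorem fS_factor_monic {p : ℕ} (hp : p.Prime) (i : ℕ) : (X ^ ai p i - 1 : F[X]).Monic := by
  rw [← C_1]
  exact monic_X_pow_sub_C 1 (ai_pos hp i).ne'

theorem fS_monic {p : ℕ} (hp : p.Prime) (S : Finset ℕ) : (fS F p S).Monic :=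
  monic_prod_of_monic _ _ fun i _ => fS_factor_monic hp i

theorem fS_natDegree {p : ℕ} (hp : p.Prime) (S : Finset ℕ) :
    (fS F p S).natDegree = ∑ i ∈ S, ai p i := by
  unfold fS
  rw [natDegree_prod_of_monic _ _ fun i _ => fS_factor_monic hp i]
  refine sum_congr rfl fun i _ => ?_
  rw [← C_1]
  exact natDegree_X_pow_sub_C

theorem fS_eval (p : ℕ) (S : Finset ℕ) (w : F) :
    (fS F p S).eval w = ∏ i ∈ S, (w ^ ai p i - 1) := by
  unfold fS
  rw [eval_prod]
  simp

theorem fS_aux [IsAlgClosed F] {p : ℕ} [Fact p.Prime] [CharP F p] {S S' : Finset ℕ}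
    (h : fS F p S = fS F p S') {i : ℕ} (hi : i ∈ S) (hi' : i ∉ S')
    (hmax : ∀ j ∈ S', j ∉ S → j < i) : False := by
  classical
  have hp : p.Prime := Fact.out
  have h1 : fS F p (S ∩ S') * fS F p (S \ S') = fS F p S := by
    unfold fS
    exact prod_inter_mul_prod_diff S S' _
  have h2 : fS F p (S ∩ S') * fS F p (S' \ S) = fS F p S' := by
    unfold fS
    rw [inter_comm]
    exact prod_inter_mul_prod_diff S' S _
  have h3 : fS F p (S \ S') = fS F p (S' \ S) := by
    rw [← h1, ← h2] at h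
    exact mul_left_cancel₀ (fS_monic hp _).ne_zero h
  have : NeZero (ai p i : F) := ⟨by
    rw [Ne, CharP.cast_eq_zero_iff F p]
    exact ai_not_dvd hp i⟩
  have : NeZero (ai p i) := ⟨(ai_pos hp i).ne'⟩
  obtain ⟨ξ, hξ⟩ := HasEnoughRootsOfUnity.exists_primitiveRoot F (ai p i)
  have h4 : (fS F p (S \ S')).eval ξ = 0 := by
    rw [fS_eval]
    refine prod_eq_zero (mem_sdiff.2 ⟨hi, hi'⟩) ?_
    rw [hξ.pow_eq_one, sub_self]
  rw [h3, fS_eval, prod_eq_zero_iff] at h4
  obtain ⟨j, hj, hj0⟩ := h4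
  rw [mem_sdiff] at hj
  have h5 : ai p i ∣ ai p j := (hξ.pow_eq_one_iff_dvd _).1 (sub_eq_zero.1 hj0)
  exact absurd (Nat.le_of_dvd (ai_pos hp j) h5) (not_le.2 (ai_mono (hmax j hj.1 hj.2)))

theorem fS_inj [IsAlgClosed F] {p : ℕ} [Fact p.Prime] [CharP F p] {S S' : Finset ℕ}
    (h : fS F p S = fS F p S') : S = S' := by
  classical
  by_contra hne
  have hT : (symmDiff S S').Nonempty := by
    rw [nonempty_iff_ne_empty]
    intro h0
    exact hne (symmDiff_eq_bot.1 h0)
  obtain ⟨i, hi, hmax⟩ := (symmDiff S S').exists_max_image id hT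
  rcases mem_symmDiff.1 hi with ⟨h1, h2⟩ | ⟨h1, h2⟩
  · refine fS_aux h h1 h2 fun j hj hj' => ?_
    have h3 : j ≤ i := hmax j (mem_symmDiff.2 (Or.inr ⟨hj, hj'⟩))
    refine lt_of_le_of_ne h3 ?_
    rintro rfl
    exact hj' h1
  · refine fS_aux h.symm h1 h2 fun j hj hj' => ?_
    have h3 : j ≤ i := hmax j (mem_symmDiff.2 (Or.inl ⟨hj, hj'⟩))
    refine lt_of_le_of_ne h3 ?_
    rintro rfl
    exact hj' h1

/-- Half of the sets have a small sum. -/
theorem half_sets (p t h : ℕ) (ht : t ^ 2 < 2 * h) :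
    2 ^ t ≤ 2 * ((range t).powerset.filter (fun S => ∑ i ∈ S, ai p i < h)).card := by
  classical
  have h1 : ((range t).powerset.filter (fun S => ¬ ∑ i ∈ S, ai p i < h)).card ≤
      ((range t).powerset.filter (fun S => ∑ i ∈ S, ai p i < h)).card := by
    refine card_le_card_of_injOn (fun S => range t \ S) ?_ ?_
    · intro S hS
      rw [mem_coe, mem_filter, mem_powerset] at hS
      rw [mem_coe, mem_filter, mem_powerset]
      refine ⟨sdiff_subset, ?_⟩
      have h2 := sum_sdiff (f := fun i => ai p i) hS.1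
      have h3 := ai_sum p t
      have h4 := not_lt.1 hS.2
      show ∑ i ∈ range t \ S, ai p i < h
      omega
    · intro S hS S' hS' he
      rw [mem_coe, mem_filter, mem_powerset] at hS hS'
      have h2 : range t \ (range t \ S) = range t \ (range t \ S') := by
        rw [show range t \ S = range t \ S' from he]
      rwa [Finset.sdiff_sdiff_eq_self hS.1, Finset.sdiff_sdiff_eq_self hS'.1] at h2
  have h2 := card_filter_add_card_filter_not (s := (range t).powerset)
    (fun S => ∑ i ∈ S, ai p i < h)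
  rw [card_powerset, card_range] at h2
  omega

theorem ord_lt {n r : ℕ} (hr : r.Prime) (hn : n.Coprime r) : orderOf (n : ZMod r) < r := by
  have : Fact r.Prime := ⟨hr⟩
  have h1 : orderOf (n : ZMod r) = orderOf (ZMod.unitOfCoprime n hn) := by
    rw [← orderOf_units, ZMod.coe_unitOfCoprime]
  rw [h1]
  refine lt_of_le_of_lt (orderOf_le_card_univ (x := ZMod.unitOfCoprime n hn)) ?_
  rw [ZMod.card_units_eq_totient]
  exact Nat.totient_lt r hr.one_lt

theorem root_pow_iff {ζ : F} {r : ℕ} (hζ : IsPrimitiveRoot ζ r) (hr : 0 < r) {a b : ℕ} :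
    ζ ^ a = ζ ^ b ↔ a ≡ b [MOD r] := by
  have h1 : ∀ c, ζ ^ (c % r) = ζ ^ c := by
    intro c
    rw [hζ.eq_orderOf]
    exact pow_mod_orderOf ζ c
  rw [← h1 a, ← h1 b]
  constructor
  · intro h
    exact hζ.pow_inj (Nat.mod_lt _ hr) (Nat.mod_lt _ hr) h
  · intro h
    rw [show a % r = b % r from h]

/-- SPACING: two solutions modulo `p` in one residue class modulo `r`. -/
theorem spacing [IsAlgClosed F] {p : ℕ} [Fact p.Prime] [CharP F p] {r : ℕ} (hr : r.Prime) (hpr : ¬ p ∣ r)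
    {n n' : ℕ} (hn : Good F r n) (hn' : Good F r n') (hlt : n < n') (hmod : n ≡ n' [MOD r])
    (hco : n.Coprime r) {t : ℕ} (ht : t ^ 2 < 2 * orderOf (n : ZMod r)) :
    2 ^ t ≤ 2 * (n' - n) := by
  classical
  have hp : p.Prime := Fact.out
  set h := orderOf (n : ZMod r) with hh
  have hhr : h < r := ord_lt hr hco
  have : NeZero (r : F) := ⟨by rw [Ne, CharP.cast_eq_zero_iff F p]; exact hpr⟩
  have : NeZero r := ⟨hr.ne_zero⟩
  obtain ⟨ζ, hζ⟩ := HasEnoughRootsOfUnity.exists_primitiveRoot F r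
  refine (half_sets p t h ht).trans (Nat.mul_le_mul_left 2 ?_)
  have hd : 0 < n' - n := by omega
  have hcard : (nthRoots (n' - n) (1 : F)).toFinset.card ≤ n' - n :=
    (Multiset.toFinset_card_le _).trans (card_nthRoots _ _)
  refine le_trans ?_ hcard
  refine card_le_card_of_injOn (fun S => (fS F p S).eval ζ) ?_ ?_
  · intro S hS
    rw [mem_coe, mem_filter, mem_powerset] at hS
    rw [mem_coe, Multiset.mem_toFinset, mem_nthRoots hd]
    show ((fS F p S).eval ζ) ^ (n' - n) = 1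
    rw [fS_eval, ← prod_pow]
    refine prod_eq_one fun i hi => ?_
    have hai : ai p i < r := by
      have := single_le_sum (f := fun i => ai p i) (fun _ _ => Nat.zero_le _) hi
      have h2 := hS.2
      omega
    have h1 : (ζ ^ ai p i) ^ r = 1 := by rw [← pow_mul, mul_comm, pow_mul, hζ.pow_eq_one, one_pow]
    have h2 : (ζ ^ ai p i) ^ n = (ζ ^ ai p i) ^ n' := by
      rw [← pow_mul, ← pow_mul]
      exact (root_pow_iff hζ hr.pos).2 (Nat.ModEq.mul_left _ hmod)
    have h3 : (ζ ^ ai p i - 1) ^ n = (ζ ^ ai p i - 1) ^ n' := by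
      rw [hn _ h1, hn' _ h1, h2]
    have h4 : ζ ^ ai p i - 1 ≠ 0 := by
      intro h0
      have h5 := (hζ.pow_eq_one_iff_dvd _).1 (sub_eq_zero.1 h0)
      exact absurd (Nat.le_of_dvd (ai_pos hp i) h5) (not_le.2 hai)
    have h5 : (ζ ^ ai p i - 1) ^ n' = (ζ ^ ai p i - 1) ^ n * (ζ ^ ai p i - 1) ^ (n' - n) := by
      rw [← pow_add]
      congr 1
      omega
    rw [h3] at h5
    exact (mul_eq_left₀ (pow_ne_zero _ h4)).1 h5.symm
  · intro S hS S' hS' he
    rw [mem_coe, mem_filter] at hS hS'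
    have he' : (fS F p S).eval ζ = (fS F p S').eval ζ := he
    apply fS_inj (F := F) (p := p)
    by_contra hne
    have hP : fS F p S - fS F p S' ≠ 0 := sub_ne_zero.2 hne
    have hdeg : (fS F p S - fS F p S').natDegree < h := by
      refine lt_of_le_of_lt (natDegree_sub_le _ _) ?_
      rw [fS_natDegree hp, fS_natDegree hp]
      exact max_lt hS.2 hS'.2
    have hev : ∀ T : Finset ℕ, ∀ j : ℕ, (fS F p T).eval (ζ ^ (n ^ j)) = ((fS F p T).eval ζ) ^ (n ^ j) := by
      intro T j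
      rw [fS_eval, fS_eval, ← prod_pow]
      refine prod_congr rfl fun i _ => ?_
      have h1 : (ζ ^ ai p i) ^ r = 1 := by rw [← pow_mul, mul_comm, pow_mul, hζ.pow_eq_one, one_pow]
      rw [good_pow hn j _ h1, ← pow_mul, ← pow_mul, mul_comm]
    have hroots : (range h).image (fun j => ζ ^ (n ^ j)) ⊆ (fS F p S - fS F p S').roots.toFinset := by
      intro w hw
      obtain ⟨j, _, rfl⟩ := mem_image.1 hw
      rw [Multiset.mem_toFinset, mem_roots hP, IsRoot.def, eval_sub, hev, hev, he', sub_self]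
    have hc : ((range h).image (fun j => ζ ^ (n ^ j))).card = h := by
      rw [card_image_of_injOn, card_range]
      intro i hi j hj hij
      rw [mem_coe, mem_range] at hi hj
      have h1 : n ^ i ≡ n ^ j [MOD r] := (root_pow_iff hζ hr.pos).1 hij
      have h2 : ((n : ZMod r)) ^ i = (n : ZMod r) ^ j := by
        have := (ZMod.natCast_eq_natCast_iff _ _ _).2 h1
        push_cast at this
        exact this
      exact pow_injOn_Iio_orderOf hi hj h2
    have h1 := card_le_card hroots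
    rw [hc] at h1
    have h2 := (h1.trans (Multiset.toFinset_card_le _)).trans (card_roots' _)
    omega

end

/-- `n` is composite, not a prime power, satisfies the order condition and the congruence. -/
def Fail (r n : ℕ) : Prop :=
  2 ≤ n ∧ ¬ IsPrimePow n ∧ n.Coprime r ∧ 3 / 2 * Real.log n ^ 2 ≤ (orderOf (n : ZMod r) : ℝ) ∧
    (X ^ r - 1 : (ZMod n)[X]) ∣ (X - 1) ^ n - (X ^ n - 1)

theorem good_of_fail {r n p : ℕ} [Fact p.Prime] {F : Type} [Field F] [CharP F p] (h : Fail r n)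
    (hpn : p ∣ n) : Good F r n :=
  good_of_dvd p n (dvd_mod_p p n hpn n r h.2.2.2.2)

theorem num_block {k : ℕ} (hk : 6 ≤ k) : (k + 1 : ℝ) ^ 2 < 3 * ((k : ℝ) * Real.log 2) ^ 2 := by
  have h1 : (0.6931 : ℝ) < Real.log 2 := by
    have := Real.log_two_gt_d9
    linarith
  have h2 : (6 : ℝ) ≤ k := by exact_mod_cast hk
  have h3 : (0.6931 * (k : ℝ)) ^ 2 ≤ ((k : ℝ) * Real.log 2) ^ 2 := by
    apply pow_le_pow_left₀ (by positivity)
    nlinarith
  nlinarith

/-- In a dyadic block two failures with a common prime factor differ modulo `r`. -/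
theorem block_inj {r k n n' p : ℕ} (hr : r.Prime) (hk : 6 ≤ k) (hp : p.Prime) (h : Fail r n)
    (h' : Fail r n') (hpn : p ∣ n) (hpn' : p ∣ n') (h1 : 2 ^ k ≤ n) (h2 : n' < 2 ^ (k + 1))
    (hlt : n < n') (hmod : n ≡ n' [MOD r]) : False := by
  have : Fact p.Prime := ⟨hp⟩
  have hpr : ¬ p ∣ r := by
    intro hpr
    have h3 : p ∣ Nat.gcd n r := Nat.dvd_gcd hpn hpr
    rw [h.2.2.1] at h3
    exact hp.one_lt.ne' (Nat.dvd_one.1 h3)
  have hg := good_of_fail (F := AlgebraicClosure (ZMod p)) h hpn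
  have hg' := good_of_fail (F := AlgebraicClosure (ZMod p)) h' hpn'
  have ht : (k + 1) ^ 2 < 2 * orderOf (n : ZMod r) := by
    have h3 := h.2.2.2.1
    have h4 : (k : ℝ) * Real.log 2 ≤ Real.log n := by
      rw [← Real.log_pow]
      apply Real.log_le_log (by positivity)
      exact_mod_cast h1
    have h5 : ((k : ℝ) * Real.log 2) ^ 2 ≤ Real.log n ^ 2 := by
      apply pow_le_pow_left₀ _ h4
      have := Real.log_nonneg (show (1 : ℝ) ≤ 2 by norm_num)
      positivity
    have h6 := num_block hk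
    have h7 : ((k + 1 : ℕ) : ℝ) ^ 2 < ((2 * orderOf (n : ZMod r) : ℕ) : ℝ) := by
      push_cast
      nlinarith
    exact_mod_cast h7
  have h3 := spacing (F := AlgebraicClosure (ZMod p)) hr hpr hg hg' hlt hmod h.2.2.1 ht
  have h4 : n' - n < 2 ^ k := by
    rw [pow_succ] at h2
    omega
  rw [pow_succ] at h3
  omega

open Classical in
/-- The failures in a block. -/
theorem block_card {N₀ : ℕ} (hN₀ : ∀ n r : ℕ, r.Prime → N₀ ≤ max n r → 2 ≤ n → n.Coprime r →
    n.primeFactorsList.length ≤ 5 → ¬ IsPrimePow n → 3 / 2 * Real.log n ^ 2 ≤ (orderOf (n : ZMod r) : ℝ) →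
    ¬ (X ^ r - 1 : (ZMod n)[X]) ∣ (X - 1) ^ n - (X ^ n - 1)) {r k : ℕ} (hr : r.Prime)
    (hk : 6 ≤ k) (hkN : N₀ ≤ k) :
    (((Finset.Ico (2 ^ k) (2 ^ (k + 1))).filter (Fail r)).card : ℝ) ≤
      r * ((2 : ℝ) ^ (1 / 6 : ℝ)) ^ (k + 1) := by
  set c : ℝ := (2 : ℝ) ^ (1 / 6 : ℝ) with hc
  have hc0 : 0 < c := by positivity
  have hc6 : c ^ 6 = 2 := by
    rw [hc, ← Real.rpow_natCast, ← Real.rpow_mul (by norm_num)]
    norm_num
  have hsix : ∀ n ∈ (Finset.Ico (2 ^ k) (2 ^ (k + 1))).filter (Fail r), n.minFac ^ 6 ≤ n := by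
    intro n hn
    rw [mem_filter, mem_Ico] at hn
    obtain ⟨⟨h1, h2⟩, hf⟩ := hn
    have hlen : 6 ≤ n.primeFactorsList.length := by
      by_contra hcon
      refine hN₀ n r hr ?_ hf.1 hf.2.2.1 (by omega) hf.2.1 hf.2.2.2.1 hf.2.2.2.2
      have h3 : k < 2 ^ k := Nat.lt_two_pow_self
      exact le_max_of_le_left (by omega)
    have hprod := Nat.prod_primeFactorsList (show n ≠ 0 by have := hf.1; omega)
    have h4 : n.minFac ^ n.primeFactorsList.length ≤ n.primeFactorsList.prod := by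
      refine List.pow_card_le_prod _ _ fun q hq => ?_
      exact Nat.minFac_le_of_dvd (Nat.prime_of_mem_primeFactorsList hq).two_le
        (Nat.dvd_of_mem_primeFactorsList hq)
    rw [hprod] at h4
    exact (Nat.pow_le_pow_right (Nat.minFac_pos n) hlen).trans h4
  have hfl : ∀ n ∈ (Finset.Ico (2 ^ k) (2 ^ (k + 1))).filter (Fail r),
      n.minFac ∈ Finset.Icc 1 ⌊c ^ (k + 1)⌋₊ := by
    intro n hn
    have h1 := hsix n hn
    rw [mem_filter, mem_Ico] at hn
    rw [mem_Icc]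
    refine ⟨Nat.minFac_pos n, Nat.le_floor ?_⟩
    have h2 : (n.minFac : ℝ) ^ 6 ≤ (c ^ (k + 1)) ^ 6 := by
      rw [← pow_mul, mul_comm, pow_mul, hc6]
      have h3 : n.minFac ^ 6 ≤ 2 ^ (k + 1) := by omega
      exact_mod_cast h3
    exact le_of_pow_le_pow_left₀ (by norm_num) (by positivity) h2
  have hcard : ((Finset.Ico (2 ^ k) (2 ^ (k + 1))).filter (Fail r)).card ≤
      (Finset.Icc 1 ⌊c ^ (k + 1)⌋₊ ×ˢ Finset.range r).card := by
    refine card_le_card_of_injOn (fun n => (n.minFac, n % r)) ?_ ?_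
    · intro n hn
      rw [mem_coe] at hn
      rw [mem_coe, mem_product]
      exact ⟨hfl n hn, mem_range.2 (Nat.mod_lt _ hr.pos)⟩
    · intro n hn n' hn' he
      rw [mem_coe, mem_filter, mem_Ico] at hn hn'
      have he1 : n.minFac = n'.minFac := congrArg Prod.fst he
      have he2 : n % r = n' % r := congrArg Prod.snd he
      have hp : n.minFac.Prime := Nat.minFac_prime (by have := hn.2.1; omega)
      rcases lt_trichotomy n n' with hlt | heq | hlt
      · exact (block_inj hr hk hp hn.2 hn'.2 (Nat.minFac_dvd n) (he1 ▸ Nat.minFac_dvd n')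
          hn.1.1 hn'.1.2 hlt he2).elim
      · exact heq
      · exact (block_inj hr hk hp hn'.2 hn.2 (he1 ▸ Nat.minFac_dvd n') (Nat.minFac_dvd n)
          hn'.1.1 hn.1.2 hlt he2.symm).elim
  rw [card_product, card_range, Nat.card_Icc, Nat.add_sub_cancel] at hcard
  have h1 : (⌊c ^ (k + 1)⌋₊ : ℝ) ≤ c ^ (k + 1) := Nat.floor_le (by positivity)
  have h2 : (((Finset.Ico (2 ^ k) (2 ^ (k + 1))).filter (Fail r)).card : ℝ) ≤
      (⌊c ^ (k + 1)⌋₊ : ℝ) * r := by exact_mod_cast hcard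
  have h3 : (0 : ℝ) ≤ r := Nat.cast_nonneg r
  nlinarith

open Classical in
/-- RARE FAILURES. -/
theorem rare : ∃ C : ℕ, ∀ r x : ℕ, r.Prime →
    (((Finset.range (x + 1)).filter (Fail r)).card : ℝ) ≤ 12 * r * (x : ℝ) ^ (1 / 6 : ℝ) + C := by
  obtain ⟨N₀, hN₀⟩ := mainQ
  set k₀ := max 6 N₀ with hk₀
  refine ⟨2 ^ k₀, fun r x hr => ?_⟩
  set c : ℝ := (2 : ℝ) ^ (1 / 6 : ℝ) with hc
  have hc0 : 0 < c := by positivity
  have hc6 : c ^ 6 = 2 := by
    rw [hc, ← Real.rpow_natCast, ← Real.rpow_mul (by norm_num)]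
    norm_num
  have hc1 : 10 / 9 ≤ c := by
    refine le_of_pow_le_pow_left₀ (n := 6) (by norm_num) hc0.le ?_
    rw [hc6]
    norm_num
  have hc2 : c ≤ 6 / 5 := by
    refine le_of_pow_le_pow_left₀ (n := 6) (by norm_num) (by norm_num) ?_
    rw [hc6]
    norm_num
  have hr0 : (0 : ℝ) ≤ r := Nat.cast_nonneg r
  have key : ∀ K, k₀ ≤ K → (((Finset.range (2 ^ K)).filter (Fail r)).card : ℝ) ≤
      2 ^ k₀ + 10 * r * c ^ K := by
    intro K hK
    induction K, hK using Nat.le_induction with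
    | base =>
      have h1 : ((Finset.range (2 ^ k₀)).filter (Fail r)).card ≤ 2 ^ k₀ := by
        refine (card_filter_le _ _).trans ?_
        rw [card_range]
      have h2 : (((Finset.range (2 ^ k₀)).filter (Fail r)).card : ℝ) ≤ 2 ^ k₀ := by
        exact_mod_cast h1
      have h3 : (0 : ℝ) ≤ 10 * r * c ^ k₀ := by positivity
      linarith
    | succ K hK ih =>
      have h1 : (Finset.range (2 ^ (K + 1))).filter (Fail r) ⊆
          (Finset.range (2 ^ K)).filter (Fail r) ∪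
            (Finset.Ico (2 ^ K) (2 ^ (K + 1))).filter (Fail r) := by
        intro n hn
        rw [mem_filter, mem_range] at hn
        rw [mem_union, mem_filter, mem_filter, mem_range, mem_Ico]
        rcases lt_or_ge n (2 ^ K) with h | h
        · exact Or.inl ⟨h, hn.2⟩
        · exact Or.inr ⟨⟨h, hn.1⟩, hn.2⟩
      have h2 := (card_le_card h1).trans (card_union_le _ _)
      have h3 : (((Finset.range (2 ^ (K + 1))).filter (Fail r)).card : ℝ) ≤
          (((Finset.range (2 ^ K)).filter (Fail r)).card : ℝ) +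
            (((Finset.Ico (2 ^ K) (2 ^ (K + 1))).filter (Fail r)).card : ℝ) := by
        exact_mod_cast h2
      have h4 := block_card hN₀ hr (k := K) (le_trans (le_max_left _ _) hK)
        (le_trans (le_max_right _ _) hK)
      rw [← hc] at h4
      have h5 : c ^ (K + 1) = c ^ K * c := pow_succ c K
      have h6 : 0 ≤ (r : ℝ) * c ^ K := by positivity
      rw [h5] at h4 ⊢
      nlinarith [mul_le_mul_of_nonneg_left hc1 h6]
  rcases Nat.eq_zero_or_pos x with rfl | hx
  · have h1 : (Finset.range (0 + 1)).filter (Fail r) = ∅ := by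
      refine filter_eq_empty_iff.2 fun n hn hf => ?_
      rw [mem_range] at hn
      have := hf.1
      omega
    rw [h1, card_empty]
    push_cast
    positivity
  set K := Nat.log 2 x + 1 with hK
  have hxK : x < 2 ^ K := Nat.lt_pow_succ_log_self (by norm_num) x
  have hKx : 2 ^ (K - 1) ≤ x := by
    rw [hK, Nat.add_sub_cancel]
    exact Nat.pow_log_le_self 2 hx.ne'
  have hsub : (Finset.range (x + 1)).filter (Fail r) ⊆ (Finset.range (2 ^ K)).filter (Fail r) :=
    filter_subset_filter _ (range_subset_range.2 (by omega))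
  have h1 : (((Finset.range (x + 1)).filter (Fail r)).card : ℝ) ≤
      (((Finset.range (2 ^ K)).filter (Fail r)).card : ℝ) := by
    exact_mod_cast card_le_card hsub
  rcases le_or_gt k₀ K with hle | hlt
  · have h2 := key K hle
    have h3 : c ^ K = c * c ^ (K - 1) := by
      conv_lhs => rw [show K = (K - 1) + 1 by omega]
      rw [pow_succ]
      ring
    have h4 : c ^ (K - 1) ≤ (x : ℝ) ^ (1 / 6 : ℝ) := by
      have h5 : c ^ (K - 1) = (((2 ^ (K - 1) : ℕ) : ℝ)) ^ (1 / 6 : ℝ) := by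
        rw [hc, ← Real.rpow_natCast, ← Real.rpow_mul (by norm_num), mul_comm,
          Real.rpow_mul (by norm_num), Real.rpow_natCast]
        push_cast
        rfl
      rw [h5]
      apply Real.rpow_le_rpow (by positivity) _ (by norm_num)
      exact_mod_cast hKx
    have h5 : (0 : ℝ) ≤ c ^ (K - 1) := by positivity
    have h6 : c ^ K ≤ 6 / 5 * (x : ℝ) ^ (1 / 6 : ℝ) := by
      rw [h3]
      exact mul_le_mul hc2 h4 h5 (by norm_num)
    push_cast
    nlinarith [mul_le_mul_of_nonneg_left h6 hr0]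
  · have h2 : ((Finset.range (2 ^ K)).filter (Fail r)).card ≤ 2 ^ k₀ := by
      refine (card_filter_le _ _).trans ?_
      rw [card_range]
      exact Nat.pow_le_pow_right (by norm_num) hlt.le
    have h3 : (((Finset.range (2 ^ K)).filter (Fail r)).card : ℝ) ≤ ((2 ^ k₀ : ℕ) : ℝ) := by
      exact_mod_cast h2
    have h4 : (0 : ℝ) ≤ 12 * r * (x : ℝ) ^ (1 / 6 : ℝ) := by positivity
    linarith

open Classical in
theorem rare_set (r x : ℕ) : {n : ℕ | 2 ≤ n ∧ n ≤ x ∧ ¬ IsPrimePow n ∧ n.Coprime r ∧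
            3 / 2 * Real.log n ^ 2 ≤ (orderOf (n : ZMod r) : ℝ) ∧
            (X ^ r - 1 : (ZMod n)[X]) ∣ (X - 1) ^ n - (X ^ n - 1)} =
      ((Finset.range (x + 1)).filter (Fail r) : Finset ℕ) := by
  ext n
  rw [Set.mem_setOf_eq, mem_coe, mem_filter, mem_range, Fail]
  constructor
  · rintro ⟨h1, h2, h3⟩
    exact ⟨by omega, h1, h3⟩
  · rintro ⟨h1, h2, h3⟩
    exact ⟨h2, by omega, h3⟩

/-- The final statement. -/
theorem rareAll :
    (∀ p r n n' t : ℕ, p.Prime → r.Prime → p ≠ r → n < n' → n ≡ n' [MOD r] → n.Coprime r →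
      (X ^ r - 1 : (ZMod p)[X]) ∣ (X - 1) ^ n - (X ^ n - 1) →
      (X ^ r - 1 : (ZMod p)[X]) ∣ (X - 1) ^ n' - (X ^ n' - 1) →
      t ^ 2 < 2 * orderOf (n : ZMod r) → 2 ^ t ≤ 2 * (n' - n)) ∧
    ∃ C : ℕ,
      (∀ r x : ℕ, r.Prime →
        ({n : ℕ | 2 ≤ n ∧ n ≤ x ∧ ¬ IsPrimePow n ∧ n.Coprime r ∧
            3 / 2 * Real.log n ^ 2 ≤ (orderOf (n : ZMod r) : ℝ) ∧
            (X ^ r - 1 : (ZMod n)[X]) ∣ (X - 1) ^ n - (X ^ n - 1)}.ncard : ℝ) ≤
          12 * r * (x : ℝ) ^ (1 / 6 : ℝ) + C) ∧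
      ∀ R x : ℕ,
        ({n : ℕ | 2 ≤ n ∧ n ≤ x ∧ ¬ IsPrimePow n ∧ ∃ r : ℕ, r.Prime ∧ r ≤ R ∧ n.Coprime r ∧
            3 / 2 * Real.log n ^ 2 ≤ (orderOf (n : ZMod r) : ℝ) ∧
            (X ^ r - 1 : (ZMod n)[X]) ∣ (X - 1) ^ n - (X ^ n - 1)}.ncard : ℝ) ≤
          12 * R ^ 2 * (x : ℝ) ^ (1 / 6 : ℝ) + C * R := by
  classical
  constructor
  · intro p r n n' t hp hr hpr hlt hmod hco h1 h2 ht
    have : Fact p.Prime := ⟨hp⟩
    have hpr' : ¬ p ∣ r := fun h => hpr ((Nat.prime_dvd_prime_iff_eq hp hr).1 h)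
    exact spacing (F := AlgebraicClosure (ZMod p)) hr hpr' (good_of_dvd p n h1) (good_of_dvd p n' h2)
      hlt hmod hco ht
  · obtain ⟨C, hC⟩ := rare
    refine ⟨C, fun r x hr => ?_, fun R x => ?_⟩
    · rw [rare_set, Set.ncard_coe_finset]
      exact hC r x hr
    · have hsub : {n : ℕ | 2 ≤ n ∧ n ≤ x ∧ ¬ IsPrimePow n ∧ ∃ r : ℕ, r.Prime ∧ r ≤ R ∧ n.Coprime r ∧
            3 / 2 * Real.log n ^ 2 ≤ (orderOf (n : ZMod r) : ℝ) ∧
            (X ^ r - 1 : (ZMod n)[X]) ∣ (X - 1) ^ n - (X ^ n - 1)} ⊆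
          (((Finset.Icc 1 R).filter Nat.Prime).biUnion
            (fun r => (Finset.range (x + 1)).filter (Fail r)) : Finset ℕ) := by
        rintro n ⟨h1, h2, h3, r, hr, hrR, h4⟩
        rw [mem_coe, mem_biUnion]
        refine ⟨r, ?_, ?_⟩
        · rw [mem_filter, mem_Icc]
          exact ⟨⟨hr.pos, hrR⟩, hr⟩
        · rw [mem_filter, mem_range]
          exact ⟨by omega, h1, h3, h4⟩
      have hle := Set.ncard_le_ncard hsub (Finset.finite_toSet _)
      rw [Set.ncard_coe_finset] at hle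
      have h1 := hle.trans card_biUnion_le
      have h2 : ((∑ r ∈ (Finset.Icc 1 R).filter Nat.Prime,
          ((Finset.range (x + 1)).filter (Fail r)).card : ℕ) : ℝ) ≤
          ∑ _r ∈ Finset.Icc 1 R, (12 * R * (x : ℝ) ^ (1 / 6 : ℝ) + C) := by
        push_cast
        refine (sum_le_sum fun r hr => ?_).trans
          (sum_le_sum_of_subset_of_nonneg (filter_subset _ _) fun _ _ _ => by positivity)
        rw [mem_filter, mem_Icc] at hr
        refine (hC r x hr.2).trans ?_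
        have h3 : (r : ℝ) ≤ R := by exact_mod_cast hr.1.2
        gcongr
      rw [sum_const, Nat.card_Icc, Nat.add_sub_cancel, nsmul_eq_mul] at h2
      have h3 : (({n : ℕ | 2 ≤ n ∧ n ≤ x ∧ ¬ IsPrimePow n ∧ ∃ r : ℕ, r.Prime ∧ r ≤ R ∧ n.Coprime r ∧
            3 / 2 * Real.log n ^ 2 ≤ (orderOf (n : ZMod r) : ℝ) ∧
            (X ^ r - 1 : (ZMod n)[X]) ∣ (X - 1) ^ n - (X ^ n - 1)}.ncard : ℕ) : ℝ) ≤
          ((∑ r ∈ (Finset.Icc 1 R).filter Nat.Prime,
          ((Finset.range (x + 1)).filter (Fail r)).card : ℕ) : ℝ) := by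
        exact_mod_cast h1
      refine (h3.trans h2).trans (le_of_eq ?_)
      ring

end Aks1
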