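import Mathlib

set_option autoImplicit false

/-! # Square factors of `n` -/

namespace Aks1

open Polynomial Finset

section ring

variable {A : Type} [CommRing A]

theorem add_sq_zero_pow (b y : A) (hy : y * y = 0) (k : ℕ) :
    (b + y) ^ k = b ^ k + k * b ^ (k - 1) * y := by
  induction k with
  | zero => simp
  | succ k ih =>
    rw [pow_succ, ih, Nat.add_sub_cancel, pow_succ]
    rcases Nat.eq_zero_or_pos k with rfl | hk
    · simp
    · obtain ⟨j, rfl⟩ : ∃ j, k = j + 1 := ⟨k - 1, by omega⟩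
      rw [Nat.add_sub_cancel, pow_succ]
      push_cast
      linear_combination (b ^ j * ((j : A) + 1)) * hy

theorem pow_add_mul_p {p : ℕ} (hp : (p : A) ^ 2 = 0) (b c : A) (m : ℕ) :
    (b + p * c) ^ (p * m) = b ^ (p * m) := by
  rw [add_sq_zero_pow b (p * c) (by linear_combination (c ^ 2) * hp)]
  push_cast
  linear_combination ((m : A) * b ^ (p * m - 1) * c) * hp

theorem sub_one_pow_prime {p : ℕ} (hp : p.Prime) (u : A) : ∃ c, (u - 1) ^ p = u ^ p - 1 + p * c := by
  obtain ⟨c, hc⟩ := exists_add_pow_prime_eq hp u (-1)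
  rcases hp.eq_two_or_odd' with rfl | hodd
  · exact ⟨1 - u, by push_cast; ring⟩
  · refine ⟨-(u * c), ?_⟩
    rw [sub_eq_add_neg, hc, hodd.neg_one_pow]
    ring

/-- The congruence for `n` modulo `p ^ 2` implies that for `p` (in a ring with `p ^ 2 = 0`). -/
theorem good_p {p r n : ℕ} (hp : p.Prime) (hpA : (p : A) ^ 2 = 0) (hpn : p ∣ n) (hr : 1 < r)
    (hco : n.Coprime r) (h : ∀ w : A, w ^ r = 1 → (w - 1) ^ n = w ^ n - 1) (w : A) (hw : w ^ r = 1) :
    (w - 1) ^ p = w ^ p - 1 := by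
  obtain ⟨m, rfl⟩ := hpn
  obtain ⟨a, -, ha⟩ := Nat.exists_mul_mod_eq_one_of_coprime hco hr
  have h1 : ∀ u : A, u ^ r = 1 → u ^ (p * m * a) = u := by
    intro u hu
    conv_lhs => rw [← Nat.div_add_mod (p * m * a) r, ha, pow_succ, pow_mul, hu, one_pow, one_mul]
  have h2 : ∀ (u : A) (j : ℕ), u ^ r = 1 → (u ^ j) ^ r = 1 := by
    intro u j hu
    rw [← pow_mul, mul_comm, pow_mul, hu, one_pow]
  have h3 : (w ^ a - 1) ^ (p * m) = w - 1 := by
    rw [h _ (h2 w a hw), ← pow_mul, mul_comm a, h1 w hw]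
  obtain ⟨c, hc⟩ := sub_one_pow_prime hp (w ^ a)
  calc (w - 1) ^ p = ((w ^ a - 1) ^ p) ^ (p * m) := by
        rw [← h3, ← pow_mul, ← pow_mul, mul_comm p (p * m)]
    _ = ((w ^ a) ^ p - 1) ^ (p * m) := by rw [hc, pow_add_mul_p hpA]
    _ = ((w ^ a) ^ p) ^ (p * m) - 1 := h _ (h2 _ p (h2 w a hw))
    _ = w ^ p - 1 := by
        have h4 : ((w ^ a) ^ p) ^ (p * m) = (w ^ p) ^ (p * m * a) := by
          rw [← pow_mul, ← pow_mul, ← pow_mul]
          congr 1
          ring
        rw [h4, h1 _ (h2 w p hw)]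

end ring

theorem sq_step {p r n : ℕ} (hp : p.Prime) (hpn : p ∣ n) (hr : 1 < r) (hco : n.Coprime r)
    (h : (X ^ r - 1 : (ZMod (p ^ 2))[X]) ∣ (X - 1) ^ n - (X ^ n - 1)) :
    (X ^ r - 1 : (ZMod (p ^ 2))[X]) ∣ (X - 1) ^ p - (X ^ p - 1) := by
  set f : (ZMod (p ^ 2))[X] := X ^ r - 1 with hf
  have hpA : ((p : AdjoinRoot f)) ^ 2 = 0 := by
    have h1 : ((p ^ 2 : ℕ) : ZMod (p ^ 2)) = 0 := ZMod.natCast_self _
    have h2 := congrArg (algebraMap (ZMod (p ^ 2)) (AdjoinRoot f)) h1
    rw [map_natCast, map_zero] at h2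
    push_cast at h2
    exact h2
  have hgood : ∀ w : AdjoinRoot f, w ^ r = 1 → (w - 1) ^ n = w ^ n - 1 := by
    intro w hw
    obtain ⟨g, hg⟩ := h
    have h1 := congrArg (aeval w) hg
    simp only [map_sub, map_pow, map_mul, aeval_X, map_one, hf] at h1
    rw [hw, sub_self, zero_mul] at h1
    exact sub_eq_zero.1 h1
  have hroot : (AdjoinRoot.root f) ^ r = 1 := by
    have h1 : AdjoinRoot.mk f f = 0 := AdjoinRoot.mk_self
    rw [hf, map_sub, map_pow, map_one, AdjoinRoot.mk_X, ← hf] at h1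
    exact sub_eq_zero.1 h1
  have h1 := good_p hp hpA hpn hr hco hgood _ hroot
  rw [← AdjoinRoot.mk_eq_zero, map_sub, map_pow, map_sub, map_sub, map_pow, map_one, AdjoinRoot.mk_X,
    h1, sub_self]

section residue

variable {R : Type} [CommRing R]

/-- The sum of the coefficients at the exponents `k` with `k % r = j`. -/
noncomputable def lam (R : Type) [CommRing R] (r j : ℕ) : R[X] →ₗ[R] R :=
  Polynomial.lsum fun k => if k % r = j then LinearMap.id else 0

theorem lam_monomial (r j k : ℕ) (a : R) :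
    lam R r j (monomial k a) = if k % r = j then a else 0 := by
  unfold lam
  rw [lsum_apply, sum_monomial_index]
  · split_ifs <;> rfl
  · split_ifs <;> simp

theorem lam_X_pow_mul (r j : ℕ) (P : R[X]) : lam R r j (X ^ r * P) = lam R r j P := by
  induction P using Polynomial.induction_on' with
  | add p q hp hq => rw [mul_add, map_add, map_add, hp, hq]
  | monomial k a =>
    rw [X_pow_mul_monomial, lam_monomial, lam_monomial, Nat.add_mod_right]

theorem lam_dvd {r j : ℕ} {P : R[X]} (h : (X ^ r - 1 : R[X]) ∣ P) : lam R r j P = 0 := by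
  obtain ⟨Q, rfl⟩ := h
  rw [sub_mul, one_mul, map_sub, lam_X_pow_mul, sub_self]

theorem lam_sub_one_pow (r j p : ℕ) : lam R r j ((X - 1) ^ p) =
    ∑ k ∈ range (p + 1), if k % r = j then ((-1) ^ (p - k) * (p.choose k : R)) else 0 := by
  rw [sub_eq_add_neg, add_pow, map_sum]
  refine sum_congr rfl fun k _ => ?_
  have h1 : (X : R[X]) ^ k * (-1) ^ (p - k) * (p.choose k : R[X]) =
      monomial k ((-1) ^ (p - k) * (p.choose k : R)) := by
    rw [← C_mul_X_pow_eq_monomial]
    push_cast [C_mul, C_pow, C_neg, C_1]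
    simp only [map_mul, map_pow, map_neg, map_one, map_natCast]
    ring
  rw [h1, lam_monomial]

end residue


/-- The sums over residue classes, as integers. -/
theorem class_sum_int {p r : ℕ} (hp : p.Prime) (hodd : Odd p)
    (h : (X ^ r - 1 : (ZMod (p ^ 2))[X]) ∣ (X - 1) ^ p - (X ^ p - 1)) (j : ℕ) :
    (p : ℤ) ∣ ∑ k ∈ (Ico 1 p).filter (fun k => k % r = j), (-1) ^ (p - k) * ((p.choose k / p : ℕ) : ℤ) := by
  have h1 := lam_dvd (j := j) h
  have e1 : lam (ZMod (p ^ 2)) r j (X ^ p) = if p % r = j then 1 else 0 := by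
    rw [X_pow_eq_monomial, lam_monomial]
  have e2 : lam (ZMod (p ^ 2)) r j 1 = if 0 % r = j then 1 else 0 := by
    rw [← monomial_zero_one, lam_monomial]
  rw [map_sub, map_sub, e1, e2, lam_sub_one_pow, sum_range_succ, ← Nat.Ico_zero_eq_range,
    sum_eq_sum_Ico_succ_bot hp.pos] at h1
  simp only [Nat.choose_self, Nat.sub_self, pow_zero, Nat.cast_one, mul_one, Nat.choose_zero_right,
    Nat.sub_zero, hodd.neg_one_pow, zero_add] at h1
  have h2 : ∑ k ∈ Ico 1 p, (if k % r = j then ((-1) ^ (p - k) * (p.choose k : ZMod (p ^ 2))) else 0) = 0 := by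
    split_ifs at h1 <;> linear_combination h1
  rw [← sum_filter] at h2
  have h3 : ∑ k ∈ (Ico 1 p).filter (fun k => k % r = j), ((-1) ^ (p - k) * (p.choose k : ZMod (p ^ 2))) =
      ((p * ∑ k ∈ (Ico 1 p).filter (fun k => k % r = j), (-1) ^ (p - k) * ((p.choose k / p : ℕ) : ℤ) : ℤ) :
        ZMod (p ^ 2)) := by
    simp only [Int.cast_mul, Int.cast_sum, Int.cast_pow, Int.cast_neg, Int.cast_one, Int.cast_natCast]
    rw [mul_sum]
    refine sum_congr rfl fun k hk => ?_
    rw [mem_filter, mem_Ico] at hk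
    have h4 : p ∣ p.choose k := hp.dvd_choose_self (by omega) hk.1.2
    have h5 : (p.choose k : ZMod (p ^ 2)) = (p : ZMod (p ^ 2)) * ((p.choose k / p : ℕ) : ZMod (p ^ 2)) := by
      rw [← Nat.cast_mul, Nat.mul_div_cancel' h4]
    rw [h5]
    ring
  rw [h3, ZMod.intCast_zmod_eq_zero_iff_dvd] at h2
  push_cast at h2
  rw [sq] at h2
  exact Int.dvd_of_mul_dvd_mul_left (by exact_mod_cast hp.ne_zero) h2

theorem choose_pred {p : ℕ} (hp : p.Prime) {i : ℕ} (hi : i < p) :
    ((p - 1).choose i : ZMod p) = (-1) ^ i := by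
  induction i with
  | zero => simp
  | succ i ih =>
    have h1 : ((p.choose (i + 1) : ℕ) : ZMod p) = 0 :=
      (ZMod.natCast_eq_zero_iff _ _).2 (hp.dvd_choose_self (by omega) hi)
    have h2 : p.choose (i + 1) = (p - 1).choose i + (p - 1).choose (i + 1) := by
      conv_lhs => rw [show p = (p - 1) + 1 by have := hp.pos; omega]
      exact Nat.choose_succ_succ _ _
    rw [h2] at h1
    push_cast at h1
    rw [ih (by omega)] at h1
    rw [pow_succ]
    linear_combination h1

/-- The sums of the `1 / k` over residue classes modulo `r` vanish modulo `p`. -/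
theorem class_sum {p r : ℕ} [Fact p.Prime] (hodd : Odd p)
    (h : (X ^ r - 1 : (ZMod (p ^ 2))[X]) ∣ (X - 1) ^ p - (X ^ p - 1)) (j : ℕ) :
    ∑ k ∈ (Ico 1 p).filter (fun k => k % r = j), (k : ZMod p)⁻¹ = 0 := by
  have hp : p.Prime := Fact.out
  have h1 := (ZMod.intCast_zmod_eq_zero_iff_dvd _ p).2 (class_sum_int hp hodd h j)
  rw [← h1]
  simp only [Int.cast_mul, Int.cast_sum, Int.cast_pow, Int.cast_neg, Int.cast_one, Int.cast_natCast]
  refine sum_congr rfl fun k hk => ?_
  rw [mem_filter, mem_Ico] at hk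
  have hk0 : (k : ZMod p) ≠ 0 := by
    rw [Ne, ZMod.natCast_eq_zero_iff]
    intro hd
    exact absurd (Nat.le_of_dvd (by omega) hd) (by omega)
  have h2 : k * (p.choose k / p) = (p - 1).choose (k - 1) := by
    have h3 : p * (p - 1).choose (k - 1) = p.choose k * k := by
      have := Nat.add_one_mul_choose_eq (p - 1) (k - 1)
      rwa [Nat.sub_add_cancel hp.one_lt.le, Nat.sub_add_cancel hk.1.1] at this
    have h4 : p ∣ p.choose k := hp.dvd_choose_self (by omega) hk.1.2
    obtain ⟨c, hc⟩ := h4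
    rw [hc, Nat.mul_div_cancel_left _ hp.pos]
    rw [hc] at h3
    have h5 : p * (p - 1).choose (k - 1) = p * (k * c) := by rw [h3]; ring
    exact (Nat.eq_of_mul_eq_mul_left hp.pos h5).symm
  have h3 : (k : ZMod p) * ((p.choose k / p : ℕ) : ZMod p) = (-1) ^ (k - 1) := by
    rw [← Nat.cast_mul, h2, choose_pred hp (by omega)]
  have h4 : (-1 : ZMod p) ^ (p - k) * (-1) ^ (k - 1) = 1 := by
    rw [← pow_add, show p - k + (k - 1) = p - 1 by omega]
    have : Even (p - 1) := by
      obtain ⟨m, hm⟩ := hodd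
      exact ⟨m, by omega⟩
    exact this.neg_one_pow
  exact inv_eq_of_mul_eq_one_right
    (by linear_combination ((-1 : ZMod p) ^ (p - k)) * h3 + h4)


/-! ### Zeros of the derivative of `T (T + 1) ... (T + m - 1)` -/

section deriv

variable {F : Type} [Field F]

/-- `T (T + 1) ... (T + m - 1)` -/
noncomputable def QQ (F : Type) [Field F] (m : ℕ) : F[X] := ∏ i ∈ range m, (X + C (i : F))

theorem QQ_monic (m : ℕ) : (QQ F m).Monic := monic_prod_of_monic _ _ fun i _ => monic_X_add_C _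

theorem QQ_natDegree (m : ℕ) : (QQ F m).natDegree = m := by
  unfold QQ
  rw [natDegree_prod_of_monic _ _ fun i _ => monic_X_add_C _]
  simp only [natDegree_X_add_C, sum_const, card_range, smul_eq_mul, mul_one]

theorem QQ_derivative_ne {m : ℕ} (hm : (m : F) ≠ 0) : derivative (QQ F m) ≠ 0 := by
  have hm0 : 0 < m := Nat.pos_of_ne_zero (by rintro rfl; simp at hm)
  intro h
  have h1 := congrArg (fun P : F[X] => P.coeff (m - 1)) h
  simp only [coeff_derivative, coeff_zero] at h1
  rw [Nat.sub_add_cancel hm0] at h1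
  have h2 : (QQ F m).coeff m = 1 := by
    have := (QQ_monic (F := F) m).coeff_natDegree
    rwa [QQ_natDegree] at this
  rw [h2, one_mul, Nat.cast_sub hm0] at h1
  apply hm
  push_cast at h1
  linear_combination h1

theorem QQ_root {m : ℕ} {t : F} (h0 : ∀ i < m, t + (i : F) ≠ 0)
    (h : ∑ i ∈ range m, (t + (i : F))⁻¹ = 0) : (derivative (QQ F m)).eval t = 0 := by
  classical
  have h1 : (derivative (QQ F m)).eval t =
      ∑ i ∈ range m, ∏ l ∈ (range m).erase i, (t + (l : F)) := by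
    unfold QQ
    rw [derivative_prod_finset, eval_finset_sum]
    refine sum_congr rfl fun i _ => ?_
    simp [eval_prod]
  have h2 : ∀ i ∈ range m, ∏ l ∈ (range m).erase i, (t + (l : F)) =
      (∏ l ∈ range m, (t + (l : F))) * (t + (i : F))⁻¹ := by
    intro i hi
    rw [← mul_prod_erase (range m) (fun l => t + (l : F)) hi]
    have := h0 i (mem_range.1 hi)
    field_simp
  rw [h1, sum_congr rfl h2, ← mul_sum, h, mul_zero]

/-- At most `m - 1` values `t`. -/
theorem QQ_card {m : ℕ} (hm : (m : F) ≠ 0) (J : Finset ℕ) (t : ℕ → F) (ht : Set.InjOn t J)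
    (h0 : ∀ j ∈ J, ∀ i < m, t j + (i : F) ≠ 0)
    (h : ∀ j ∈ J, ∑ i ∈ range m, (t j + (i : F))⁻¹ = 0) : J.card ≤ m - 1 := by
  classical
  have hne := QQ_derivative_ne hm
  have h1 : J.image t ⊆ (derivative (QQ F m)).roots.toFinset := by
    intro x hx
    obtain ⟨j, hj, rfl⟩ := mem_image.1 hx
    rw [Multiset.mem_toFinset, mem_roots hne]
    exact QQ_root (h0 j hj) (h j hj)
  have h2 := card_le_card h1
  rw [card_image_of_injOn ht] at h2
  have h3 := (natDegree_derivative_le (QQ F m))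
  rw [QQ_natDegree] at h3
  exact ((h2.trans (Multiset.toFinset_card_le _)).trans (card_roots' _)).trans h3

end deriv

/-- A class is an arithmetic progression. -/
theorem class_eq {p r j m : ℕ} (hr : 0 < r) (hj : 1 ≤ j) (hjr : j ≤ r) (h1 : j + (m - 1) * r ≤ p - 1)
    (hm : 0 < m) (h2 : p - 1 < j + m * r) :
    (Ico 1 p).filter (fun k => k % r = j % r) = (range m).image (fun i => j + i * r) := by
  ext k
  rw [mem_filter, mem_Ico, mem_image]
  constructor
  · rintro ⟨⟨hk1, hkp⟩, hk⟩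
    have hle : j ≤ k := by
      by_contra hcon
      have h3 : k % r = k := Nat.mod_eq_of_lt (by omega)
      rcases Nat.lt_or_ge j r with h4 | h4
      · rw [h3, Nat.mod_eq_of_lt h4] at hk
        omega
      · have h5 : j = r := by omega
        rw [h3, h5, Nat.mod_self] at hk
        omega
    have h3 : r ∣ k - j := (Nat.modEq_iff_dvd' hle).1 hk.symm
    obtain ⟨i, hi⟩ := h3
    refine ⟨i, ?_, ?_⟩
    · rw [mem_range]
      by_contra hcon
      have h4 : m * r ≤ i * r := Nat.mul_le_mul_right r (by omega)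
      have h5 : r * i = i * r := mul_comm _ _
      omega
    · have h5 : r * i = i * r := mul_comm _ _
      omega
  · rintro ⟨i, hi, rfl⟩
    rw [mem_range] at hi
    have h3 : i * r ≤ (m - 1) * r := Nat.mul_le_mul_right r (by omega)
    refine ⟨⟨by omega, by omega⟩, ?_⟩
    rw [Nat.add_mul_mod_self_right]

/-- Classes with `m` elements: at most `m - 1`. -/
theorem class_count {p r m : ℕ} [Fact p.Prime] (hrp : r < p) (hr : 0 < r) (hm : 0 < m) (hmp : m < p)
    (hS : ∀ j, ∑ k ∈ (Ico 1 p).filter (fun k => k % r = j), (k : ZMod p)⁻¹ = 0) (J : Finset ℕ)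
    (hJ : ∀ j ∈ J, 1 ≤ j ∧ j ≤ r ∧ j + (m - 1) * r ≤ p - 1 ∧ p - 1 < j + m * r) :
    J.card ≤ m - 1 := by
  have hp : p.Prime := Fact.out
  have hr0 : (r : ZMod p) ≠ 0 := by
    rw [Ne, ZMod.natCast_eq_zero_iff]
    intro hd
    exact absurd (Nat.le_of_dvd hr hd) (by omega)
  have hm0 : (m : ZMod p) ≠ 0 := by
    rw [Ne, ZMod.natCast_eq_zero_iff]
    intro hd
    exact absurd (Nat.le_of_dvd hm hd) (by omega)
  have hne : ∀ j ∈ J, ∀ i < m, ((j + i * r : ℕ) : ZMod p) ≠ 0 := by
    intro j hj i hi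
    obtain ⟨h1, h2, h3, h4⟩ := hJ j hj
    rw [Ne, ZMod.natCast_eq_zero_iff]
    intro hd
    have h5 : i * r ≤ (m - 1) * r := Nat.mul_le_mul_right r (by omega)
    exact absurd (Nat.le_of_dvd (by omega) hd) (by have := hp.pos; omega)
  have hform : ∀ (j i : ℕ), (j : ZMod p) * (r : ZMod p)⁻¹ + (i : ZMod p) =
      ((j + i * r : ℕ) : ZMod p) * (r : ZMod p)⁻¹ := by
    intro j i
    push_cast
    field_simp
  refine QQ_card hm0 J (fun j => (j : ZMod p) * (r : ZMod p)⁻¹) ?_ ?_ ?_
  · intro a ha b hb hab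
    have h1 := mul_right_cancel₀ (inv_ne_zero hr0) hab
    have h2 := (ZMod.natCast_eq_natCast_iff' _ _ _).1 h1
    have ha' := hJ a ha
    have hb' := hJ b hb
    rwa [Nat.mod_eq_of_lt (by omega), Nat.mod_eq_of_lt (by omega)] at h2
  · intro j hj i hi
    rw [hform]
    exact mul_ne_zero (hne j hj i hi) (inv_ne_zero hr0)
  · intro j hj
    obtain ⟨h1, h2, h3, h4⟩ := hJ j hj
    have h5 := hS (j % r)
    rw [class_eq hr h1 h2 h3 hm h4, sum_image] at h5
    · have h6 : ∀ i ∈ range m, ((j : ZMod p) * (r : ZMod p)⁻¹ + (i : ZMod p))⁻¹ =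
          (r : ZMod p) * (((j + i * r : ℕ) : ZMod p))⁻¹ := by
        intro i _
        rw [hform, mul_inv, inv_inv, mul_comm]
      rw [sum_congr rfl h6, ← mul_sum, h5, mul_zero]
    · intro a _ b _ hab
      have h6 : j + a * r = j + b * r := hab
      exact Nat.eq_of_mul_eq_mul_right hr (by omega)

/-- The bound. -/
theorem bound_of_sums {p r : ℕ} [Fact p.Prime] (hodd : Odd p) (hr : 2 ≤ r) (hne : p ≠ r)
    (hS : ∀ j, ∑ k ∈ (Ico 1 p).filter (fun k => k % r = j), (k : ZMod p)⁻¹ = 0) :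
    r * (r + 1) ≤ 2 * (p - 1) := by
  have hp : p.Prime := Fact.out
  have hp3 : 3 ≤ p := by
    obtain ⟨m, hm⟩ := hodd
    have := hp.two_le
    omega
  rcases lt_or_ge r p with hrp | hrp
  · set K := (p - 1) / r with hK
    set s := (p - 1) % r with hs
    have hdm : r * K + s = p - 1 := Nat.div_add_mod _ _
    have hsr : s < r := Nat.mod_lt _ (by omega)
    have hK1 : 1 ≤ K := by
      rw [hK, Nat.one_le_div_iff (by omega)]
      omega
    have hKp : K + 1 < p := by
      have h1 : 2 * K ≤ r * K := Nat.mul_le_mul_right K hr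
      omega
    have e1 : (K + 1 - 1) * r = r * K := by rw [Nat.add_sub_cancel, mul_comm]
    have e2 : (K + 1) * r = r * K + r := by ring
    have e3 : (K - 1) * r + r = r * K := by
      obtain ⟨L, hL⟩ : ∃ L, K = L + 1 := ⟨K - 1, by omega⟩
      rw [hL, Nat.add_sub_cancel]
      ring
    have e4 : K * r = r * K := mul_comm _ _
    have h1 := class_count (m := K + 1) hrp (by omega) (by omega) hKp hS (Icc 1 s) (by
      intro j hj
      rw [mem_Icc] at hj
      refine ⟨hj.1, by omega, by omega, by omega⟩)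
    have h2 := class_count (m := K) hrp (by omega) (by omega) (by omega) hS (Icc (s + 1) r) (by
      intro j hj
      rw [mem_Icc] at hj
      refine ⟨by omega, by omega, by omega, by omega⟩)
    rw [Nat.card_Icc] at h1 h2
    have h3 : r + 1 ≤ 2 * K := by omega
    calc r * (r + 1) ≤ r * (2 * K) := Nat.mul_le_mul_left r h3
      _ = 2 * (r * K) := by ring
      _ ≤ 2 * (p - 1) := by omega
  · exfalso
    have h1 := hS 1
    have h2 : (Ico 1 p).filter (fun k => k % r = 1) = {1} := by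
      ext k
      rw [mem_filter, mem_Ico, mem_singleton]
      constructor
      · rintro ⟨⟨h3, h4⟩, h5⟩
        rwa [Nat.mod_eq_of_lt (by omega)] at h5
      · rintro rfl
        exact ⟨⟨le_rfl, by omega⟩, Nat.mod_eq_of_lt (by omega)⟩
    rw [h2, sum_singleton] at h1
    simp at h1

/-- The prime two. -/
theorem not_two {r : ℕ} (hr : 3 ≤ r) : ¬ (X ^ r - 1 : (ZMod (2 ^ 2))[X]) ∣ (X - 1) ^ 2 - (X ^ 2 - 1) := by
  intro h
  have h1 := lam_dvd (j := 1) h
  have e1 : lam (ZMod (2 ^ 2)) r 1 (X ^ 2) = if 2 % r = 1 then 1 else 0 := by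
    rw [X_pow_eq_monomial, lam_monomial]
  have e2 : lam (ZMod (2 ^ 2)) r 1 1 = if 0 % r = 1 then 1 else 0 := by
    rw [← monomial_zero_one, lam_monomial]
  rw [map_sub, map_sub, e1, e2, lam_sub_one_pow, sum_range_succ, sum_range_succ, sum_range_one,
    Nat.mod_eq_of_lt (show 0 < r by omega), Nat.mod_eq_of_lt (show 1 < r by omega),
    Nat.mod_eq_of_lt (show 2 < r by omega)] at h1
  revert h1
  simp
  decide

/-- SQUARE FACTORS. -/
theorem square {p r n : ℕ} (hp : p.Prime) (hr : r.Prime) (hpr : p ≠ r) (hco : n.Coprime r)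
    (hsq : p ^ 2 ∣ n) (h : (X ^ r - 1 : (ZMod n)[X]) ∣ (X - 1) ^ n - (X ^ n - 1)) :
    (X ^ r - 1 : (ZMod (p ^ 2))[X]) ∣ (X - 1) ^ p - (X ^ p - 1) ∧
      (∀ j, ∑ k ∈ (Ico 1 p).filter (fun k => k % r = j), (k : ZMod p)⁻¹ = 0) ∧
        r * (r + 1) ≤ 2 * (p - 1) := by
  have : Fact p.Prime := ⟨hp⟩
  have h1 : (X ^ r - 1 : (ZMod (p ^ 2))[X]) ∣ (X - 1) ^ n - (X ^ n - 1) := by
    have h2 := Polynomial.map_dvd (ZMod.castHom hsq (ZMod (p ^ 2))) h
    simpa using h2
  have h2 := sq_step hp ((dvd_pow_self p two_ne_zero).trans hsq) hr.one_lt hco h1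
  have hodd : Odd p := by
    rcases hp.eq_two_or_odd' with rfl | h3
    · exfalso
      have h4 : 3 ≤ r := by
        have := hr.two_le
        omega
      exact not_two h4 h2
    · exact h3
  have h3 := fun j => class_sum hodd h2 j
  exact ⟨h2, h3, bound_of_sums hodd hr.two_le hpr h3⟩

end Aks1
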